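import Pool.Agent.Strip051.LC.Box.Two

/-! # The upper bound of the costs, from a certificate -/

namespace Pool.Agent.Strip051.LC.Box

open Pool.Agent.StripNear Pool.Agent.StripSquare Pool.Agent.Strip051.LC

/-- The upper bound `1 / 3`. -/
def wProb (C : List (List Aff)) : Prob where
  N := 256
  q := [[⟨[[0, 0], [0]], [0, 0], 89478485⟩]]
  edges := [⟨[1, 0], [0, 1], C⟩]
  cons := [⟨[[-1, 0], [-1]], [0, 0], 196608⟩, ⟨[[1, 0], [1]], [0, 0], -65536⟩]
  ubs := [([[1, 0], [0, 1]], 196608)]

/-- The box of `wProb`. -/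
def wBox : List (ℤ × ℤ) := [(0, 444), (0, 444)]

/-- **The field `tall`.** -/
theorem tall_of_check {C : List (List Aff)} (hC : C ≠ []) {t : Tree}
    (h : check (wProb C) t wBox = true) {X T : ℝ} (hX : 0 ≤ X) (hT : 0 ≤ T)
    (h1 : 1 ≤ X ^ 2 + T ^ 2) (h3 : X ^ 2 + T ^ 2 ≤ 3) : cbv C X T ≤ 1 / 3 := by
  obtain ⟨-, x2⟩ := abs_le_of_sq (x := X) (b := 444 / 256) (by norm_num)
    (by nlinarith [sq_nonneg T])
  obtain ⟨-, x4⟩ := abs_le_of_sq (x := T) (b := 444 / 256) (by norm_num)
    (by nlinarith [sq_nonneg X])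
  have hx : Mem wBox [256 * X, 256 * T] := by
    simp only [wBox, Mem]
    push_cast
    refine ⟨?_, ?_, ?_, ?_, trivial⟩ <;> linarith
  have hg : ∀ g ∈ (wProb C).cons, 0 ≤ g.val [256 * X, 256 * T] := by
    intro g hg
    simp only [wProb, List.mem_cons, List.not_mem_nil, or_false] at hg
    rcases hg with rfl | rfl <;>
    · simp only [Poly.val, qf, dot]
      push_cast
      linarith
  have hu : ∀ c ∈ (wProb C).ubs, sqs c.1 [256 * X, 256 * T] ≤ c.2 := by
    intro c hc
    simp only [wProb, List.mem_cons, List.not_mem_nil, or_false] at hc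
    rcases hc with rfl
    simp only [sqs, dot]
    push_cast
    linarith
  have hb : Below 256 (wProb C).edges [256 * X, 256 * T]
      (4096 * 256 * av (cbv C) X T + 0) := by
    refine .cons (leCb_av hC _ _ _ _ _ ?_ ?_) (.nil _) <;>
    · simp only [dot]
      push_cast
      ring
  obtain ⟨Q, hQ, hv⟩ := check_sound (by norm_num [wProb]) h hx hg hu hb
  simp only [wProb, List.mem_singleton] at hQ
  subst hQ
  have := hv _ (List.mem_singleton.2 rfl)
  simp only [wProb, Poly.val, qf, dot] at this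
  push_cast at this
  rw [av_pos _ hX hT] at this
  linarith

end Pool.Agent.Strip051.LC.Box
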