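import Pool.Agent.Strip051.LC.Box.Cost
import Pool.Agent.Strip051.LC.Exact.LongCost

/-! # The fields of `CostOK` about the walls from box certificates

`short_of`, `shortU_of`, `above_of` reduce the fields `short`, `shortU`, `above` for piecewise
affine functions to certificates; `shortL_of` is closed.  All coordinates are multiplied by `256`;
the weight `E` is at most `e / 4096`. -/

namespace Pool.Agent.Strip051.LC.Box

open Pool.Agent.StripNear Pool.Agent.StripSquare Pool.Agent.Strip051.Sweep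

private theorem wl_two_h0 : 0 < 2 * h0 := mul_pos two_pos h0_pos

private theorem wl_kappa : (2364 : ℝ) / 4096 ≤ 1 / (2 * h0) := by
  rw [le_div_iff₀ wl_two_h0]
  have := h0_lt
  linarith

private theorem wl_mul {x : ℝ} (hx : 0 ≤ x) : 2364 / 4096 * x ≤ x / (2 * h0) := by
  have := mul_le_mul_of_nonneg_right wl_kappa hx
  rwa [one_div, inv_mul_eq_div] at this

/-! ### Short pairs -/

/-- The target of the short pairs for one affine function. -/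
def shPoly (e : ℤ) (f : Aff) : Poly :=
  ⟨[[0, 2364], [0]], [256 * (f.a + 2048 - e), 256 * f.b], 65536 * (f.c - 2048)⟩

/-- The problem of the short pairs; variables `X, T`. -/
def shProb (C : List (List Aff)) (e : ℤ) : Prob where
  N := 256
  q := C.map (fun F => F.map (shPoly e))
  edges := []
  cons := [⟨[[1, 0], [1]], [0, 0], -65536⟩, ⟨[[-1, 0], [-1]], [0, 0], 196608⟩,
    ⟨[[-1, 0], [-1]], [512, 0], 0⟩]
  ubs := []

/-- The problem of the unit pairs. -/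
def shProbU (C : List (List Aff)) (e : ℤ) : Prob where
  N := 256
  q := C.map (fun F => F.map (shPoly e))
  edges := []
  cons := [⟨[[1, 0], [1]], [0, 0], -65536⟩, ⟨[[-1, 0], [-1]], [0, 0], 65536⟩,
    ⟨[[-1, 0], [-1]], [512, 0], 0⟩]
  ubs := []

private theorem wl_sh {C : List (List Aff)} (hC : ∀ F ∈ C, F ≠ []) {e : ℤ} {E X T : ℝ}
    (hE : 4096 * E ≤ e) (hX : 0 ≤ X) (hT : 0 ≤ T)
    (h : ∃ Q ∈ C.map (fun F => F.map (shPoly e)), ∀ q ∈ Q, 0 ≤ q.val [256 * X, 256 * T]) :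
    0 ≤ X * (1 / 2 - E + T / (2 * h0)) - 1 / 2 + cbv C X T := by
  obtain ⟨Q, hQ, h⟩ := h
  obtain ⟨F, hF, rfl⟩ := List.mem_map.1 hQ
  obtain ⟨f, hf, e1⟩ := exists_mnv (hC F hF) X T
  have h1 := h _ (List.mem_map.2 ⟨f, hf, rfl⟩)
  have h2 := le_cbv hF X T
  rw [e1] at h2
  unfold affv at h2
  have h3 := wl_mul (mul_nonneg hX hT)
  simp only [Poly.val, shPoly, qf_cons, dot_cons, qf_nil, dot_nil] at h1
  push_cast at h1
  have h4 := mul_le_mul_of_nonneg_right hE hX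
  have h5 : X * (T / (2 * h0)) = X * T / (2 * h0) := by ring
  have h6 : X * (1 / 2 - E + T / (2 * h0)) = X / 2 - E * X + X * (T / (2 * h0)) := by ring
  rw [h6, h5]
  linarith [h1, h2, h3, h4]

private theorem wl_box {X T : ℝ} (hT : 0 ≤ T) (h1 : 1 ≤ X ^ 2 + T ^ 2)
    (h3 : X ^ 2 + T ^ 2 ≤ 3) (h2 : X ^ 2 + T ^ 2 ≤ 2 * X) :
    Mem [(128, 444), (0, 256)] [256 * X, 256 * T] := by
  have a1 : X ≤ 1.734 := by nlinarith
  have a2 : T ≤ 1 := by nlinarith [sq_nonneg (X - 1)]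
  refine ⟨?_, ?_, ?_, ?_, trivial⟩ <;> push_cast <;> nlinarith

/-- **The field `short`.** -/
theorem short_of {C : List (List Aff)} (hC : ∀ F ∈ C, F ≠ []) {e : ℤ} {E : ℝ}
    (hE : 4096 * E ≤ e) {t : Tree} (h : check (shProb C e) t [(128, 444), (0, 256)] = true) :
    ∀ X T, 0 ≤ X → 0 ≤ T → 1 ≤ X ^ 2 + T ^ 2 → X ^ 2 + T ^ 2 ≤ 3 → X ^ 2 + T ^ 2 ≤ 2 * X →
      0 ≤ X * (1 / 2 - E + T / (2 * h0)) - 1 / 2 + cbv C X T := by
  intro X T hX hT h1 h3 h2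
  refine wl_sh hC hE hX hT ?_
  have key := check_sound (p := shProb C e) (by decide : (0 : ℤ) ≤ 256) h (wl_box hT h1 h3 h2)
    (z := 0) ?_ ?_ (Below.nil _)
  · obtain ⟨Q, hQ, k⟩ := key
    refine ⟨Q, hQ, fun q hq => ?_⟩
    have := k q hq
    rwa [mul_zero] at this
  · intro g hg
    simp only [shProb, List.mem_cons, List.not_mem_nil, or_false] at hg
    rcases hg with rfl | rfl | rfl <;>
      simp only [Poly.val, qf_cons, dot_cons, qf_nil, dot_nil] <;> push_cast <;> linarith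
  · intro c hc
    simp [shProb] at hc

/-- **The field `shortU`.** -/
theorem shortU_of {C : List (List Aff)} (hC : ∀ F ∈ C, F ≠ []) {e : ℤ} {E : ℝ}
    (hE : 4096 * E ≤ e) {t : Tree} (h : check (shProbU C e) t [(128, 444), (0, 256)] = true) :
    ∀ X T, 0 ≤ X → 0 ≤ T → X ^ 2 + T ^ 2 = 1 → X ^ 2 + T ^ 2 ≤ 2 * X →
      0 ≤ X * (1 / 2 - E + T / (2 * h0)) - 1 / 2 + cbv C X T := by
  intro X T hX hT h1 h2
  refine wl_sh hC hE hX hT ?_
  have key := check_sound (p := shProbU C e) (by decide : (0 : ℤ) ≤ 256) h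
    (wl_box hT h1.ge (by linarith) h2) (z := 0) ?_ ?_ (Below.nil _)
  · obtain ⟨Q, hQ, k⟩ := key
    refine ⟨Q, hQ, fun q hq => ?_⟩
    have := k q hq
    rwa [mul_zero] at this
  · intro g hg
    simp only [shProbU, List.mem_cons, List.not_mem_nil, or_false] at hg
    rcases hg with rfl | rfl | rfl <;>
      simp only [Poly.val, qf_cons, dot_cons, qf_nil, dot_nil] <;> push_cast <;> linarith
  · intro c hc
    simp [shProbU] at hc

/-- **The field `shortL`.** -/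
theorem shortL_of {E : ℝ} (hE : E ≤ 21 / 100) :
    ∀ X T, 0 ≤ X → 0 ≤ T → 3 ≤ X ^ 2 + T ^ 2 → X ^ 2 + T ^ 2 ≤ 2 * X →
      0 ≤ X * (1 / 2 - E + T / (2 * h0)) - 1 / 2 := by
  intro X T hX hT h3 h2
  have hk := wl_mul (mul_nonneg hX hT)
  have h5 : X * (1 / 2 - E + T / (2 * h0)) = X / 2 - E * X + X * T / (2 * h0) := by ring
  have h6 := mul_le_mul_of_nonneg_right hE hX
  have hX2 : 3 / 2 ≤ X := by linarith
  rw [h5]
  rcases le_total (1.73205 : ℝ) X with h | h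
  · nlinarith [mul_nonneg hX hT]
  · have hT2 : 1.73205 - X ≤ T := by
      by_contra hc
      push Not at hc
      nlinarith [mul_nonneg hT (sub_nonneg.2 h), mul_nonneg hX hT]
    have h7 := mul_le_mul_of_nonneg_left hT2 hX
    nlinarith [mul_nonneg (sub_nonneg.2 hX2) (sub_nonneg.2 h)]

/-! ### The cells above a long pair at the floor -/

/-- The problem; variables `a, b, y₁, y₂, x, z`. -/
def abProb (C : List (List Aff)) (e : ℤ) : Prob where
  N := 256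
  q := [[⟨[[0, 0, 2364, 0, 0, 2364], [0, 0, 2364, 0, 2364], [0, 0, 2364, 0], [0, -2364, 0],
    [0, 0], [0]], [256 * (2048 - e), 256 * (2048 - e), 0, 0, 0, 0], -268435456⟩]]
  edges := [⟨[1, 0, 0, 0, 1, 0], [0, 0, -1, 0, 0, 1], C⟩,
    ⟨[0, 1, 0, 0, -1, 0], [0, 0, 0, 1, 0, -1], C⟩]
  cons := [
    -- a² + y₁² = b² + y₂²
    ⟨[[1, 0, 0, 0, 0, 0], [-1, 0, 0, 0, 0], [1, 0, 0, 0], [-1, 0, 0], [0, 0], [0]],
      [0, 0, 0, 0, 0, 0], 0⟩,
    ⟨[[-1, 0, 0, 0, 0, 0], [1, 0, 0, 0, 0], [-1, 0, 0, 0], [1, 0, 0], [0, 0], [0]],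
      [0, 0, 0, 0, 0, 0], 0⟩,
    -- a² + y₁² ≤ 1
    ⟨[[-1, 0, 0, 0, 0, 0], [0, 0, 0, 0, 0], [-1, 0, 0, 0], [0, 0, 0], [0, 0], [0]],
      [0, 0, 0, 0, 0, 0], 65536⟩,
    -- 3 ≤ (a + b)² + (y₂ - y₁)²
    ⟨[[1, 2, 0, 0, 0, 0], [1, 0, 0, 0, 0], [1, -2, 0, 0], [1, 0, 0], [0, 0], [0]],
      [0, 0, 0, 0, 0, 0], -196608⟩,
    -- a² + y₁² ≤ x² + z²
    ⟨[[-1, 0, 0, 0, 0, 0], [0, 0, 0, 0, 0], [-1, 0, 0, 0], [0, 0, 0], [1, 0], [1]],
      [0, 0, 0, 0, 0, 0], 0⟩,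
    -- 1 ≤ (x + a)² + (z - y₁)²
    ⟨[[1, 0, 0, 0, 2, 0], [0, 0, 0, 0, 0], [1, 0, 0, -2], [0, 0, 0], [1, 0], [1]],
      [0, 0, 0, 0, 0, 0], -65536⟩,
    -- (x + a)² + (z - y₁)² ≤ 3
    ⟨[[-1, 0, 0, 0, -2, 0], [0, 0, 0, 0, 0], [-1, 0, 0, 2], [0, 0, 0], [-1, 0], [-1]],
      [0, 0, 0, 0, 0, 0], 196608⟩,
    -- 1 ≤ (b - x)² + (y₂ - z)²
    ⟨[[0, 0, 0, 0, 0, 0], [1, 0, 0, -2, 0], [0, 0, 0, 0], [1, 0, -2], [1, 0], [1]],
      [0, 0, 0, 0, 0, 0], -65536⟩,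
    -- (b - x)² + (y₂ - z)² ≤ 3
    ⟨[[0, 0, 0, 0, 0, 0], [-1, 0, 0, 2, 0], [0, 0, 0, 0], [-1, 0, 2], [-1, 0], [-1]],
      [0, 0, 0, 0, 0, 0], 196608⟩,
    -- the height of the third vertex above the long side is at least 1 / 2
    ⟨[[0, 0, 0, -1, 0, 1], [0, -1, 0, 0, 1], [0, 0, 1, 0], [0, -1, 0], [0, 0], [0]],
      [0, 0, 0, 0, 0, 0], -56755⟩]
  ubs := []

/-- The box. -/
def abBox : List (ℤ × ℤ) := [(128, 256), (128, 256), (0, 222), (0, 222), (0, 316), (0, 648)]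

private theorem wl_le {u w : ℝ} (h : u ^ 2 + w ^ 2 ≤ 3) : u ≤ 1.7321 := by
  nlinarith [sq_nonneg w]

private theorem wl_pq {a b y1 y2 : ℝ} (hy1 : 0 ≤ y1) (hy2 : 0 ≤ y2) (hab : 0 < a + b)
    (k1 : a ^ 2 + y1 ^ 2 = b ^ 2 + y2 ^ 2) (k2 : a ^ 2 + y1 ^ 2 ≤ 1)
    (k3 : 3 ≤ (a + b) ^ 2 + (y2 - y1) ^ 2) : 1 / 2 ≤ a ∧ a ≤ 1 ∧ y1 ≤ 222 / 256 := by
  have hyy : 0 ≤ y1 * y2 := mul_nonneg hy1 hy2
  have hp : 1 / 2 ≤ a * b := by
    have : (a + b) ^ 2 + (y2 - y1) ^ 2 =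
      (a ^ 2 + y1 ^ 2) + (b ^ 2 + y2 ^ 2) + 2 * (a * b) - 2 * (y1 * y2) := by ring
    linarith
  have ha0 : 0 < a := by
    by_contra hc
    push Not at hc
    have := mul_nonneg (neg_nonneg.2 hc) (by linarith : 0 ≤ b)
    linarith
  have ha1 : a ≤ 1 := by
    have := sq_nonneg y1
    by_contra hc
    push Not at hc
    have : 1 < a ^ 2 := by nlinarith
    linarith
  have hb1 : b ≤ 1 := by
    have := sq_nonneg y2
    by_contra hc
    push Not at hc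
    have : 1 < b ^ 2 := by nlinarith
    linarith
  have ha2 : 1 / 2 ≤ a := by
    have := mul_le_mul_of_nonneg_left hb1 ha0.le
    linarith
  refine ⟨ha2, ha1, ?_⟩
  have h4 : y1 ^ 2 ≤ 3 / 4 := by
    have : 1 / 4 ≤ a ^ 2 := by nlinarith
    linarith
  by_contra hc
  push Not at hc
  nlinarith

private theorem wl_z {x a z y : ℝ} (hx : 0 ≤ x) (ha : 1 / 2 ≤ a) (hy : y ≤ 222 / 256)
    (h : (x + a) ^ 2 + (z - y) ^ 2 ≤ 3) : z ≤ 648 / 256 := by
  have h0 : 1 / 2 ≤ x + a := by linarith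
  have h1 : 1 / 4 ≤ (x + a) ^ 2 := by nlinarith
  have h2 : (z - y) ^ 2 ≤ 11 / 4 := by linarith
  have h3 : z - y ≤ 1.6584 := by
    by_contra hc
    push Not at hc
    nlinarith
  linarith

private theorem wl_K {K : ℝ} (h0 : 0 ≤ K) (h : 3 ≤ 4 * K ^ 2) : 0.8660254 ≤ K := by
  by_contra hc
  push Not at hc
  nlinarith

private theorem wl_above {C : List (List Aff)} (hC : C ≠ []) {e : ℤ} {E : ℝ}
    (hE : 4096 * E ≤ e) {t : Tree} (h : check (abProb C e) t abBox = true)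
    {a b y1 y2 x z : ℝ} (hx : 0 ≤ x) (hy1 : 0 ≤ y1) (hy2 : 0 ≤ y2) (hz : 0 ≤ z)
    (hab : 0 < a + b) (k1 : a ^ 2 + y1 ^ 2 = b ^ 2 + y2 ^ 2) (k2 : a ^ 2 + y1 ^ 2 ≤ 1)
    (k3 : 3 ≤ (a + b) ^ 2 + (y2 - y1) ^ 2) (k4 : a ^ 2 + y1 ^ 2 ≤ x ^ 2 + z ^ 2)
    (k5 : 1 ≤ (x + a) ^ 2 + (z - y1) ^ 2) (k6 : (x + a) ^ 2 + (z - y1) ^ 2 ≤ 3)
    (k7 : 1 ≤ (b - x) ^ 2 + (y2 - z) ^ 2) (k8 : (b - x) ^ 2 + (y2 - z) ^ 2 ≤ 3)
    (k9 : 0 ≤ (a + b) * (z - y1) - (y2 - y1) * (x + a))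
    (k10 : (a + b) ^ 2 + (y2 - y1) ^ 2 ≤
      4 * ((a + b) * (z - y1) - (y2 - y1) * (x + a)) ^ 2) :
    av (cbv C) (x + a) (z - y1) + av (cbv C) (b - x) (y2 - z) ≤
      (x + a) * (1 / 2 - E + (y1 + z) / (2 * h0)) +
        (b - x) * (1 / 2 - E + (z + y2) / (2 * h0)) - 1 := by
  obtain ⟨ha2, ha1, hy1'⟩ := wl_pq hy1 hy2 hab k1 k2 k3
  obtain ⟨hb2, hb1, hy2'⟩ := wl_pq hy2 hy1 (by linarith : 0 < b + a) k1.symm (k1 ▸ k2)
    (by rw [show (b + a) ^ 2 + (y1 - y2) ^ 2 = (a + b) ^ 2 + (y2 - y1) ^ 2 by ring]; exact k3)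
  have hx1 : x ≤ 316 / 256 := by linarith [wl_le k6]
  have hz1 : z ≤ 648 / 256 := wl_z hx ha2 hy1' k6
  set K := (a + b) * (z - y1) - (y2 - y1) * (x + a) with hK
  have hK1 : 0.8660254 ≤ K := wl_K k9 (by linarith)
  have hM : Mem abBox [256 * a, 256 * b, 256 * y1, 256 * y2, 256 * x, 256 * z] := by
    refine ⟨?_, ?_, ?_, ?_, ?_, ?_, ?_, ?_, ?_, ?_, ?_, ?_, trivial⟩ <;> push_cast <;> linarith
  have hN : (0 : ℤ) ≤ 256 := by decide
  have b1 := leCb_cbv hC hN (x + a) (z - y1)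
  have b2 := leCb_cbv hC hN (b - x) (y2 - z)
  set c1 := cbv C |x + a| |z - y1| with hc1
  set c2 := cbv C |b - x| |y2 - z| with hc2
  have hB : Below (abProb C e).N (abProb C e).edges
      [256 * a, 256 * b, 256 * y1, 256 * y2, 256 * x, 256 * z]
      (4096 * (256 : ℤ) * c1 + (4096 * (256 : ℤ) * c2 + 0)) := by
    refine Below.cons ?_ (Below.cons ?_ (Below.nil _))
    · show LeCb C 256 (dot [1, 0, 0, 0, 1, 0]
        [256 * a, 256 * b, 256 * y1, 256 * y2, 256 * x, 256 * z]) (dot [0, 0, -1, 0, 0, 1]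
        [256 * a, 256 * b, 256 * y1, 256 * y2, 256 * x, 256 * z]) _
      have d1 : dot [1, 0, 0, 0, 1, 0] [256 * a, 256 * b, 256 * y1, 256 * y2, 256 * x, 256 * z] =
          ((256 : ℤ) : ℝ) * (x + a) := by
        simp only [dot_cons, dot_nil]
        push_cast
        ring
      have d2 : dot [0, 0, -1, 0, 0, 1]
          [256 * a, 256 * b, 256 * y1, 256 * y2, 256 * x, 256 * z] =
          ((256 : ℤ) : ℝ) * (z - y1) := by
        simp only [dot_cons, dot_nil]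
        push_cast
        ring
      rw [d1, d2]
      exact b1
    · show LeCb C 256 (dot [0, 1, 0, 0, -1, 0]
        [256 * a, 256 * b, 256 * y1, 256 * y2, 256 * x, 256 * z]) (dot [0, 0, 0, 1, 0, -1]
        [256 * a, 256 * b, 256 * y1, 256 * y2, 256 * x, 256 * z]) _
      have d1 : dot [0, 1, 0, 0, -1, 0] [256 * a, 256 * b, 256 * y1, 256 * y2, 256 * x, 256 * z] =
          ((256 : ℤ) : ℝ) * (b - x) := by
        simp only [dot_cons, dot_nil]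
        push_cast
        ring
      have d2 : dot [0, 0, 0, 1, 0, -1]
          [256 * a, 256 * b, 256 * y1, 256 * y2, 256 * x, 256 * z] =
          ((256 : ℤ) : ℝ) * (y2 - z) := by
        simp only [dot_cons, dot_nil]
        push_cast
        ring
      rw [d1, d2]
      exact b2
  have key := check_sound (p := abProb C e) hN h hM ?_ ?_ hB
  · obtain ⟨Q, hQ, k⟩ := key
    simp only [abProb, List.mem_singleton] at hQ
    subst hQ
    have k' := k _ (List.mem_singleton_self _)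
    simp only [Poly.val, abProb, qf_cons, dot_cons, qf_nil, dot_nil] at k'
    push_cast at k'
    have hBr : 0 ≤ (x + a) * (y1 + z) + (b - x) * (z + y2) := by
      have : (x + a) * (y1 + z) + (b - x) * (z + y2) = (a + b) * (y1 + y2) + K := by
        rw [hK]
        ring
      rw [this]
      positivity
    have h3 := wl_mul hBr
    have h4 := mul_le_mul_of_nonneg_right hE hab.le
    have h5 : (x + a) * (1 / 2 - E + (y1 + z) / (2 * h0)) +
        (b - x) * (1 / 2 - E + (z + y2) / (2 * h0)) - 1 =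
        (a + b) / 2 - E * (a + b) +
          ((x + a) * (y1 + z) + (b - x) * (z + y2)) / (2 * h0) - 1 := by ring
    rw [h5]
    show c1 + c2 ≤ _
    linarith [k', h3, h4]
  · intro g hg
    simp only [abProb, List.mem_cons, List.not_mem_nil, or_false] at hg
    rcases hg with rfl | rfl | rfl | rfl | rfl | rfl | rfl | rfl | rfl | rfl <;>
      simp only [Poly.val, qf_cons, dot_cons, qf_nil, dot_nil] <;> push_cast <;> linarith
  · intro c hc
    simp [abProb] at hc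

/-- **The field `above`.** -/
theorem above_of {C : List (List Aff)} (hC : C ≠ []) {e : ℤ} {E : ℝ}
    (hE : 4096 * E ≤ e) {t : Tree} (h : check (abProb C e) t abBox = true) :
    ∀ a b y1 y2 x z, 0 ≤ y1 → 0 ≤ y2 → 0 ≤ z → 0 < a + b →
    a ^ 2 + y1 ^ 2 = b ^ 2 + y2 ^ 2 → a ^ 2 + y1 ^ 2 ≤ 1 → 3 ≤ (a + b) ^ 2 + (y2 - y1) ^ 2 →
    a ^ 2 + y1 ^ 2 ≤ x ^ 2 + z ^ 2 → 1 ≤ (x + a) ^ 2 + (z - y1) ^ 2 →
    (x + a) ^ 2 + (z - y1) ^ 2 ≤ 3 → 1 ≤ (b - x) ^ 2 + (y2 - z) ^ 2 →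
    (b - x) ^ 2 + (y2 - z) ^ 2 ≤ 3 → 0 ≤ (a + b) * (z - y1) - (y2 - y1) * (x + a) →
    (a + b) ^ 2 + (y2 - y1) ^ 2 ≤ 4 * ((a + b) * (z - y1) - (y2 - y1) * (x + a)) ^ 2 →
    av (cbv C) (x + a) (z - y1) + av (cbv C) (b - x) (y2 - z) ≤
      (x + a) * (1 / 2 - E + (y1 + z) / (2 * h0)) +
        (b - x) * (1 / 2 - E + (z + y2) / (2 * h0)) - 1 := by
  intro a b y1 y2 x z hy1 hy2 hz hab k1 k2 k3 k4 k5 k6 k7 k8 k9 k10
  rcases le_total 0 x with hx | hx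
  · exact wl_above hC hE h hx hy1 hy2 hz hab k1 k2 k3 k4 k5 k6 k7 k8 k9 k10
  · have eK : (b + a) * (z - y2) - (y1 - y2) * (-x + b) =
        (a + b) * (z - y1) - (y2 - y1) * (x + a) := by ring
    have key := wl_above hC hE h (a := b) (b := a) (y1 := y2) (y2 := y1) (x := -x) (z := z)
      (by linarith) hy2 hy1 hz (by linarith) k1.symm (by linarith) (by linarith)
      (by linarith) (by linarith) (by linarith) (by linarith) (by linarith)
      (by rw [eK]; exact k9) (by rw [eK]; linarith)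
    have e1 : av (cbv C) (-x + b) (z - y2) = av (cbv C) (b - x) (y2 - z) := by
      rw [show -x + b = b - x by ring, show z - y2 = -(y2 - z) by ring, av_negR]
    have e2 : av (cbv C) (a - -x) (y1 - z) = av (cbv C) (x + a) (z - y1) := by
      rw [show a - -x = x + a by ring, show y1 - z = -(z - y1) by ring, av_negR]
    rw [e1, e2] at key
    have e3 : (x + a) * (1 / 2 - E + (y1 + z) / (2 * h0)) +
        (b - x) * (1 / 2 - E + (z + y2) / (2 * h0)) - 1 =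
        (-x + b) * (1 / 2 - E + (y2 + z) / (2 * h0)) +
          (a - -x) * (1 / 2 - E + (z + y1) / (2 * h0)) - 1 := by ring
    rw [e3]
    linarith

end Pool.Agent.Strip051.LC.Box
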