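import Pool.Agent.Strip051.LC.Box.QuadF
import Pool.Agent.Strip051.LC.Box.Tall
import Pool.Agent.Strip051.LC.Box.Wall

/-! # All conditions on the costs from certificates -/

namespace Pool.Agent.Strip051.LC.Box

open Pool.Agent.StripNear Pool.Agent.StripSquare Pool.Agent.Strip051.LC
open Pool.Agent.Strip051.LC.Box.Fast

/-- The lists are good. -/
def okL (C U R : List (List Aff)) : Bool :=
  okC C && decide (0 < C.length) && decide (0 < U.length) && decide (0 < R.length) &&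
    C.all (fun F => decide (0 < F.length)) && U.all (fun F => decide (0 < F.length)) &&
    R.all (fun F => decide (0 < F.length)) &&
    R.any (fun F => match F with
      | [f] => decide (f.a = 0) && decide (f.b = 0) && decide (f.c = 0)
      | _ => false) &&
    okC (sc4 C) && okC (sc4 U) && okC (sc4 R) && R.all (fun F => okC (sc4 (ngL F)))

/-- The certificates for the costs `C`, `U`, `R` and the weight `e / 4096`. -/
structure Certs (C U R : List (List Aff)) (e : ℤ) : Prop where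
  ok : okL C U R = true
  he : e ≤ 860
  q4 : ∃ t, chk q4FP (packC C) (cutK q4CD) t q4BoxF = true
  q9 : ∃ t, chk q9FP (packC C) (cutK q9CD) t q9BoxF = true
  tt : ∃ t, chkM tFP (tCS C R) (cutK tCD) t tBoxF = true
  rr : ∃ t, chkM rFP (rCS U R) (cutK rCD) t rBoxF = true
  ww : ∃ t, check (wProb C) t wBox = true
  ab : ∃ t, check (abProb C e) t abBox = true
  sh : ∃ t, check (shProb C e) t [(128, 444), (0, 256)] = true
  su : ∃ t, check (shProbU U e) t [(128, 444), (0, 256)] = true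

/-- **All conditions.** -/
theorem Certs.costOK {C U R : List (List Aff)} {e : ℤ} (h : Certs C U R e) {E : ℝ}
    (hE : 4096 * E ≤ e) : CostOK (cbv C) (cbv U) (cbv R) E := by
  obtain ⟨hok, he, ⟨t4, h4⟩, ⟨t9, h9⟩, ⟨tt, ht⟩, ⟨tr, hr⟩, ⟨tw, hw⟩, ⟨ta, ha⟩, ⟨ts, hs⟩,
    ⟨tu, hu⟩⟩ := h
  simp only [okL, Bool.and_eq_true, decide_eq_true_eq, List.all_eq_true, List.any_eq_true] at hok
  obtain ⟨⟨⟨⟨⟨⟨⟨⟨⟨⟨⟨o1, o2⟩, o3⟩, o4⟩, o5⟩, o6⟩, o7⟩, F, hF, o8⟩, o9⟩, o10⟩, o11⟩, o12⟩ := hok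
  have hC : C ≠ [] := List.length_pos_iff.1 o2
  have hU : U ≠ [] := List.length_pos_iff.1 o3
  have hR : R ≠ [] := List.length_pos_iff.1 o4
  have hC' : ∀ F ∈ C, F ≠ [] := fun F hF => List.length_pos_iff.1 (o5 F hF)
  have hU' : ∀ F ∈ U, F ≠ [] := fun F hF => List.length_pos_iff.1 (o6 F hF)
  have hR' : ∀ F ∈ R, F ≠ [] := fun F hF => List.length_pos_iff.1 (o7 F hF)
  have h0 : [⟨0, 0, 0⟩] ∈ R := by
    match F, hF, o8 with
    | [⟨a, b, c⟩], hF, o8 =>
      simp only [Bool.and_eq_true, decide_eq_true_eq] at o8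
      obtain ⟨⟨rfl, rfl⟩, rfl⟩ := o8
      exact hF
  have hE' : E ≤ 21 / 100 := by
    have : (e : ℝ) ≤ 860 := by exact_mod_cast he
    linarith
  exact
    { short := short_of hC' hE hs
      shortU := shortU_of hU' hE hu
      shortL := shortL_of hE'
      above := above_of hC hE ha
      tall := fun X T h1 h2 h3 h4 => tall_of_check hC hw h1 h2 h3 h4
      quad := fun A1 A2 B1 B2 d1 d2 hq => quad_of_fast hC o1 rfl h4 h9 hq
      rho0 := rho0_of h0
      rhoU := fun u1 u2 v1 v2 e1 e2 e3 => rhoU_of_check hU hR' o10 o12 hr e1 e2 e3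
      two := fun P1 P2 R1 R2 u1 u2 v1 v2 ht' => two_of_check hC hR o9 o11 ht ht' }

end Pool.Agent.Strip051.LC.Box
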