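import Pool.Agent.Strip051.LC.Box.Engine

/-! # The values of the piecewise affine functions

`cbv C X T` is the maximum over the pieces of the minimum of the affine functions of a piece; the
coefficients are in the unit `1 / 4096`. -/

namespace Pool.Agent.Strip051.LC.Box

/-- The value of an affine function. -/
noncomputable def affv (f : Aff) (X T : ℝ) : ℝ := (f.a * X + f.b * T + f.c) / 4096

/-- The minimum of affine functions. -/
noncomputable def mnv : List Aff → ℝ → ℝ → ℝ
  | [], _, _ => 0
  | [f], X, T => affv f X T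
  | f :: g :: F, X, T => min (affv f X T) (mnv (g :: F) X T)

/-- The maximum over the pieces. -/
noncomputable def cbv : List (List Aff) → ℝ → ℝ → ℝ
  | [], _, _ => 0
  | [F], X, T => mnv F X T
  | F :: G :: C, X, T => max (mnv F X T) (cbv (G :: C) X T)

theorem mnv_le {F : List Aff} {f : Aff} (h : f ∈ F) (X T : ℝ) : mnv F X T ≤ affv f X T := by
  induction F with
  | nil => simp at h
  | cons g F ih =>
    cases F with
    | nil =>
      rw [List.mem_singleton.1 h]
      exact le_rfl
    | cons k F =>
      simp only [mnv]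
      rcases List.mem_cons.1 h with rfl | h
      · exact min_le_left _ _
      · exact (min_le_right _ _).trans (ih h)

/-- The minimum is attained. -/
theorem exists_mnv {F : List Aff} (hF : F ≠ []) (X T : ℝ) : ∃ f ∈ F, mnv F X T = affv f X T := by
  induction F with
  | nil => exact (hF rfl).elim
  | cons g F ih =>
    cases F with
    | nil => exact ⟨g, by simp, rfl⟩
    | cons k F =>
      simp only [mnv]
      rcases min_choice (affv g X T) (mnv (k :: F) X T) with h | h
      · exact ⟨g, by simp, h⟩
      · obtain ⟨f, hf, e⟩ := ih (by simp)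
        exact ⟨f, List.mem_cons_of_mem _ hf, h.trans e⟩

theorem le_mnv {F : List Aff} (hF : F ≠ []) {X T z : ℝ} (h : ∀ f ∈ F, z ≤ affv f X T) :
    z ≤ mnv F X T := by
  obtain ⟨f, hf, e⟩ := exists_mnv hF X T
  rw [e]
  exact h f hf

theorem le_cbv {C : List (List Aff)} {F : List Aff} (h : F ∈ C) (X T : ℝ) :
    mnv F X T ≤ cbv C X T := by
  induction C with
  | nil => simp at h
  | cons G C ih =>
    cases C with
    | nil =>
      rw [List.mem_singleton.1 h]
      exact le_rfl
    | cons K C =>
      simp only [cbv]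
      rcases List.mem_cons.1 h with rfl | h
      · exact le_max_left _ _
      · exact (ih h).trans (le_max_right _ _)

/-- The maximum is attained. -/
theorem exists_cbv {C : List (List Aff)} (hC : C ≠ []) (X T : ℝ) :
    ∃ F ∈ C, cbv C X T = mnv F X T := by
  induction C with
  | nil => exact (hC rfl).elim
  | cons G C ih =>
    cases C with
    | nil => exact ⟨G, by simp, rfl⟩
    | cons K C =>
      simp only [cbv]
      rcases max_choice (mnv G X T) (cbv (K :: C) X T) with h | h
      · exact ⟨G, by simp, h⟩
      · obtain ⟨f, hf, e⟩ := ih (by simp)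
        exact ⟨f, List.mem_cons_of_mem _ hf, h.trans e⟩

theorem val_eq (f : Aff) {N : ℤ} (hN : 0 ≤ N) (X T : ℝ) :
    f.val N (N * X) (N * T) = 4096 * N * affv f |X| |T| := by
  unfold Aff.val affv
  have h : (0 : ℝ) ≤ N := by exact_mod_cast hN
  rw [abs_mul, abs_mul, abs_of_nonneg h]
  ring

theorem leMin_mnv (F : List Aff) {N : ℤ} (hN : 0 ≤ N) (X T : ℝ) :
    LeMin F N (N * X) (N * T) (4096 * N * mnv F |X| |T|) := by
  intro f hf
  rw [val_eq f hN]
  have h : (0 : ℝ) ≤ N := by exact_mod_cast hN
  exact mul_le_mul_of_nonneg_left (mnv_le hf _ _) (by positivity)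

/-- **The value satisfies the relation of the engine.** -/
theorem leCb_cbv {C : List (List Aff)} (hC : C ≠ []) {N : ℤ} (hN : 0 ≤ N) (X T : ℝ) :
    LeCb C N (N * X) (N * T) (4096 * N * cbv C |X| |T|) := by
  obtain ⟨F, hF, e⟩ := exists_cbv hC |X| |T|
  rw [e]
  exact ⟨F, hF, leMin_mnv F hN X T⟩

/-- An upper bound by all affine functions of a piece. -/
theorem le_cbv_of_val {C : List (List Aff)} {F : List Aff} (hF : F ∈ C) (hne : F ≠ []) {N : ℤ}
    (hN : 0 < N) {X T z : ℝ} (h : ∀ f ∈ F, 4096 * N * z ≤ f.val N (N * X) (N * T)) :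
    z ≤ cbv C |X| |T| := by
  refine le_trans ?_ (le_cbv hF _ _)
  refine le_mnv hne fun f hf => ?_
  have h1 := h f hf
  rw [val_eq f hN.le] at h1
  have h2 : (0 : ℝ) < N := by exact_mod_cast hN
  exact le_of_mul_le_mul_left h1 (by positivity)

end Pool.Agent.Strip051.LC.Box
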