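import Mathlib

/-! # Box certificates for quadratic inequalities with piecewise affine terms

A quadratic polynomial which is concave in each variable separately is nonnegative on a box if it is
nonnegative at the vertices.  The inequality
`cb₁ (u₁ · x, v₁ · x) + .. ≤ q x` on the set where the quadratic polynomials `g_k` are nonnegative
is certified on a box by affine majorants of the functions `cb_j` and multipliers of the `g_k`.  All
data are integers. -/

namespace Pool.Agent.Strip051.LC.Box

/-! ### Linear forms -/

/-- `v * a + b`. -/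
def axpy (v : ℤ) : List ℤ → List ℤ → List ℤ
  | a :: as, b :: bs => (b + v * a) :: axpy v as bs
  | [], bs => bs
  | a :: as, [] => (v * a) :: axpy v as []

/-- The value of a linear form. -/
def dot : List ℤ → List ℝ → ℝ
  | a :: as, x :: xs => a * x + dot as xs
  | _, _ => 0

@[simp] theorem dot_nil (xs : List ℝ) : dot [] xs = 0 := by
  cases xs <;> rfl

@[simp] theorem dot_nil' (as : List ℤ) : dot as [] = 0 := by
  cases as <;> rfl

@[simp] theorem dot_cons (a : ℤ) (as : List ℤ) (x : ℝ) (xs : List ℝ) :
    dot (a :: as) (x :: xs) = a * x + dot as xs := rfl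

theorem dot_axpy (v : ℤ) (as bs : List ℤ) (xs : List ℝ) :
    dot (axpy v as bs) xs = dot bs xs + v * dot as xs := by
  induction as generalizing bs xs with
  | nil => simp [axpy]
  | cons a as ih =>
    cases bs with
    | nil =>
      cases xs with
      | nil => simp
      | cons x xs =>
        simp only [axpy, dot_cons, ih]
        push_cast
        simp
        ring
    | cons b bs =>
      cases xs with
      | nil => simp
      | cons x xs =>
        simp only [axpy, dot_cons, ih]
        push_cast
        ring

/-! ### Quadratic forms -/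

/-- The quadratic form with the rows `(m_i, coefficients of x_i x_j, j > i)`. -/
def qf : List (List ℤ) → List ℝ → ℝ
  | r :: P, x :: xs => x * dot r (x :: xs) + qf P xs
  | _, _ => 0

@[simp] theorem qf_nil (xs : List ℝ) : qf [] xs = 0 := by
  cases xs <;> rfl

@[simp] theorem qf_nil' (P : List (List ℤ)) : qf P [] = 0 := by
  cases P <;> rfl

@[simp] theorem qf_cons (r : List ℤ) (P : List (List ℤ)) (x : ℝ) (xs : List ℝ) :
    qf (r :: P) (x :: xs) = x * dot r (x :: xs) + qf P xs := rfl

/-- `v * A + B`. -/
def axpy2 (v : ℤ) : List (List ℤ) → List (List ℤ) → List (List ℤ)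
  | a :: as, b :: bs => axpy v a b :: axpy2 v as bs
  | [], bs => bs
  | a :: as, [] => axpy v a [] :: axpy2 v as []

theorem qf_axpy2 (v : ℤ) (A B : List (List ℤ)) (xs : List ℝ) :
    qf (axpy2 v A B) xs = qf B xs + v * qf A xs := by
  induction A generalizing B xs with
  | nil => simp [axpy2]
  | cons a as ih =>
    cases B with
    | nil =>
      cases xs with
      | nil => simp
      | cons x xs =>
        simp only [axpy2, qf_cons, ih, dot_axpy]
        simp
        ring
    | cons b bs =>
      cases xs with
      | nil => simp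
      | cons x xs =>
        simp only [axpy2, qf_cons, ih, dot_axpy]
        ring

/-- A quadratic polynomial. -/
structure Poly where
  P : List (List ℤ)
  L : List ℤ
  c : ℤ

/-- The value. -/
def Poly.val (p : Poly) (xs : List ℝ) : ℝ := qf p.P xs + dot p.L xs + p.c

/-- `p + v * q`. -/
def Poly.add (p : Poly) (v : ℤ) (q : Poly) : Poly :=
  ⟨axpy2 v q.P p.P, axpy v q.L p.L, p.c + v * q.c⟩

theorem Poly.val_add (p : Poly) (v : ℤ) (q : Poly) (xs : List ℝ) :
    (p.add v q).val xs = p.val xs + v * q.val xs := by
  unfold Poly.val Poly.add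
  simp only [qf_axpy2, dot_axpy]
  push_cast
  ring

/-! ### Boxes -/

/-- Membership in a box. -/
def Mem : List (ℤ × ℤ) → List ℝ → Prop
  | b :: B, x :: xs => (b.1 : ℝ) ≤ x ∧ x ≤ b.2 ∧ Mem B xs
  | [], [] => True
  | _, _ => False

/-- The polynomial is concave in each variable and nonnegative at the vertices. -/
def pos : List (ℤ × ℤ) → List (List ℤ) → List ℤ → ℤ → Bool
  | (lo, hi) :: B, (m :: cr) :: P, l :: L, c =>
    decide (m ≤ 0) && pos B P (axpy lo cr L) (c + lo * (l + m * lo)) &&
      pos B P (axpy hi cr L) (c + hi * (l + m * hi))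
  | [], [], [], c => decide (0 ≤ c)
  | _, _, _, _ => false

theorem concave_nonneg {m k c lo hi x : ℝ} (hm : m ≤ 0) (h1 : lo ≤ x) (h2 : x ≤ hi)
    (f1 : 0 ≤ m * lo ^ 2 + k * lo + c) (f2 : 0 ≤ m * hi ^ 2 + k * hi + c) :
    0 ≤ m * x ^ 2 + k * x + c := by
  rcases eq_or_lt_of_le (h1.trans h2) with h | h
  · have : x = lo := le_antisymm (by linarith) h1
    rw [this]
    exact f1
  · have key : (hi - lo) * (m * x ^ 2 + k * x + c) =
        (hi - x) * (m * lo ^ 2 + k * lo + c) + (x - lo) * (m * hi ^ 2 + k * hi + c) +
          (-m) * ((x - lo) * (hi - x)) * (hi - lo) := by ring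
    have e1 : 0 ≤ (hi - x) * (m * lo ^ 2 + k * lo + c) := mul_nonneg (by linarith) f1
    have e2 : 0 ≤ (x - lo) * (m * hi ^ 2 + k * hi + c) := mul_nonneg (by linarith) f2
    have e3 : 0 ≤ (-m) * ((x - lo) * (hi - x)) * (hi - lo) :=
      mul_nonneg (mul_nonneg (by linarith) (mul_nonneg (by linarith) (by linarith)))
        (by linarith)
    have : 0 ≤ (hi - lo) * (m * x ^ 2 + k * x + c) := by rw [key]; positivity
    exact nonneg_of_mul_nonneg_right this (by linarith)

theorem pos_sound (B : List (ℤ × ℤ)) : ∀ (P : List (List ℤ)) (L : List ℤ) (c : ℤ) (xs : List ℝ),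
    pos B P L c = true → Mem B xs → 0 ≤ qf P xs + dot L xs + c := by
  induction B with
  | nil =>
    intro P L c xs h hx
    cases xs with
    | cons x xs => exact hx.elim
    | nil =>
      match P, L, h with
      | [], [], h =>
        have : 0 ≤ c := by simpa [pos] using h
        simp only [qf_nil, dot_nil, zero_add]
        exact_mod_cast this
      | [], _ :: _, h => exact absurd h (by simp [pos])
      | _ :: _, _, h => exact absurd h (by simp [pos])
  | cons b B ih =>
    intro P L c xs h hx
    obtain ⟨lo, hi⟩ := b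
    cases xs with
    | nil => exact hx.elim
    | cons x xs =>
      obtain ⟨h1, h2, h3⟩ := hx
      match P, L, h with
      | [], L, h => exact absurd h (by cases L <;> simp [pos])
      | [] :: P, L, h => exact absurd h (by cases L <;> simp [pos])
      | (m :: cr) :: P, [], h => exact absurd h (by simp [pos])
      | (m :: cr) :: P, l :: L, h =>
        simp only [pos, Bool.and_eq_true, decide_eq_true_eq] at h
        obtain ⟨⟨hm, e1⟩, e2⟩ := h
        have k1 := ih P _ _ xs e1 h3
        have k2 := ih P _ _ xs e2 h3
        rw [dot_axpy] at k1 k2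
        push_cast at k1 k2
        have hm' : (m : ℝ) ≤ 0 := by exact_mod_cast hm
        have := concave_nonneg (m := m) (k := l + dot cr xs)
          (c := qf P xs + dot L xs + c) hm' h1 h2 (by linarith) (by linarith)
        simp only [qf_cons, dot_cons]
        linarith

/-! ### Ranges of linear forms -/

/-- The range of a linear form on a box. -/
def rng : List ℤ → List (ℤ × ℤ) → ℤ × ℤ
  | a :: as, (lo, hi) :: B =>
    let r := rng as B
    if 0 ≤ a then (a * lo + r.1, a * hi + r.2) else (a * hi + r.1, a * lo + r.2)
  | _, _ => (0, 0)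

theorem rng_sound (as : List ℤ) : ∀ (B : List (ℤ × ℤ)) (xs : List ℝ), Mem B xs →
    ((rng as B).1 : ℝ) ≤ dot as xs ∧ dot as xs ≤ (rng as B).2 := by
  induction as with
  | nil => intro B xs _; simp [rng]
  | cons a as ih =>
    intro B xs h
    cases B with
    | nil =>
      cases xs with
      | nil => simp [rng]
      | cons x xs => exact h.elim
    | cons b B =>
      obtain ⟨lo, hi⟩ := b
      cases xs with
      | nil => exact h.elim
      | cons x xs =>
        obtain ⟨h1, h2, h3⟩ := h
        obtain ⟨i1, i2⟩ := ih B xs h3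
        simp only at h1 h2
        simp only [rng, dot_cons]
        split_ifs with ha
        · have ha' : (0 : ℝ) ≤ a := by exact_mod_cast ha
          push_cast
          constructor <;> nlinarith
        · have ha' : (a : ℝ) ≤ 0 := by exact_mod_cast (not_le.1 ha).le
          push_cast
          constructor <;> nlinarith

/-! ### Piecewise affine functions -/

/-- An affine function of `|X|` and `|T|`. -/
structure Aff where
  a : ℤ
  b : ℤ
  c : ℤ

/-- The value, in the unit `N`. -/
def Aff.val (f : Aff) (N : ℤ) (X T : ℝ) : ℝ := f.a * |X| + f.b * |T| + f.c * N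

/-- `w * f + g`. -/
def Aff.add (w : ℤ) (f g : Aff) : Aff := ⟨w * f.a + g.a, w * f.b + g.b, w * f.c + g.c⟩

/-- The weighted sum of a list of affine functions. -/
def wsum : List Aff → List ℕ → Aff
  | f :: F, w :: W => Aff.add w f (wsum F W)
  | _, _ => ⟨0, 0, 0⟩

/-- The sum of the weights. -/
def wtot : List Aff → List ℕ → ℕ
  | _ :: F, w :: W => w + wtot F W
  | _, _ => 0

/-- A number `z` is a lower bound of a minimum of affine functions. -/
def LeMin (F : List Aff) (N : ℤ) (X T z : ℝ) : Prop := ∀ f ∈ F, z ≤ f.val N X T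

theorem wsum_le {F : List Aff} {N : ℤ} {X T z : ℝ} (W : List ℕ) (h : LeMin F N X T z) :
    wtot F W * z ≤ (wsum F W).val N X T := by
  induction F generalizing W with
  | nil => simp [wtot, wsum, Aff.val]
  | cons f F ih =>
    cases W with
    | nil => simp [wtot, wsum, Aff.val]
    | cons w W =>
      have h1 := h f (by simp)
      have h2 := ih (W := W) (fun g hg => h g (by simp [hg]))
      have hw : (0 : ℝ) ≤ w := Nat.cast_nonneg w
      simp only [wtot, wsum, Aff.add, Aff.val] at *
      push_cast
      nlinarith [mul_le_mul_of_nonneg_left h1 hw]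

/-- The minimum of `p X - α |X|` on an interval. -/
def min1 (p α x0 x1 : ℤ) : ℤ :=
  let m := min (p * x0 - α * |x0|) (p * x1 - α * |x1|)
  if x0 < 0 ∧ 0 < x1 then min m 0 else m

theorem min1_sound {p α x0 x1 : ℤ} {X : ℝ} (h0 : (x0 : ℝ) ≤ X) (h1 : X ≤ x1) :
    (min1 p α x0 x1 : ℝ) ≤ p * X - α * |X| := by
  -- affine on an interval
  have aff : ∀ {k a b y : ℝ}, a ≤ y → y ≤ b → min (k * a) (k * b) ≤ k * y := by
    intro k a b y ha hb
    rcases le_total 0 k with h | h
    · exact (min_le_left _ _).trans (mul_le_mul_of_nonneg_left ha h)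
    · exact (min_le_right _ _).trans (mul_le_mul_of_nonpos_left hb h)
  unfold min1
  simp only
  split_ifs with hc
  · obtain ⟨c1, c2⟩ := hc
    have c1' : (x0 : ℝ) < 0 := by exact_mod_cast c1
    have c2' : (0 : ℝ) < x1 := by exact_mod_cast c2
    push_cast
    rcases le_total 0 X with h | h
    · rw [abs_of_nonneg h, abs_of_pos c2']
      have := aff (k := (p : ℝ) - α) h h1
      rw [mul_zero] at this
      rcases le_total 0 (((p : ℝ) - α) * x1) with h4 | h4
      · rw [min_eq_left h4] at this
        exact (min_le_right _ _).trans (by linarith)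
      · rw [min_eq_right h4] at this
        exact ((min_le_left _ _).trans (min_le_right _ _)).trans (by linarith)
    · rw [abs_of_nonpos h, abs_of_neg c1']
      have := aff (k := (p : ℝ) + α) h0 h
      rw [mul_zero] at this
      rcases le_total 0 (((p : ℝ) + α) * x0) with h4 | h4
      · rw [min_eq_right h4] at this
        exact (min_le_right _ _).trans (by linarith)
      · rw [min_eq_left h4] at this
        exact ((min_le_left _ _).trans (min_le_left _ _)).trans (by linarith)
  · push_cast
    have hc' : 0 ≤ x0 ∨ x1 ≤ 0 := by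
      by_contra hcon
      push Not at hcon
      exact hc ⟨hcon.1, hcon.2⟩
    rcases hc' with h | h
    · have h' : (0 : ℝ) ≤ x0 := by exact_mod_cast h
      rw [abs_of_nonneg (h'.trans h0), abs_of_nonneg h', abs_of_nonneg (h'.trans (h0.trans h1))]
      have := aff (k := (p : ℝ) - α) h0 h1
      refine le_trans (le_of_eq ?_) (this.trans (by linarith))
      congr 1 <;> ring
    · have h' : (x1 : ℝ) ≤ 0 := by exact_mod_cast h
      rw [abs_of_nonpos (h1.trans h'), abs_of_nonpos h', abs_of_nonpos ((h0.trans h1).trans h')]
      have := aff (k := (p : ℝ) + α) h0 h1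
      refine le_trans (le_of_eq ?_) (this.trans (by linarith))
      congr 1 <;> ring

/-- `z` is at most the function `max over the pieces of min over the affine functions`. -/
def LeCb (C : List (List Aff)) (N : ℤ) (X T z : ℝ) : Prop := ∃ F ∈ C, LeMin F N X T z

/-- The constant of the affine majorant of one piece. -/
def majP (g1 g2 N x0 x1 t0 t1 : ℤ) (s : ℤ) (f : Aff) : ℤ :=
  -((min1 (s * g1) f.a x0 x1 + min1 (s * g2) f.b t0 t1 - f.c * N) / s)

theorem majP_sound {g1 g2 N x0 x1 t0 t1 : ℤ} {F : List Aff} {W : List ℕ}
    (hs : 0 < wtot F W) {X T z : ℝ} (h0 : (x0 : ℝ) ≤ X) (h1 : X ≤ x1)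
    (h2 : (t0 : ℝ) ≤ T) (h3 : T ≤ t1) (hz : LeMin F N X T z) :
    z ≤ g1 * X + g2 * T + majP g1 g2 N x0 x1 t0 t1 (wtot F W) (wsum F W) := by
  have e1 := wsum_le W hz
  have e2 := min1_sound (p := (wtot F W : ℤ) * g1) (α := (wsum F W).a) h0 h1
  have e3 := min1_sound (p := (wtot F W : ℤ) * g2) (α := (wsum F W).b) h2 h3
  have hs' : (0 : ℝ) < (wtot F W : ℤ) := by exact_mod_cast hs
  have hsi : (0 : ℤ) < (wtot F W : ℤ) := by exact_mod_cast hs
  unfold majP
  set A := min1 ((wtot F W : ℤ) * g1) (wsum F W).a x0 x1
  set D := min1 ((wtot F W : ℤ) * g2) (wsum F W).b t0 t1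
  set q := (A + D - (wsum F W).c * N) / (wtot F W : ℤ) with hq
  have hd : (wtot F W : ℤ) * q ≤ A + D - (wsum F W).c * N := by
    rw [hq, mul_comm]
    exact Int.ediv_mul_le _ hsi.ne'
  have hd' : ((wtot F W : ℤ) : ℝ) * q ≤ A + D - (wsum F W).c * N := by exact_mod_cast hd
  push_cast at e2 e3 hd' hs' ⊢
  unfold Aff.val at e1
  have : (0 : ℝ) ≤ wtot F W * (g1 * X + g2 * T + -q - z) := by linarith
  have := nonneg_of_mul_nonneg_right this hs'
  linarith

/-- The constant of the affine majorant of all pieces but the first one; the default is `d`. -/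
def majC (g1 g2 N x0 x1 t0 t1 : ℤ) : List (List Aff) → List (List ℕ) → ℤ → Option ℤ
  | F :: C, W :: w, d =>
    let s := wtot F W
    if 0 < s then
      let m := majP g1 g2 N x0 x1 t0 t1 s (wsum F W)
      majC g1 g2 N x0 x1 t0 t1 C w (if d < m then m else d)
    else none
  | [], _, d => some d
  | _ :: _, [], _ => none

theorem majC_le {g1 g2 N x0 x1 t0 t1 : ℤ} {C : List (List Aff)} {w : List (List ℕ)} {d h : ℤ}
    (hc : majC g1 g2 N x0 x1 t0 t1 C w d = some h) : d ≤ h := by
  induction C generalizing w d with
  | nil =>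
    simp only [majC, Option.some.injEq] at hc
    exact hc.le
  | cons F C ih =>
    cases w with
    | nil => simp [majC] at hc
    | cons W w =>
      simp only [majC] at hc
      split_ifs at hc with hs hd
      · exact hd.le.trans (ih hc)
      · exact ih hc

theorem majC_sound {g1 g2 N x0 x1 t0 t1 : ℤ} {C : List (List Aff)} {w : List (List ℕ)} {d h : ℤ}
    (hc : majC g1 g2 N x0 x1 t0 t1 C w d = some h) {X T z : ℝ} (h0 : (x0 : ℝ) ≤ X)
    (h1 : X ≤ x1) (h2 : (t0 : ℝ) ≤ T) (h3 : T ≤ t1) (hz : LeCb C N X T z) :
    z ≤ g1 * X + g2 * T + h := by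
  induction C generalizing w d with
  | nil =>
    obtain ⟨F, hF, -⟩ := hz
    simp at hF
  | cons F C ih =>
    cases w with
    | nil => simp [majC] at hc
    | cons W w =>
      simp only [majC] at hc
      by_cases hs : 0 < wtot F W
      · rw [if_pos hs] at hc
        obtain ⟨G, hG, hzG⟩ := hz
        rcases List.mem_cons.1 hG with rfl | hG
        · have k1 := majP_sound (g1 := g1) (g2 := g2) hs h0 h1 h2 h3 hzG
          have k2 := majC_le hc
          have k3 : majP g1 g2 N x0 x1 t0 t1 (wtot G W) (wsum G W) ≤ h := by
            refine le_trans ?_ k2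
            split_ifs with hd
            · exact le_rfl
            · exact not_lt.1 hd
          have k4 : (majP g1 g2 N x0 x1 t0 t1 (wtot G W) (wsum G W) : ℝ) ≤ h := by
            exact_mod_cast k3
          linarith
        · exact ih hc ⟨G, hG, hzG⟩
      · rw [if_neg hs] at hc
        exact absurd hc (by simp)

/-- The data of the affine majorant `g1 X + g2 T + h`: the slopes and the weights. -/
structure Maj where
  g1 : ℤ
  g2 : ℤ
  w : List (List ℕ)

/-! ### The problem -/

/-- An edge: the two coordinates of a vector and the function. -/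
structure Edge where
  u : List ℤ
  v : List ℤ
  C : List (List Aff)

/-- The problem: one of the lists of `q` bounds the sum of the functions on the edges. -/
structure Prob where
  N : ℤ
  q : List (List Poly)
  edges : List Edge
  cons : List Poly
  /-- upper bounds `(u · x)² + (v · x)² + .. ≤ r` -/
  ubs : List (List (List ℤ) × ℤ)

/-- `z` bounds the sum over the edges. -/
inductive Below (N : ℤ) : List Edge → List ℝ → ℝ → Prop
  | nil (xs : List ℝ) : Below N [] xs 0
  | cons {e : Edge} {E : List Edge} {xs : List ℝ} {y z : ℝ}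
      (h1 : LeCb e.C N (dot e.u xs) (dot e.v xs) y) (h2 : Below N E xs z) :
      Below N (e :: E) xs (y + z)

/-- A lower bound of all constants. -/
def dflt : ℤ := -1000000000000

/-- Subtract the affine majorants; `none` if a check fails. -/
def subE (N : ℤ) (B : List (ℤ × ℤ)) : List Edge → List Maj → Poly → Option Poly
  | e :: E, m :: M, p =>
    let r := rng e.u B
    let s := rng e.v B
    match majC m.g1 m.g2 N r.1 r.2 s.1 s.2 e.C m.w dflt with
    | some h =>
      subE N B E M ⟨p.P, axpy (-(N * m.g1)) e.u (axpy (-(N * m.g2)) e.v p.L), p.c - N * h⟩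
    | none => none
  | [], _, p => some p
  | _ :: _, [], _ => none

theorem subE_sound {N : ℤ} (hN : 0 ≤ N) {B : List (ℤ × ℤ)} {E : List Edge} {M : List Maj}
    {p p' : Poly} (h : subE N B E M p = some p') {xs : List ℝ} (hx : Mem B xs) {z : ℝ}
    (hz : Below N E xs z) : p'.val xs + N * z ≤ p.val xs := by
  induction E generalizing M p z with
  | nil =>
    cases hz
    simp only [subE, Option.some.injEq] at h
    rw [h]
    simp
  | cons e E ih =>
    cases M with
    | nil => simp [subE] at h
    | cons m M =>
      simp only [subE] at h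
      cases hc : majC m.g1 m.g2 N (rng e.u B).1 (rng e.u B).2 (rng e.v B).1 (rng e.v B).2 e.C m.w
        dflt with
      | none => rw [hc] at h; exact absurd h (by simp)
      | some k =>
        rw [hc] at h
        simp only at h
        cases hz with
        | cons h1 h2 =>
          rename_i y z
          obtain ⟨r1, r2⟩ := rng_sound e.u B xs hx
          obtain ⟨s1, s2⟩ := rng_sound e.v B xs hx
          have key := majC_sound hc r1 r2 s1 s2 h1
          have i := ih h h2
          have hN' : (0 : ℝ) ≤ N := by exact_mod_cast hN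
          have k2 := mul_le_mul_of_nonneg_left key hN'
          unfold Poly.val at i ⊢
          simp only [dot_axpy] at i
          push_cast at i
          linarith

/-- Subtract the constraints with multipliers. -/
def subC : List Poly → List ℕ → Poly → Poly
  | g :: G, k :: K, p => subC G K (if k = 0 then p else p.add (-(k : ℤ)) g)
  | _, _, p => p

theorem subC_sound {G : List Poly} {K : List ℕ} {p : Poly} {xs : List ℝ}
    (hg : ∀ g ∈ G, 0 ≤ g.val xs) : (subC G K p).val xs ≤ p.val xs := by
  induction G generalizing K p with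
  | nil => exact le_rfl
  | cons g G ih =>
    cases K with
    | nil => exact le_rfl
    | cons k K =>
      simp only [subC]
      refine (ih (fun g' h => hg g' (by simp [h]))).trans ?_
      split_ifs
      · exact le_rfl
      · rw [Poly.val_add]
        have h1 := hg g (by simp)
        have h2 : (0 : ℝ) ≤ k := Nat.cast_nonneg k
        push_cast
        nlinarith [mul_nonneg h2 h1]

/-- The certificate; the data of a leaf are packed into one number. -/
inductive Tree where
  | leaf (d : ℕ)
  | cut (k : ℕ)
  | split (i : ℕ) (l r : Tree)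
  | splitAt (i : ℕ) (m : ℤ) (l r : Tree)

/-- The base of the digits. -/
def bs : ℕ := 65536

/-- One digit per element. -/
def takeN {α : Type} : List α → ℕ → List ℕ × ℕ
  | [], n => ([], n)
  | _ :: F, n =>
    match takeN F (n / bs) with
    | (w, k) => (n % bs :: w, k)

/-- The weights of all pieces. -/
def takeW : List (List Aff) → ℕ → List (List ℕ) × ℕ
  | [], n => ([], n)
  | [_] :: C, n =>
    match takeW C n with
    | (w, k) => ([1] :: w, k)
  | F :: C, n =>
    match takeN F n with
    | (v, n') =>
      match takeW C n' with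
      | (w, k) => (v :: w, k)

/-- The majorants of all edges. -/
def takeM : List Edge → ℕ → List Maj × ℕ
  | [], n => ([], n)
  | e :: E, n =>
    match takeW e.C (n / bs / bs) with
    | (w, n') =>
      match takeM E n' with
      | (M, k) => (⟨(n % bs : ℕ) - 32768, (n / bs % bs : ℕ) - 32768, w⟩ :: M, k)

/-- The square of the distance of an interval from zero. -/
def dist2 (a b : ℤ) : ℤ := if 0 < a then a * a else if b < 0 then b * b else 0

theorem dist2_sound {a b : ℤ} {X : ℝ} (h0 : (a : ℝ) ≤ X) (h1 : X ≤ b) :
    (dist2 a b : ℝ) ≤ X ^ 2 := by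
  unfold dist2
  split_ifs with h h'
  · have : (0 : ℝ) < a := by exact_mod_cast h
    push_cast
    nlinarith
  · have : (b : ℝ) < 0 := by exact_mod_cast h'
    push_cast
    nlinarith
  · push_cast
    positivity

/-- The sum of the squares of linear forms. -/
def sqs : List (List ℤ) → List ℝ → ℝ
  | u :: U, xs => dot u xs ^ 2 + sqs U xs
  | [], _ => 0

/-- A lower bound of the sum of the squares on a box. -/
def sq2 : List (List ℤ) → List (ℤ × ℤ) → ℤ
  | u :: U, B =>
    let a := rng u B
    dist2 a.1 a.2 + sq2 U B
  | [], _ => 0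

theorem sq2_sound (U : List (List ℤ)) {B : List (ℤ × ℤ)} {xs : List ℝ} (h : Mem B xs) :
    (sq2 U B : ℝ) ≤ sqs U xs := by
  induction U with
  | nil => simp [sq2, sqs]
  | cons u U ih =>
    obtain ⟨a1, a2⟩ := rng_sound u B xs h
    have := dist2_sound a1 a2
    simp only [sq2, sqs]
    push_cast
    linarith

/-- Replace the upper end of the `i`-th interval. -/
def setHi : ℕ → ℤ → List (ℤ × ℤ) → List (ℤ × ℤ)
  | 0, m, b :: B => (b.1, m) :: B
  | i + 1, m, b :: B => b :: setHi i m B
  | _, _, [] => []

/-- Replace the lower end of the `i`-th interval. -/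
def setLo : ℕ → ℤ → List (ℤ × ℤ) → List (ℤ × ℤ)
  | 0, m, b :: B => (m, b.2) :: B
  | i + 1, m, b :: B => b :: setLo i m B
  | _, _, [] => []

theorem split_sound (i : ℕ) (m : ℤ) : ∀ (B : List (ℤ × ℤ)) (xs : List ℝ), Mem B xs →
    Mem (setHi i m B) xs ∨ Mem (setLo i m B) xs := by
  induction i with
  | zero =>
    intro B xs h
    cases B with
    | nil => exact Or.inl h
    | cons b B =>
      cases xs with
      | nil => exact h.elim
      | cons x xs =>
        obtain ⟨h1, h2, h3⟩ := h
        rcases le_total x m with hm | hm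
        · exact Or.inl ⟨h1, hm, h3⟩
        · exact Or.inr ⟨hm, h2, h3⟩
  | succ i ih =>
    intro B xs h
    cases B with
    | nil => exact Or.inl h
    | cons b B =>
      cases xs with
      | nil => exact h.elim
      | cons x xs =>
        obtain ⟨h1, h2, h3⟩ := h
        rcases ih B xs h3 with h4 | h4
        · exact Or.inl ⟨h1, h2, h4⟩
        · exact Or.inr ⟨h1, h2, h4⟩

/-- The check of one polynomial on a leaf. -/
def chkL (p : Prob) (B : List (ℤ × ℤ)) (M : List Maj) (K : List ℕ) (q : Poly) : Bool :=
  match subE p.N B p.edges M q with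
  | some q =>
    let r := subC p.cons K q
    pos B r.P r.L r.c
  | none => false

theorem chkL_sound {p : Prob} (hN : 0 ≤ p.N) {B : List (ℤ × ℤ)} {M : List Maj} {K : List ℕ}
    {q : Poly} (h : chkL p B M K q = true) {xs : List ℝ} (hx : Mem B xs)
    (hg : ∀ g ∈ p.cons, 0 ≤ g.val xs) {z : ℝ} (hz : Below p.N p.edges xs z) :
    p.N * z ≤ q.val xs := by
  unfold chkL at h
  cases hs : subE p.N B p.edges M q with
  | none => rw [hs] at h; exact absurd h (by simp)
  | some q' =>
    rw [hs] at h
    simp only at h
    have h1 := pos_sound B _ _ _ xs h hx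
    have h2 := subC_sound (K := K) (p := q') hg
    have h3 := subE_sound hN hs hx hz
    unfold Poly.val at h2 h3 ⊢
    linarith

/-- The check of all polynomials of a list. -/
def chkA (p : Prob) (B : List (ℤ × ℤ)) : List Poly → ℕ → Bool
  | [], _ => true
  | q :: Q, n =>
    match takeM p.edges n with
    | (M, n') =>
      match takeN p.cons n' with
      | (K, n'') => chkL p B M K q && chkA p B Q n''

theorem chkA_sound {p : Prob} (hN : 0 ≤ p.N) {B : List (ℤ × ℤ)} {Q : List Poly} {n : ℕ}
    (h : chkA p B Q n = true) {xs : List ℝ} (hx : Mem B xs)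
    (hg : ∀ g ∈ p.cons, 0 ≤ g.val xs) {z : ℝ} (hz : Below p.N p.edges xs z) :
    ∀ q ∈ Q, p.N * z ≤ q.val xs := by
  induction Q generalizing n with
  | nil => simp
  | cons q Q ih =>
    simp only [chkA, Bool.and_eq_true] at h
    intro q' hq'
    rcases List.mem_cons.1 hq' with rfl | hq'
    · exact chkL_sound hN h.1 hx hg hz
    · exact ih h.2 q' hq'

/-- The check of a cut. -/
def chkK (p : Prob) (B : List (ℤ × ℤ)) (k : ℕ) : Bool :=
  match p.ubs[k]? with
  | some (U, r) => decide (r < sq2 U B)
  | none => false

/-- The middle of the `i`-th interval. -/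
def mid : ℕ → List (ℤ × ℤ) → ℤ
  | 0, b :: _ => (b.1 + b.2) / 2
  | i + 1, _ :: B => mid i B
  | _, [] => 0

/-- The check of a certificate. -/
def check (p : Prob) : Tree → List (ℤ × ℤ) → Bool
  | .leaf d, B =>
    match p.q[d % bs]? with
    | some Q => chkA p B Q (d / bs)
    | none => false
  | .cut k, B => chkK p B k
  | .split i l r, B =>
    let m := mid i B
    check p l (setHi i m B) && check p r (setLo i m B)
  | .splitAt i m l r, B => check p l (setHi i m B) && check p r (setLo i m B)

/-- **Soundness**. -/
theorem check_sound {p : Prob} (hN : 0 ≤ p.N) {t : Tree} {B : List (ℤ × ℤ)}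
    (h : check p t B = true) {xs : List ℝ} (hx : Mem B xs) (hg : ∀ g ∈ p.cons, 0 ≤ g.val xs)
    (hu : ∀ c ∈ p.ubs, sqs c.1 xs ≤ c.2) {z : ℝ}
    (hz : Below p.N p.edges xs z) : ∃ Q ∈ p.q, ∀ q ∈ Q, p.N * z ≤ q.val xs := by
  induction t generalizing B with
  | leaf d =>
    simp only [check] at h
    cases hs : p.q[d % bs]? with
    | none => rw [hs] at h; exact absurd h (by simp)
    | some Q =>
      rw [hs] at h
      simp only at h
      exact ⟨Q, List.mem_of_getElem? hs, chkA_sound hN h hx hg hz⟩
  | cut k =>
    simp only [check, chkK] at h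
    cases hs : p.ubs[k]? with
    | none => rw [hs] at h; exact absurd h (by simp)
    | some c =>
      obtain ⟨U, r⟩ := c
      rw [hs] at h
      simp only [decide_eq_true_eq] at h
      have h1 := hu _ (List.mem_of_getElem? hs)
      have h2 := sq2_sound U hx
      have : (r : ℝ) < (sq2 U B : ℝ) := by exact_mod_cast h
      simp only at h1
      linarith
  | split i l r ihl ihr =>
    simp only [check, Bool.and_eq_true] at h
    rcases split_sound i (mid i B) B xs hx with h1 | h1
    · exact ihl h.1 h1
    · exact ihr h.2 h1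
  | splitAt i m l r ihl ihr =>
    simp only [check, Bool.and_eq_true] at h
    rcases split_sound i m B xs hx with h1 | h1
    · exact ihl h.1 h1
    · exact ihr h.2 h1

end Pool.Agent.Strip051.LC.Box
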