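import Pool.Agent.Strip051.LC.Box.FastL

/-! # The fast check of the cuts -/

namespace Pool.Agent.Strip051.LC.Box.Fast

open Pool.Agent.Strip051.LC.Box

/-- The packed data of a cut: number of forms, coefficients, constants, bound. -/
structure CuP where
  /-- the number of forms -/
  n : ℕ
  /-- the coefficients -/
  fm : List (ℕ × ℕ)
  /-- the constants -/
  kp : ℕ
  /-- the constants -/
  kn : ℕ
  /-- the bound -/
  r : ℕ
  deriving DecidableEq

/-- The sum of the squares of the distances to zero. -/
noncomputable def sqd (n : ℕ) : ℕ → ℕ → ℕ → ℕ → ℕ → ℕ :=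
  Nat.rec (motive := fun _ => ℕ → ℕ → ℕ → ℕ → ℕ → ℕ) (fun _ _ _ _ a => a)
    (fun _ ih P0 N0 P1 N1 a => (fun e : ℕ =>
      ih (Nat.div P0 65536) (Nat.div N0 65536) (Nat.div P1 65536) (Nat.div N1 65536)
        (Nat.add a (Nat.mul e e)))
      (Nat.add (Nat.sub (Nat.mod P0 65536) (Nat.mod N0 65536))
        (Nat.sub (Nat.mod N1 65536) (Nat.mod P1 65536)))) n

/-- The check of a cut. -/
noncomputable def cutK (CD : List CuP) : ℕ → List (ℕ × ℕ) → Bool :=
  List.rec (motive := fun _ => ℕ → List (ℕ × ℕ) → Bool) (fun _ _ => false)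
    (fun c _ ih k B => Nat.rec (motive := fun _ => Bool)
      (frm B c.fm (fun P0 N0 P1 N1 => Nat.ble (Nat.succ c.r) (sqd c.n P0 N0 P1 N1 0))
        c.kp c.kn c.kp c.kn)
      (fun j _ => ih j B) k) CD

/-- The coefficients of the variables. -/
def cols : ℕ → List (List ℤ) → List (List ℕ × List ℕ)
  | 0, _ => []
  | n + 1, us => (us.map fun u => (u.headD 0).toNat, us.map fun u => (-(u.headD 0)).toNat) ::
      cols n (us.map List.tail)

/-- The value of a form at the offsets. -/
def dotz : List ℤ → List ℤ → ℤ
  | a :: as, o :: os => a * o + dotz as os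
  | _, _ => 0

/-- The packed data of a cut. -/
def mkCut (O : List ℤ) (c : List (List ℤ) × ℤ) : CuP where
  n := c.1.length
  fm := (cols O.length c.1).map pf
  kp := pk 65536 (c.1.map fun u => (-(dotz u O)).toNat)
  kn := pk 65536 (c.1.map fun u => (dotz u O).toNat)
  r := c.2.toNat

/-- The data of a cut are good. -/
def okCut (O : List ℤ) (c : List (List ℤ) × ℤ) : Bool :=
  c.1.all (fun u => decide (u.length = O.length) && decide (dotz u O ≤ 16384) &&
    decide (-16384 ≤ dotz u O)) && (cols O.length c.1).all (okf c.1.length) &&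
    decide (O.length ≤ 8)

theorem sqd_spec {M : ℕ} (hM : M < 65536) {P0 N0 P1 N1 : List ℕ} {A : List ℝ}
    (h : Fb M P0 N0 P1 N1 A) (a : ℕ) :
    (sqd A.length (pk 65536 P0) (pk 65536 N0) (pk 65536 P1) (pk 65536 N1) a : ℝ) ≤
      a + (A.map fun x => x ^ 2).sum := by
  induction A generalizing P0 N0 P1 N1 a with
  | nil =>
    have e : sqd 0 (pk 65536 P0) (pk 65536 N0) (pk 65536 P1) (pk 65536 N1) a = a := rfl
    rw [List.length_nil, e]
    simp
  | cons x A ih =>
    obtain ⟨p0, n0, p1, n1, P0, N0, P1, N1, rfl, rfl, rfl, rfl, a1, a2, a3, a4, a5, a6, hF⟩ :=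
      h.uncons
    have e : sqd (A.length + 1) (pk 65536 (p0 :: P0)) (pk 65536 (n0 :: N0))
        (pk 65536 (p1 :: P1)) (pk 65536 (n1 :: N1)) a =
        sqd A.length (pk 65536 (p0 :: P0) / 65536) (pk 65536 (n0 :: N0) / 65536)
          (pk 65536 (p1 :: P1) / 65536) (pk 65536 (n1 :: N1) / 65536)
          (a + ((pk 65536 (p0 :: P0) % 65536 - pk 65536 (n0 :: N0) % 65536) +
            (pk 65536 (n1 :: N1) % 65536 - pk 65536 (p1 :: P1) % 65536)) *
            ((pk 65536 (p0 :: P0) % 65536 - pk 65536 (n0 :: N0) % 65536) +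
            (pk 65536 (n1 :: N1) % 65536 - pk 65536 (p1 :: P1) % 65536))) := rfl
    rw [List.length_cons, e, pk_div (a1.trans_lt hM), pk_div (a2.trans_lt hM),
      pk_div (a3.trans_lt hM), pk_div (a4.trans_lt hM), pk_mod (a1.trans_lt hM),
      pk_mod (a2.trans_lt hM), pk_mod (a3.trans_lt hM), pk_mod (a4.trans_lt hM)]
    refine (ih hF _).trans ?_
    have key : ((((p0 - n0) + (n1 - p1)) * ((p0 - n0) + (n1 - p1)) : ℕ) : ℝ) ≤ x ^ 2 := by
      rcases le_total n0 p0 with h1 | h1 <;> rcases le_total p1 n1 with h2 | h2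
      · have h1' : (n0 : ℝ) ≤ p0 := by exact_mod_cast h1
        have h2' : (p1 : ℝ) ≤ n1 := by exact_mod_cast h2
        have e1 : (p0 : ℝ) = n0 := by linarith
        have e2 : (p1 : ℝ) = n1 := by linarith
        have e1' : p0 = n0 := by exact_mod_cast e1
        have e2' : p1 = n1 := by exact_mod_cast e2
        rw [e1', e2']
        simp only [Nat.sub_self, Nat.add_zero, Nat.mul_zero, Nat.cast_zero]
        positivity
      · rw [Nat.sub_eq_zero_of_le h2, Nat.add_zero]
        push_cast [Nat.cast_sub h1]
        have h1' : (n0 : ℝ) ≤ p0 := by exact_mod_cast h1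
        nlinarith
      · rw [Nat.sub_eq_zero_of_le h1, Nat.zero_add]
        push_cast [Nat.cast_sub h2]
        have h2' : (p1 : ℝ) ≤ n1 := by exact_mod_cast h2
        nlinarith
      · rw [Nat.sub_eq_zero_of_le h1, Nat.sub_eq_zero_of_le h2]
        simp only [Nat.add_zero, Nat.mul_zero, Nat.cast_zero]
        positivity
    rw [List.map_cons, List.sum_cons]
    push_cast at key ⊢
    linarith

theorem ax_cols (x : ℝ) (us : List (List ℤ)) (a : List ℝ) :
    ax x (us.map fun u => (u.headD 0).toNat) (us.map fun u => (-(u.headD 0)).toNat) a =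
      List.zipWith (fun b u => b + x * ((List.headD u 0 : ℤ) : ℝ)) a us := by
  induction us generalizing a with
  | nil => simp [ax]
  | cons u us ih =>
    cases a with
    | nil => simp [ax]
    | cons b a =>
      simp only [List.map_cons, ax, ih, List.zipWith_cons_cons, List.cons.injEq, and_true]
      have e : (((u.headD 0).toNat : ℕ) : ℝ) - (((-(u.headD 0)).toNat : ℕ) : ℝ) =
          ((u.headD 0 : ℤ) : ℝ) := by
        have : (((u.headD 0).toNat : ℕ) : ℤ) - (((-(u.headD 0)).toNat : ℕ) : ℤ) = u.headD 0 := by
          omega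
        exact_mod_cast this
      rw [e]

theorem zip_step (x : ℝ) (xs : List ℝ) (us : List (List ℤ)) (a : List ℝ)
    (hu : ∀ u ∈ us, u.length = xs.length + 1) :
    List.zipWith (fun b u => b + dot u xs)
      (List.zipWith (fun b u => b + x * ((List.headD u 0 : ℤ) : ℝ)) a us) (us.map List.tail) =
      List.zipWith (fun b u => b + dot u (x :: xs)) a us := by
  induction us generalizing a with
  | nil => simp
  | cons u us ih =>
    cases a with
    | nil => simp
    | cons b a =>
      simp only [List.zipWith_cons_cons, List.map_cons]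
      rw [ih a fun v hv => hu v (by simp [hv])]
      congr 1
      have := hu u (by simp)
      cases u with
      | nil => simp at this
      | cons c u =>
        simp only [List.headD_cons, List.tail_cons, dot_cons]
        ring

theorem RF_cols : ∀ (xs : List ℝ) (us : List (List ℤ)) (a : List ℝ), a.length = us.length →
    (∀ u ∈ us, u.length = xs.length) →
    RF (cols xs.length us) xs a = List.zipWith (fun b u => b + dot u xs) a us := by
  intro xs
  induction xs with
  | nil =>
    intro us a ha hu
    have e : RF (cols ([] : List ℝ).length us) [] a = a := rfl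
    rw [e]
    clear e
    induction us generalizing a with
    | nil =>
      have : a = [] := List.length_eq_zero_iff.1 ha
      subst this
      rfl
    | cons u us ih =>
      cases a with
      | nil => simp at ha
      | cons b a =>
        rw [List.zipWith_cons_cons, ← ih a (by simpa using ha) fun v hv => hu v (by simp [hv])]
        have := hu u (by simp)
        have e : u = [] := List.length_eq_zero_iff.1 this
        subst e
        simp
  | cons x xs ih =>
    intro us a ha hu
    have e : RF (cols (x :: xs).length us) (x :: xs) a = RF (cols xs.length (us.map List.tail)) xs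
        (ax x (us.map fun u => (u.headD 0).toNat) (us.map fun u => (-(u.headD 0)).toNat) a) := rfl
    rw [e, ax_cols, ih, zip_step x xs us a fun u h => hu u h]
    · simp [ha]
    · intro u hu'
      obtain ⟨v, hv, rfl⟩ := List.mem_map.1 hu'
      have := hu v hv
      simp only [List.length_cons] at this
      simp [this]

theorem dot_unx : ∀ (u O : List ℤ) (xs : List ℝ), u.length = O.length → xs.length = O.length →
    dot u (unx O xs) = -(dotz u O : ℤ) + dot u xs := by
  intro u
  induction u with
  | nil => intro O xs h1 h2; simp [dotz]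
  | cons c u ih =>
    intro O xs h1 h2
    match O, xs, h1, h2 with
    | o :: O, x :: xs, h1, h2 =>
      simp only [unx, dot_cons, dotz]
      rw [ih O xs (by simpa using h1) (by simpa using h2)]
      push_cast
      ring

theorem Fb_const {us : List (List ℤ)} {O : List ℤ}
    (h : ∀ u ∈ us, dotz u O ≤ 16384 ∧ -16384 ≤ dotz u O) :
    Fb 16384 (us.map fun u => (-(dotz u O)).toNat) (us.map fun u => (dotz u O).toNat)
      (us.map fun u => (-(dotz u O)).toNat) (us.map fun u => (dotz u O).toNat)
      (us.map fun u => -((dotz u O : ℤ) : ℝ)) := by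
  induction us with
  | nil => trivial
  | cons u us ih =>
    obtain ⟨h1, h2⟩ := h u (by simp)
    have e : (((-(dotz u O)).toNat : ℕ) : ℝ) - (((dotz u O).toNat : ℕ) : ℝ) =
        -((dotz u O : ℤ) : ℝ) := by
      have : (((-(dotz u O)).toNat : ℕ) : ℤ) - (((dotz u O).toNat : ℕ) : ℤ) = -dotz u O := by
        omega
      exact_mod_cast this
    have a1 : (-(dotz u O)).toNat ≤ 16384 := by omega
    have a2 : (dotz u O).toNat ≤ 16384 := by omega
    exact ⟨a1, a2, a1, a2, e.le, e.ge, ih fun v hv => h v (by simp [hv])⟩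

theorem zip_unx {us : List (List ℤ)} {O : List ℤ} {xs : List ℝ} (hx : xs.length = O.length)
    (h : ∀ u ∈ us, u.length = O.length) :
    List.zipWith (fun b u => b + dot u xs) (us.map fun u => -((dotz u O : ℤ) : ℝ)) us =
      us.map fun u => dot u (unx O xs) := by
  induction us with
  | nil => rfl
  | cons u us ih =>
    rw [List.map_cons, List.zipWith_cons_cons, ih fun v hv => h v (by simp [hv]), List.map_cons,
      dot_unx u O xs (h u (by simp)) hx]

theorem sqs_eq (us : List (List ℤ)) (xs : List ℝ) :
    sqs us xs = ((us.map fun u => dot u xs).map fun x => x ^ 2).sum := by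
  induction us with
  | nil => rfl
  | cons u us ih =>
    simp only [sqs, ih, List.map_cons, List.sum_cons]

/-- **The fast check of the cuts is sound.** -/
theorem cutK_sound {U : List (List (List ℤ) × ℤ)} {O : List ℤ} {CD : List CuP}
    (hCD : CD = U.map (mkCut O)) (hok : U.all (okCut O) = true) {k : ℕ} {B : List (ℕ × ℕ)}
    (hn : B.length = O.length) (hB : ∀ b ∈ B, b.1 ≤ 2048 ∧ b.2 ≤ 2048)
    (h : cutK CD k B = true) {xs : List ℝ}
    (hu : ∀ c ∈ U, sqs c.1 (unx O xs) ≤ c.2) (hx : MemN B xs) : False := by
  subst hCD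
  induction U generalizing k with
  | nil => exact absurd h (by simp [cutK])
  | cons c U ih =>
    simp only [List.all_cons, Bool.and_eq_true] at hok
    cases k with
    | succ j =>
      exact ih hok.2 (k := j) (fun c hc => hu c (by simp [hc])) h
    | zero =>
      have h' : frm B ((cols O.length c.1).map pf) (fun P0 N0 P1 N1 =>
          Nat.ble (Nat.succ c.2.toNat) (sqd c.1.length P0 N0 P1 N1 0))
          (pk 65536 (c.1.map fun u => (-(dotz u O)).toNat))
          (pk 65536 (c.1.map fun u => (dotz u O).toNat))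
          (pk 65536 (c.1.map fun u => (-(dotz u O)).toNat))
          (pk 65536 (c.1.map fun u => (dotz u O).toNat)) = true := h
      obtain ⟨hc, -⟩ := hok
      simp only [okCut, Bool.and_eq_true, decide_eq_true_eq, List.all_eq_true] at hc
      obtain ⟨⟨h1, h2⟩, h3⟩ := hc
      have hxl : xs.length = O.length := hx.length.trans hn
      obtain ⟨P0, N0, P1, N1, b1, b2, b3⟩ := frm_specL hB hx
        (FS := cols O.length c.1) (n := c.1.length) (List.all_eq_true.2 h2)
        (M := 16384) (A := c.1.map fun u => -((dotz u O : ℤ) : ℝ)) (by simp)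
        (Fb_const fun u hu' => ⟨(h1 u hu').1.2, (h1 u hu').2⟩) h'
      have hM : 16384 + 4096 * B.length < 65536 := by omega
      rw [← hxl, RF_cols xs c.1 _ (by simp) (fun u hu' => ((h1 u hu').1.1).trans hxl.symm),
        zip_unx hxl fun u hu' => (h1 u hu').1.1] at b2
      have k1 := sqd_spec hM b2 0
      rw [List.length_map, ← sqs_eq] at k1
      have k2 := Nat.ble_eq.mp b1
      have k3 := hu c (by simp)
      have k4 : ((c.2.toNat : ℕ) : ℝ) < c.2.toNat + 1 := by linarith
      have k5 : ((Nat.succ c.2.toNat : ℕ) : ℝ) ≤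
          (sqd c.1.length (pk 65536 P0) (pk 65536 N0) (pk 65536 P1) (pk 65536 N1) 0 : ℝ) := by
        exact_mod_cast k2
      have k6 : (c.2 : ℝ) ≤ ((c.2.toNat : ℕ) : ℝ) := by
        have : c.2 ≤ ((c.2.toNat : ℕ) : ℤ) := Int.self_le_toNat c.2
        exact_mod_cast this
      push_cast at k1 k5
      linarith

end Pool.Agent.Strip051.LC.Box.Fast
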