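import Pool.Agent.Strip051.LC.Box.Engine

/-! # The fast form of the check: definitions

All numbers are natural numbers; vectors are packed into one number.  The functions are written with
recursors and the functions `Nat.add` etc. so that the kernel evaluates them quickly. -/

namespace Pool.Agent.Strip051.LC.Box.Fast

/-- The packed data of a problem. -/
structure FP where
  /-- the target -/
  q : ℕ
  /-- per variable: the positive and the negative parts of the coefficients of all forms -/
  fm : List (ℕ × ℕ)
  /-- the constants of the forms -/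
  kp : ℕ
  /-- the constants of the forms -/
  kn : ℕ
  /-- per edge: the polynomials of `X`, `T`, `1`, `65536` -/
  ed : List (ℕ × ℕ × ℕ × ℕ)
  /-- the constraints -/
  cs : List ℕ
  deriving DecidableEq

/-- `z + Σ digit * w` over the list; the digits have base `65536`. -/
noncomputable def zs (W : List ℕ) : (ℕ → ℕ → Bool) → ℕ → ℕ → Bool :=
  List.rec (motive := fun _ => (ℕ → ℕ → Bool) → ℕ → ℕ → Bool) (fun k d z => k d z)
    (fun w _ ih k d z => ih k (Nat.div d 65536) (Nat.add z (Nat.mul (Nat.mod d 65536) w))) W

/-- The same with base `256`. -/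
noncomputable def zw (W : List ℕ) : (ℕ → ℕ → Bool) → ℕ → ℕ → Bool :=
  List.rec (motive := fun _ => (ℕ → ℕ → Bool) → ℕ → ℕ → Bool) (fun k d z => k d z)
    (fun w _ ih k d z => ih k (Nat.div d 256) (Nat.add z (Nat.mul (Nat.mod d 256) w))) W

/-- `true` if every digit of `b` is at most the digit of `a`; `h` = half of the base in each digit. -/
noncomputable def dle (h a b : ℕ) : Bool := Nat.beq (Nat.land (Nat.sub (Nat.add a h) b) h) h

/-- The check of one piece: `W` is the packed weighted sum `(a, b, c, 1)`. -/
noncomputable def pc1 (XV TV RV W : ℕ) : Bool :=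
  Bool.rec (motive := fun _ => Bool) false
    (dle 123665200736552267036955164474794893567716106411856646466065573863787008748911742500930773837742836359323028663637210768190467196168531262328877407334845256874104247751278592
      (Nat.mul (Nat.div W 6277101735386680763835789423207666416102355444464034512896) RV)
      (Nat.add (Nat.mul (Nat.mod W 18446744073709551616) XV)
        (Nat.add (Nat.mul (Nat.mod (Nat.div W 18446744073709551616) 18446744073709551616) TV)
          (Nat.mul (Nat.mod (Nat.div W 340282366920938463463374607431768211456) 18446744073709551616)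
            3432398830065304857677021112960371972625431458477258852170654164875557533246112698636386790722120242439569755655759696560693416849356120532890041178587660544))))
    (Nat.ble 6277101735386680763835789423207666416102355444464034512896 W)

/-- The check of all pieces. -/
noncomputable def pcs (XV TV RV : ℕ) (C : List (List ℕ)) : (ℕ → Bool) → ℕ → Bool :=
  List.rec (motive := fun _ => (ℕ → Bool) → ℕ → Bool) (fun k d => k d)
    (fun F _ ih k d => zw F (fun d W =>
      Bool.rec (motive := fun _ => Bool) false (ih k d) (pc1 XV TV RV W)) d 0) C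

/-- `x` if `st = 0`, otherwise `0`. -/
noncomputable def iz (st x : ℕ) : ℕ := Nat.rec (motive := fun _ => ℕ) x (fun _ _ => 0) st

/-- The check of one edge. -/
noncomputable def edge (C : List (List ℕ)) (p0 n0 p1 n1 q0 m0 q1 m1 g1 g2 hh : ℕ) (k : ℕ → Bool)
    (d : ℕ) : Bool :=
  (fun xa ta ra sa sx st : ℕ =>
    pcs
      (Nat.mul (Nat.add xa (Nat.mul 18446744073709551616
        (Nat.add (Nat.add (Nat.sub p1 n1) (Nat.sub n1 p1))
          (Nat.mul 18446744073709551616 (iz sx xa)))))
        39402006196394479212279040100143613805079739270465446667954570505981108452261046400837473921301017996251092024819713)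
      (Nat.mul (Nat.add ta (Nat.mul 6277101735386680763835789423207666416102355444464034512896
        (Nat.add (Nat.add (Nat.sub q1 m1) (Nat.sub m1 q1))
          (Nat.mul 6277101735386680763835789423207666416102355444464034512896 (iz st ta)))))
        340282366920938463481821351505477763073)
      (Nat.add (Nat.mul hh
          13407807929942597100300863722501453018068091634676792391291617831545146614242627729048385901258282197029569358030311314690208659567797345831601723353858049)
        (Nat.add
          (Nat.mul (Nat.add ra (Nat.mul 18446744073709551616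
            (Nat.add (Nat.add (Nat.mul g1 (Nat.sub p1 n1))
              (Nat.mul (Nat.sub 65536 g1) (Nat.sub n1 p1)))
              (Nat.mul 18446744073709551616 (iz sx ra)))))
            39402006196394479212279040100143613805079739270465446667954570505981108452261046400837473921301017996251092024819713)
          (Nat.mul (Nat.add sa (Nat.mul 6277101735386680763835789423207666416102355444464034512896
            (Nat.add (Nat.add (Nat.mul g2 (Nat.sub q1 m1))
              (Nat.mul (Nat.sub 65536 g2) (Nat.sub m1 q1)))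
              (Nat.mul 6277101735386680763835789423207666416102355444464034512896 (iz st sa)))))
            340282366920938463481821351505477763073)))
      C k d)
    (Nat.add (Nat.sub p0 n0) (Nat.sub n0 p0))
    (Nat.add (Nat.sub q0 m0) (Nat.sub m0 q0))
    (Nat.add (Nat.mul g1 (Nat.sub p0 n0)) (Nat.mul (Nat.sub 65536 g1) (Nat.sub n0 p0)))
    (Nat.add (Nat.mul g2 (Nat.sub q0 m0)) (Nat.mul (Nat.sub 65536 g2) (Nat.sub m0 q0)))
    (Nat.mul (Nat.sub n0 p0) (Nat.sub p1 n1))
    (Nat.mul (Nat.sub m0 q0) (Nat.sub q1 m1))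

/-- The ranges of all forms. -/
noncomputable def frm (B : List (ℕ × ℕ)) :
    List (ℕ × ℕ) → (ℕ → ℕ → ℕ → ℕ → Bool) → ℕ → ℕ → ℕ → ℕ → Bool :=
  List.rec (motive := fun _ => List (ℕ × ℕ) → (ℕ → ℕ → ℕ → ℕ → Bool) → ℕ → ℕ → ℕ → ℕ → Bool)
    (fun _ k P0 N0 P1 N1 => k P0 N0 P1 N1)
    (fun b _ ih fm k P0 N0 P1 N1 => List.rec (motive := fun _ => Bool) false
      (fun f fm' _ => ih fm' k (Nat.add P0 (Nat.mul b.1 f.1)) (Nat.add N0 (Nat.mul b.2 f.2))
        (Nat.add P1 (Nat.mul b.2 f.1)) (Nat.add N1 (Nat.mul b.1 f.2))) fm) B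

/-- The checks of all edges. -/
noncomputable def eds (C : List (List ℕ)) (E : List (ℕ × ℕ × ℕ × ℕ)) :
    (ℕ → ℕ → Bool) → ℕ → ℕ → ℕ → ℕ → ℕ → ℕ → Bool :=
  List.rec (motive := fun _ => (ℕ → ℕ → Bool) → ℕ → ℕ → ℕ → ℕ → ℕ → ℕ → Bool)
    (fun k _ _ _ _ d z => k d z)
    (fun e _ ih k P0 N0 P1 N1 d z =>
      (fun g1 g2 h0 h1 : ℕ =>
        edge C (Nat.mod P0 65536) (Nat.mod N0 65536) (Nat.mod P1 65536) (Nat.mod N1 65536)
          (Nat.mod (Nat.div P0 65536) 65536) (Nat.mod (Nat.div N0 65536) 65536)
          (Nat.mod (Nat.div P1 65536) 65536) (Nat.mod (Nat.div N1 65536) 65536)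
          g1 g2 (Nat.add h0 (Nat.mul 65536 h1))
          (fun d => ih k (Nat.div P0 4294967296) (Nat.div N0 4294967296)
            (Nat.div P1 4294967296) (Nat.div N1 4294967296) d
            (Nat.add (Nat.add z (Nat.mul g1 e.1)) (Nat.add (Nat.mul g2 e.2.1)
              (Nat.add (Nat.mul h0 e.2.2.1) (Nat.mul h1 e.2.2.2)))))
          (Nat.div d 18446744073709551616))
        (Nat.mod d 65536) (Nat.mod (Nat.div d 65536) 65536)
        (Nat.mod (Nat.div d 4294967296) 65536) (Nat.mod (Nat.div d 281474976710656) 65536)) E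

/-- The sum over the earlier variables. -/
noncomputable def dt (xs : List ℕ) : (ℕ → List ℕ → ℕ → Bool) → ℕ → ℕ → ℕ → Bool :=
  List.rec (motive := fun _ => (ℕ → List ℕ → ℕ → Bool) → ℕ → ℕ → ℕ → Bool)
    (fun k _ Z a => k a [] Z)
    (fun x _ ih k T Z a => ih (fun a l Z => k a (Nat.mul x T :: l) Z) T
      (Nat.div Z 18446744073709551616)
      (Nat.add a (Nat.mul (Nat.mod Z 18446744073709551616) x))) xs

/-- The values of the polynomial at all vertices; `cr` is four times the correction for the
variables in which the polynomial is convex. -/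
noncomputable def ev (B : List (ℕ × ℕ)) :
    (ℕ → ℕ → ℕ → List ℕ → ℕ → ℕ → ℕ → ℕ → Bool) → ℕ → ℕ → Bool :=
  List.rec (motive := fun _ => (ℕ → ℕ → ℕ → List ℕ → ℕ → ℕ → ℕ → ℕ → Bool) → ℕ → ℕ → Bool)
    (fun k _ Z => k 1 79228162514264337593543950336 0 [] 0 0 0 Z)
    (fun b _ ih k β Z => ih (fun one S sx xs V V1 cr Z =>
      (fun l m T U O UU : ℕ =>
        dt xs (fun a xs' Z' => k (Nat.mul one T) (Nat.mul S S) (Nat.add (Nat.mul sx T) O)
          (O :: xs')
          (Nat.add (Nat.mul V T) (Nat.add (Nat.mul (Nat.add (Nat.mul l one) a) U)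
            (Nat.mul m UU)))
          (Nat.add (Nat.mul V1 T) (Nat.add (Nat.mul (Nat.add one sx) U) UU))
          (Nat.add cr (Nat.mul (Nat.sub m β)
            (Nat.mul (Nat.sub b.2 b.1) (Nat.sub b.2 b.1)))) Z')
          T (Nat.div Z 340282366920938463463374607431768211456) 0)
        (Nat.mod Z 18446744073709551616) (Nat.mod (Nat.div Z 18446744073709551616) 18446744073709551616)
        (Nat.add S 1) (Nat.add b.1 (Nat.mul b.2 S))
        (Nat.mul one (Nat.add b.1 (Nat.mul b.2 S)))
        (Nat.mul one (Nat.add (Nat.mul b.1 b.1) (Nat.mul (Nat.mul b.2 b.2) S)))) β Z) B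

/-- The check of the polynomial on the box. -/
noncomputable def fin (B : List (ℕ × ℕ)) (Z : ℕ) : Bool :=
  ev B (fun one S _ _ V V1 cr Z' =>
    (fun Vp Vm : ℕ =>
      Bool.rec (motive := fun _ => Bool) false
        (Bool.rec (motive := fun _ => Bool) false
          (dle (Nat.mul 39614081257132168796771975168 one) Vp Vm)
          (Nat.ble (Nat.add (Nat.mul 2 Vm) 1) S))
        (Nat.ble (Nat.add (Nat.mul 2 Vp) 1) S))
      (Nat.add V (Nat.mul Z' one))
      (Nat.add (Nat.mul (Nat.mod Z 18446744073709551616) (Nat.add V1 one))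
        (Nat.mul (Nat.div (Nat.add cr 3) 4) one)))
    (Nat.mod Z 18446744073709551616) (Nat.div Z 18446744073709551616)

/-- The check of a leaf. -/
noncomputable def leaf (p : FP) (C : List (List ℕ)) (B : List (ℕ × ℕ)) (d : ℕ) : Bool :=
  frm B p.fm (fun P0 N0 P1 N1 =>
    eds C p.ed (fun d z => zs p.cs (fun _ z => fin B z) d z) P0 N0 P1 N1 d p.q)
    p.kp p.kn p.kp p.kn

/-- Replace a number by its value. -/
noncomputable def frc (n : ℕ) (k : ℕ → Bool) : Bool :=
  Nat.rec (motive := fun _ => Bool) (k 0) (fun m _ => k (Nat.succ m)) n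

/-- The two halves of a box. -/
noncomputable def spl (i : ℕ) :
    List (ℕ × ℕ) → (List (ℕ × ℕ) → List (ℕ × ℕ) → Bool) → Bool :=
  Nat.rec (motive := fun _ => List (ℕ × ℕ) → (List (ℕ × ℕ) → List (ℕ × ℕ) → Bool) → Bool)
    (fun B k => List.rec (motive := fun _ => Bool) false
      (fun b B' _ => frc b.1 (fun lo => frc b.2 (fun hi =>
        frc (Nat.div (Nat.add lo hi) 2) (fun m => k ((lo, m) :: B') ((m, hi) :: B')))))
      B)
    (fun _ ih B k => List.rec (motive := fun _ => Bool) false
      (fun b B' _ => ih B' (fun l r => k (b :: l) (b :: r))) B) i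

/-- The check of a certificate; `cutf` checks the cuts.  The lowest digit of a leaf is not used: it
should be different for all leaves, since the kernel hashes a number by its lowest 64 bits. -/
noncomputable def chk (p : FP) (C : List (List ℕ)) (cutf : ℕ → List (ℕ × ℕ) → Bool) (t : Tree) :
    List (ℕ × ℕ) → Bool :=
  Tree.rec (motive := fun _ => List (ℕ × ℕ) → Bool) (fun d B => leaf p C B (Nat.div d 65536))
    (fun k B => cutf k B)
    (fun i _ _ h1 h2 B => spl i B (fun l r => Bool.rec (motive := fun _ => Bool) false (h2 r) (h1 l)))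
    (fun _ _ _ _ _ _ _ => false) t

end Pool.Agent.Strip051.LC.Box.Fast
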