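import Pool.Agent.Strip051.LC.Box.FastPack

/-! # The check of an edge -/

namespace Pool.Agent.Strip051.LC.Box.Fast

open Pool.Agent.Strip051.LC.Box

/-- The digits of an affine function. -/
def pa (f : Aff) : ℕ :=
  (f.a + 32768).toNat + 18446744073709551616 * ((f.b + 32768).toNat +
    18446744073709551616 * ((f.c + 32768).toNat + 18446744073709551616 * 1))

/-- The packed pieces. -/
def packC (C : List (List Aff)) : List (List ℕ) := C.map fun F => F.map pa

/-- The coefficients are small. -/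
def okA (f : Aff) : Bool :=
  decide (-32768 ≤ f.a) && decide (f.a ≤ 32767) && decide (-32768 ≤ f.b) &&
    decide (f.b ≤ 32767) && decide (-32768 ≤ f.c) && decide (f.c ≤ 32767)

/-- The pieces are small. -/
def okC (C : List (List Aff)) : Bool := C.all fun F => decide (F.length ≤ 64) && F.all okA

/-- The weights of a piece. -/
def wsl : List Aff → ℕ → List ℕ
  | [], _ => []
  | _ :: F, d => d % 256 :: wsl F (d / 256)

/-- The packed sum of a piece. -/
def sp : List Aff → List ℕ → ℕ
  | f :: F, w :: W => w * pa f + sp F W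
  | _, _ => 0

/-- The sums of the digits. -/
def sm (g : Aff → ℤ) : List Aff → List ℕ → ℕ
  | f :: F, w :: W => w * (g f + 32768).toNat + sm g F W
  | _, _ => 0

theorem zw_spec (F : List Aff) (k : ℕ → ℕ → Bool) (d z : ℕ) :
    zw (F.map pa) k d z = k (d / 256 ^ F.length) (z + sp F (wsl F d)) := by
  induction F generalizing d z with
  | nil => simp [zw_zero, sp, wsl]
  | cons f F ih =>
    rw [List.map_cons, zw_cons, ih]
    simp only [wsl, sp, List.length_cons]
    rw [Nat.div_div_eq_div_mul, ← pow_succ']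
    congr 1
    ring

theorem sp_eq (F : List Aff) (W : List ℕ) :
    sp F W = sm Aff.a F W + 18446744073709551616 * (sm Aff.b F W +
      18446744073709551616 * (sm Aff.c F W + 18446744073709551616 * wtot F W)) := by
  induction F generalizing W with
  | nil => simp [sp, sm, wtot]
  | cons f F ih =>
    cases W with
    | nil => simp [sp, sm, wtot]
    | cons w W =>
      simp only [sp, sm, wtot, ih, pa]
      ring

theorem wsum_eq {F : List Aff} (hF : F.all okA = true) (W : List ℕ) :
    (wsum F W).a = sm Aff.a F W - 32768 * (wtot F W : ℤ) ∧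
      (wsum F W).b = sm Aff.b F W - 32768 * (wtot F W : ℤ) ∧
      (wsum F W).c = sm Aff.c F W - 32768 * (wtot F W : ℤ) := by
  induction F generalizing W with
  | nil => simp [sm, wtot, wsum]
  | cons f F ih =>
    cases W with
    | nil => simp [sm, wtot, wsum]
    | cons w W =>
      simp only [List.all_cons, Bool.and_eq_true] at hF
      obtain ⟨h1, h2⟩ := hF
      obtain ⟨i1, i2, i3⟩ := ih h2 W
      simp only [okA, Bool.and_eq_true, decide_eq_true_eq] at h1
      obtain ⟨⟨⟨⟨⟨a1, -⟩, b1⟩, -⟩, c1⟩, -⟩ := h1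
      have ea : (((f.a + 32768).toNat : ℕ) : ℤ) = f.a + 32768 := Int.toNat_of_nonneg (by omega)
      have eb : (((f.b + 32768).toNat : ℕ) : ℤ) = f.b + 32768 := Int.toNat_of_nonneg (by omega)
      have ec : (((f.c + 32768).toNat : ℕ) : ℤ) = f.c + 32768 := Int.toNat_of_nonneg (by omega)
      simp only [wsum, Aff.add, sm, wtot, i1, i2, i3]
      push_cast [ea, eb, ec]
      refine ⟨?_, ?_, ?_⟩ <;> ring

theorem sm_le {g : Aff → ℤ} {F : List Aff} (hF : ∀ f ∈ F, g f ≤ 32767) (d : ℕ) :
    sm g F (wsl F d) ≤ F.length * (255 * 65535) := by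
  induction F generalizing d with
  | nil => simp [sm]
  | cons f F ih =>
    have h1 := ih (fun f h => hF f (by simp [h])) (d / 256)
    have h2 := hF f (by simp)
    have h3 : d % 256 ≤ 255 := by omega
    have h4 : (g f + 32768).toNat ≤ 65535 := by omega
    simp only [wsl, sm, List.length_cons]
    have := Nat.mul_le_mul h3 h4
    linarith

theorem wtot_le (F : List Aff) (d : ℕ) : wtot F (wsl F d) ≤ F.length * 255 := by
  induction F generalizing d with
  | nil => simp [wtot]
  | cons f F ih =>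
    have h1 := ih (d / 256)
    have h3 : d % 256 ≤ 255 := by omega
    simp only [wsl, wtot, List.length_cons]
    linarith

/-- A corner: `|x|`, `|t|` and the two products. -/
structure Cor where
  x : ℕ
  t : ℕ
  r : ℕ
  s : ℕ

/-- The corners. -/
def cors (xa xb xc ta tb tc ra rb rc sa sb sc : ℕ) : List Cor :=
  [⟨xa, ta, ra, sa⟩, ⟨xb, ta, rb, sa⟩, ⟨xc, ta, rc, sa⟩, ⟨xa, tb, ra, sb⟩, ⟨xb, tb, rb, sb⟩,
    ⟨xc, tb, rc, sb⟩, ⟨xa, tc, ra, sc⟩, ⟨xb, tc, rb, sc⟩, ⟨xc, tc, rc, sc⟩]

theorem pcs_nil (XV TV RV : ℕ) (k : ℕ → Bool) (d : ℕ) : pcs XV TV RV [] k d = k d := rfl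

theorem pcs_cons (XV TV RV : ℕ) (F : List ℕ) (C : List (List ℕ)) (k : ℕ → Bool) (d : ℕ) :
    pcs XV TV RV (F :: C) k d = zw F (fun d W =>
      Bool.rec (motive := fun _ => Bool) false (pcs XV TV RV C k d) (pc1 XV TV RV W)) d 0 := rfl

theorem recb {a b : Bool} (h : Bool.rec (motive := fun _ => Bool) false a b = true) :
    a = true ∧ b = true := by
  cases b with
  | false => exact absurd h (by simp)
  | true => exact ⟨h, rfl⟩

/-- The condition of a piece: the weights `W`. -/
def Pc (I : List Cor) (hh : ℕ) (F : List Aff) (W : List ℕ) : Prop :=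
  0 < wtot F W ∧ ∀ c ∈ I, sm Aff.a F W * c.x + (sm Aff.b F W * c.t + sm Aff.c F W * 256) ≤
    wtot F W * (hh + (c.r + c.s))

theorem pc1_spec {I : List Cor} {XV TV RV hh : ℕ}
    (h1 : XV = pk 18446744073709551616 (I.map Cor.x))
    (h2 : TV = pk 18446744073709551616 (I.map Cor.t))
    (h3 : RV = pk 18446744073709551616 (I.map fun c => hh + (c.r + c.s)))
    (h9 : pk 18446744073709551616 (I.map fun _ => 1) =
      1 + 18446744073709551616 * (1 + 18446744073709551616 * (1 + 18446744073709551616 *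
      (1 + 18446744073709551616 * (1 + 18446744073709551616 * (1 + 18446744073709551616 *
      (1 + 18446744073709551616 * (1 + 18446744073709551616 * 1))))))))
    (hx : ∀ c ∈ I, c.x < 65536) (ht : ∀ c ∈ I, c.t < 65536)
    (hr : ∀ c ∈ I, hh + (c.r + c.s) < 17179869184)
    {F : List Aff} (hF : F.all okA = true) (hl : F.length ≤ 64) {d : ℕ}
    (h : pc1 XV TV RV (sp F (wsl F d)) = true) : Pc I hh F (wsl F d) := by
  have hF' : ∀ f ∈ F, okA f = true := List.all_eq_true.1 hF
  have hok : ∀ f ∈ F, f.a ≤ 32767 ∧ f.b ≤ 32767 ∧ f.c ≤ 32767 := by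
    intro f hf
    have := hF' f hf
    simp only [okA, Bool.and_eq_true, decide_eq_true_eq] at this
    exact ⟨this.1.1.1.1.2, this.1.1.2, this.2⟩
  have a1 := sm_le (g := Aff.a) (fun f hf => (hok f hf).1) d
  have a2 := sm_le (g := Aff.b) (fun f hf => (hok f hf).2.1) d
  have a3 := sm_le (g := Aff.c) (fun f hf => (hok f hf).2.2) d
  have a4 := wtot_le F d
  have l1 : F.length * (255 * 65535) ≤ 64 * (255 * 65535) := Nat.mul_le_mul_right _ hl
  have l2 : F.length * 255 ≤ 64 * 255 := Nat.mul_le_mul_right _ hl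
  rw [sp_eq] at h
  obtain ⟨A, hA⟩ : ∃ A, A = sm Aff.a F (wsl F d) := ⟨_, rfl⟩
  obtain ⟨T, hT⟩ : ∃ T, T = sm Aff.b F (wsl F d) := ⟨_, rfl⟩
  obtain ⟨G, hG⟩ : ∃ G, G = sm Aff.c F (wsl F d) := ⟨_, rfl⟩
  obtain ⟨s, hs⟩ : ∃ s, s = wtot F (wsl F d) := ⟨_, rfl⟩
  unfold Pc
  rw [← hA, ← hT, ← hG, ← hs] at h ⊢
  rw [← hA] at a1
  rw [← hT] at a2
  rw [← hG] at a3
  rw [← hs] at a4
  obtain ⟨W, hW⟩ : ∃ W, W = A + 18446744073709551616 * (T + 18446744073709551616 *
    (G + 18446744073709551616 * s)) := ⟨_, rfl⟩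
  rw [← hW] at h
  obtain ⟨g1, g2⟩ := recb h
  have k1 : W / 6277101735386680763835789423207666416102355444464034512896 = s := by omega
  have k2 : W % 18446744073709551616 = A := by omega
  have k3 : W / 18446744073709551616 % 18446744073709551616 = T := by omega
  have k4 : W / 340282366920938463463374607431768211456 % 18446744073709551616 = G := by omega
  have g2' : 6277101735386680763835789423207666416102355444464034512896 ≤ W := Nat.ble_eq.mp g2
  refine ⟨by omega, ?_⟩
  have g3 : dle (9223372036854775808 * (1 + 18446744073709551616 * (1 + 18446744073709551616 *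
      (1 + 18446744073709551616 * (1 + 18446744073709551616 * (1 + 18446744073709551616 *
      (1 + 18446744073709551616 * (1 + 18446744073709551616 * (1 + 18446744073709551616 *
      1)))))))))
      (W / 6277101735386680763835789423207666416102355444464034512896 * RV)
      (W % 18446744073709551616 * XV + (W / 18446744073709551616 % 18446744073709551616 * TV +
        W / 340282366920938463463374607431768211456 % 18446744073709551616 *
          (256 * (1 + 18446744073709551616 * (1 + 18446744073709551616 *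
      (1 + 18446744073709551616 * (1 + 18446744073709551616 * (1 + 18446744073709551616 *
      (1 + 18446744073709551616 * (1 + 18446744073709551616 * (1 + 18446744073709551616 *
      1)))))))))))  = true := g1
  rw [k1, k2, k3, k4, ← h9, h1, h2, h3] at g3
  simp only [← pk_map_mul, ← pk_map_add] at g3
  have b1 : A ≤ 1069531200 := by omega
  have b2 : T ≤ 1069531200 := by omega
  have b3 : G ≤ 1069531200 := by omega
  have b4 : s ≤ 16320 := by omega
  intro c hc
  have key := dle_sound (v := 63) (I := I) (f := fun c => s * (hh + (c.r + c.s)))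
    (g := fun c => A * c.x + (T * c.t + G * (256 * 1))) ?_ ?_ ?_ c hc
  · simpa using key
  · intro c hc
    calc s * (hh + (c.r + c.s)) ≤ 16320 * 17179869184 :=
        Nat.mul_le_mul b4 (hr c hc).le
      _ < 2 ^ 63 := by norm_num
  · intro c hc
    calc A * c.x + (T * c.t + G * (256 * 1)) ≤
        1069531200 * 65536 + (1069531200 * 65536 + 1069531200 * (256 * 1)) :=
        Nat.add_le_add (Nat.mul_le_mul b1 (hx c hc).le)
          (Nat.add_le_add (Nat.mul_le_mul b2 (ht c hc).le) (Nat.mul_le_mul b3 le_rfl))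
      _ < 2 ^ 63 := by norm_num
  · rw [pk_map_mul _ 9223372036854775808] at g3
    exact g3

theorem pcs_spec {I : List Cor} {XV TV RV hh : ℕ}
    (h1 : XV = pk 18446744073709551616 (I.map Cor.x))
    (h2 : TV = pk 18446744073709551616 (I.map Cor.t))
    (h3 : RV = pk 18446744073709551616 (I.map fun c => hh + (c.r + c.s)))
    (h9 : pk 18446744073709551616 (I.map fun _ => 1) =
      1 + 18446744073709551616 * (1 + 18446744073709551616 * (1 + 18446744073709551616 *
      (1 + 18446744073709551616 * (1 + 18446744073709551616 * (1 + 18446744073709551616 *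
      (1 + 18446744073709551616 * (1 + 18446744073709551616 * 1))))))))
    (hx : ∀ c ∈ I, c.x < 65536) (ht : ∀ c ∈ I, c.t < 65536)
    (hr : ∀ c ∈ I, hh + (c.r + c.s) < 17179869184)
    {C : List (List Aff)} (hC : okC C = true) {k : ℕ → Bool} {d : ℕ}
    (h : pcs XV TV RV (packC C) k d = true) :
    (∀ F ∈ C, ∃ W, Pc I hh F W) ∧ ∃ d', k d' = true := by
  induction C generalizing d with
  | nil => exact ⟨by simp, d, h⟩
  | cons F C ih =>
    simp only [okC, List.all_cons, Bool.and_eq_true, decide_eq_true_eq] at hC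
    obtain ⟨⟨c1, c2⟩, c3⟩ := hC
    have e : packC (F :: C) = F.map pa :: packC C := rfl
    rw [e, pcs_cons, zw_spec] at h
    obtain ⟨g1, g2⟩ := recb h
    rw [Nat.zero_add] at g2
    have p := pc1_spec h1 h2 h3 h9 hx ht hr c2 c1 g2
    obtain ⟨q1, q2⟩ := ih c3 g1
    refine ⟨fun G hG => ?_, q2⟩
    rcases List.mem_cons.1 hG with rfl | hG
    · exact ⟨_, p⟩
    · exact q1 G hG

theorem iz_zero (x : ℕ) : iz 0 x = x := rfl

theorem iz_pos {st : ℕ} (h : 0 < st) (x : ℕ) : iz st x = 0 := by
  cases st with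
  | zero => exact absurd h (lt_irrefl 0)
  | succ n => rfl

/-- The minimum of a piecewise linear function on an interval is attained at a candidate. -/
theorem cand {p0 n0 p1 n1 g A s : ℕ} (hg : g ≤ 65536) {X : ℝ} (h0 : (p0 : ℝ) - n0 ≤ X)
    (h1 : X ≤ (p1 : ℝ) - n1) :
    ((s * (g * (p0 - n0) + (65536 - g) * (n0 - p0) : ℕ) : ℝ) - A * ((p0 - n0) + (n0 - p0) : ℕ) ≤
        s * (g - 32768) * X - (A - 32768 * s) * |X|) ∨
      ((s * (g * (p1 - n1) + (65536 - g) * (n1 - p1) : ℕ) : ℝ) -
        A * ((p1 - n1) + (n1 - p1) : ℕ) ≤ s * (g - 32768) * X - (A - 32768 * s) * |X|) ∨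
      ((s * (iz ((n0 - p0) * (p1 - n1)) (g * (p0 - n0) + (65536 - g) * (n0 - p0)) : ℕ) : ℝ) -
        A * (iz ((n0 - p0) * (p1 - n1)) ((p0 - n0) + (n0 - p0)) : ℕ) ≤
          s * (g - 32768) * X - (A - 32768 * s) * |X|) := by
  have hgc : ((65536 - g : ℕ) : ℝ) = 65536 - g := by
    rw [Nat.cast_sub hg]
    norm_num
  rcases le_or_gt n0 p0 with h | h
  · -- `0 ≤ x0`
    have e0 : n0 - p0 = 0 := by omega
    have c0 : ((p0 - n0 : ℕ) : ℝ) = p0 - n0 := Nat.cast_sub h
    have hp : (n0 : ℝ) ≤ p0 := by exact_mod_cast h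
    have hX : 0 ≤ X := by linarith
    have h2 : n1 ≤ p1 := by
      have : (n1 : ℝ) ≤ p1 := by linarith
      exact_mod_cast this
    have e1 : n1 - p1 = 0 := by omega
    have c1 : ((p1 - n1 : ℕ) : ℝ) = p1 - n1 := Nat.cast_sub h2
    rw [e0, e1, abs_of_nonneg hX]
    push_cast
    rw [c0, c1]
    rcases le_total 0 ((s : ℝ) * g - A) with h3 | h3
    · left
      nlinarith [mul_le_mul_of_nonneg_left h0 h3]
    · right
      left
      nlinarith [mul_le_mul_of_nonpos_left h1 h3]
  · have e0 : p0 - n0 = 0 := by omega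
    have c0 : ((n0 - p0 : ℕ) : ℝ) = n0 - p0 := Nat.cast_sub h.le
    have hp : (p0 : ℝ) < n0 := by exact_mod_cast h
    rcases le_or_gt p1 n1 with h2 | h2
    · -- `x1 ≤ 0`
      have e1 : p1 - n1 = 0 := by omega
      have c1 : ((n1 - p1 : ℕ) : ℝ) = n1 - p1 := Nat.cast_sub h2
      have hp1 : (p1 : ℝ) ≤ n1 := by exact_mod_cast h2
      have hX : X ≤ 0 := by linarith
      rw [e0, e1, abs_of_nonpos hX]
      push_cast
      rw [c0, c1, hgc]
      rcases le_total 0 ((s : ℝ) * (65536 - g) - A) with h3 | h3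
      · right
        left
        nlinarith [mul_le_mul_of_nonneg_left h1 h3]
      · left
        nlinarith [mul_le_mul_of_nonpos_left h0 h3]
    · -- `x0 < 0 < x1`
      have e1 : n1 - p1 = 0 := by omega
      have c1 : ((p1 - n1 : ℕ) : ℝ) = p1 - n1 := Nat.cast_sub h2.le
      have hp1 : (n1 : ℝ) < p1 := by exact_mod_cast h2
      have hst : 0 < (n0 - p0) * (p1 - n1) := Nat.mul_pos (by omega) (by omega)
      rw [iz_pos hst, iz_pos hst, e0, e1]
      push_cast
      rw [c0, c1, hgc]
      rcases le_total 0 X with hX | hX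
      · rw [abs_of_nonneg hX]
        rcases le_total 0 ((s : ℝ) * g - A) with h3 | h3
        · right
          right
          nlinarith [mul_nonneg h3 hX]
        · right
          left
          nlinarith [mul_le_mul_of_nonpos_left h1 h3]
      · rw [abs_of_nonpos hX]
        rcases le_total 0 ((s : ℝ) * (65536 - g) - A) with h3 | h3
        · right
          right
          nlinarith [mul_nonneg h3 (neg_nonneg.2 hX)]
        · left
          nlinarith [mul_le_mul_of_nonpos_left h0 h3]

theorem iz_le (st x : ℕ) : iz st x ≤ x := by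
  cases st with
  | zero => exact le_rfl
  | succ n => exact Nat.zero_le _

theorem edge_spec {C : List (List Aff)} (hC : okC C = true)
    {p0 n0 p1 n1 q0 m0 q1 m1 g1 g2 hh : ℕ} (hp0 : p0 < 65536) (hn0 : n0 < 65536)
    (hp1 : p1 < 65536) (hn1 : n1 < 65536) (hq0 : q0 < 65536) (hm0 : m0 < 65536)
    (hq1 : q1 < 65536) (hm1 : m1 < 65536) (hg1 : g1 ≤ 65536) (hg2 : g2 ≤ 65536)
    (hhh : hh < 4294967296) {k : ℕ → Bool} {d : ℕ}
    (h : edge (packC C) p0 n0 p1 n1 q0 m0 q1 m1 g1 g2 hh k d = true) {X T : ℝ}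
    (hX0 : (p0 : ℝ) - n0 ≤ X) (hX1 : X ≤ (p1 : ℝ) - n1) (hT0 : (q0 : ℝ) - m0 ≤ T)
    (hT1 : T ≤ (q1 : ℝ) - m1) :
    (∀ z, LeCb C 256 X T z → z ≤ (g1 - 32768) * X + (g2 - 32768) * T + (hh - 8388608)) ∧
      ∃ d', k d' = true := by
  obtain ⟨xa, hxa⟩ : ∃ xa, xa = (p0 - n0) + (n0 - p0) := ⟨_, rfl⟩
  obtain ⟨xb, hxb⟩ : ∃ xb, xb = (p1 - n1) + (n1 - p1) := ⟨_, rfl⟩
  obtain ⟨ta, hta⟩ : ∃ ta, ta = (q0 - m0) + (m0 - q0) := ⟨_, rfl⟩
  obtain ⟨tb, htb⟩ : ∃ tb, tb = (q1 - m1) + (m1 - q1) := ⟨_, rfl⟩
  obtain ⟨ra, hra⟩ : ∃ ra, ra = g1 * (p0 - n0) + (65536 - g1) * (n0 - p0) := ⟨_, rfl⟩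
  obtain ⟨rb, hrb⟩ : ∃ rb, rb = g1 * (p1 - n1) + (65536 - g1) * (n1 - p1) := ⟨_, rfl⟩
  obtain ⟨sa, hsa⟩ : ∃ sa, sa = g2 * (q0 - m0) + (65536 - g2) * (m0 - q0) := ⟨_, rfl⟩
  obtain ⟨sb, hsb⟩ : ∃ sb, sb = g2 * (q1 - m1) + (65536 - g2) * (m1 - q1) := ⟨_, rfl⟩
  obtain ⟨sx, hsx⟩ : ∃ sx, sx = (n0 - p0) * (p1 - n1) := ⟨_, rfl⟩
  obtain ⟨st, hst⟩ : ∃ st, st = (m0 - q0) * (q1 - m1) := ⟨_, rfl⟩
  have h' : pcs
      ((xa + 18446744073709551616 * (xb + 18446744073709551616 * iz sx xa)) *
        39402006196394479212279040100143613805079739270465446667954570505981108452261046400837473921301017996251092024819713)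
      ((ta + 6277101735386680763835789423207666416102355444464034512896 * (tb +
        6277101735386680763835789423207666416102355444464034512896 * iz st ta)) *
        340282366920938463481821351505477763073)
      (hh * 13407807929942597100300863722501453018068091634676792391291617831545146614242627729048385901258282197029569358030311314690208659567797345831601723353858049 + ((ra + 18446744073709551616 * (rb + 18446744073709551616 * iz sx ra)) *
        39402006196394479212279040100143613805079739270465446667954570505981108452261046400837473921301017996251092024819713 +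
        (sa + 6277101735386680763835789423207666416102355444464034512896 * (sb +
          6277101735386680763835789423207666416102355444464034512896 * iz st sa)) *
        340282366920938463481821351505477763073))
      (packC C) k d = true := by
    rw [hxa, hxb, hta, htb, hra, hrb, hsa, hsb, hsx, hst]
    exact h
  have xa_lt : xa < 65536 := by omega
  have xb_lt : xb < 65536 := by omega
  have ta_lt : ta < 65536 := by omega
  have tb_lt : tb < 65536 := by omega
  have rbd : ∀ {g p n : ℕ}, g ≤ 65536 → p < 65536 → n < 65536 →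
      g * (p - n) + (65536 - g) * (n - p) ≤ 4294967296 := by
    intro g p n hg hp hn
    rcases le_total n p with e | e
    · rw [Nat.sub_eq_zero_of_le e, Nat.mul_zero, Nat.add_zero]
      calc g * (p - n) ≤ 65536 * 65536 := Nat.mul_le_mul hg (by omega)
        _ = _ := by norm_num
    · rw [Nat.sub_eq_zero_of_le e, Nat.mul_zero, Nat.zero_add]
      calc (65536 - g) * (n - p) ≤ 65536 * 65536 := Nat.mul_le_mul (by omega) (by omega)
        _ = _ := by norm_num
  have ra_le : ra ≤ 4294967296 := by rw [hra]; exact rbd hg1 hp0 hn0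
  have rb_le : rb ≤ 4294967296 := by rw [hrb]; exact rbd hg1 hp1 hn1
  have sa_le : sa ≤ 4294967296 := by rw [hsa]; exact rbd hg2 hq0 hm0
  have sb_le : sb ≤ 4294967296 := by rw [hsb]; exact rbd hg2 hq1 hm1
  have rc_le : iz sx ra ≤ 4294967296 := (iz_le _ _).trans ra_le
  have sc_le : iz st sa ≤ 4294967296 := (iz_le _ _).trans sa_le
  have xc_lt : iz sx xa < 65536 := (iz_le _ _).trans_lt xa_lt
  have tc_lt : iz st ta < 65536 := (iz_le _ _).trans_lt ta_lt
  obtain ⟨e1, e2⟩ := pcs_spec (I := cors xa xb (iz sx xa) ta tb (iz st ta) ra rb (iz sx ra) sa sb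
    (iz st sa)) (hh := hh)
    (by simp only [cors, List.map_cons, List.map_nil, pk_cons, pk_nil]; ring)
    (by simp only [cors, List.map_cons, List.map_nil, pk_cons, pk_nil]; ring)
    (by simp only [cors, List.map_cons, List.map_nil, pk_cons, pk_nil]; ring)
    (by simp only [cors, List.map_cons, List.map_nil, pk_cons, pk_nil])
    (by
      intro c hc
      simp only [cors, List.mem_cons, List.not_mem_nil, or_false] at hc
      rcases hc with rfl | rfl | rfl | rfl | rfl | rfl | rfl | rfl | rfl <;> assumption)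
    (by
      intro c hc
      simp only [cors, List.mem_cons, List.not_mem_nil, or_false] at hc
      rcases hc with rfl | rfl | rfl | rfl | rfl | rfl | rfl | rfl | rfl <;> assumption)
    (by
      intro c hc
      simp only [cors, List.mem_cons, List.not_mem_nil, or_false] at hc
      rcases hc with rfl | rfl | rfl | rfl | rfl | rfl | rfl | rfl | rfl <;>
      · dsimp only
        omega)
    hC h'
  refine ⟨fun z hz => ?_, e2⟩
  obtain ⟨F, hF, hzF⟩ := hz
  obtain ⟨W, hW, hI⟩ := e1 F hF
  have hok : F.all okA = true := by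
    have := List.all_eq_true.1 hC F hF
    simp only [Bool.and_eq_true] at this
    exact this.2
  obtain ⟨w1, w2, w3⟩ := wsum_eq hok W
  have hle := wsum_le W hzF
  unfold Aff.val at hle
  have w1' : ((wsum F W).a : ℝ) = (sm Aff.a F W : ℕ) - 32768 * (wtot F W : ℕ) := by
    rw [w1]; push_cast; ring
  have w2' : ((wsum F W).b : ℝ) = (sm Aff.b F W : ℕ) - 32768 * (wtot F W : ℕ) := by
    rw [w2]; push_cast; ring
  have w3' : ((wsum F W).c : ℝ) = (sm Aff.c F W : ℕ) - 32768 * (wtot F W : ℕ) := by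
    rw [w3]; push_cast; ring
  rw [w1', w2', w3'] at hle
  have hs : (0 : ℝ) < (wtot F W : ℕ) := by exact_mod_cast hW
  -- the inequality at a pair of candidates
  have main : ∀ x r t s : ℕ, (⟨x, t, r, s⟩ : Cor) ∈ cors xa xb (iz sx xa) ta tb (iz st ta) ra rb
      (iz sx ra) sa sb (iz st sa) →
      ((wtot F W * r : ℕ) : ℝ) - (sm Aff.a F W : ℕ) * (x : ℕ) ≤
        (wtot F W : ℕ) * (g1 - 32768) * X - ((sm Aff.a F W : ℕ) - 32768 * (wtot F W : ℕ)) * |X| →
      ((wtot F W * s : ℕ) : ℝ) - (sm Aff.b F W : ℕ) * (t : ℕ) ≤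
        (wtot F W : ℕ) * (g2 - 32768) * T - ((sm Aff.b F W : ℕ) - 32768 * (wtot F W : ℕ)) * |T| →
      z ≤ (g1 - 32768) * X + (g2 - 32768) * T + (hh - 8388608) := by
    intro x r t s hc hx ht
    have hi := hI _ hc
    have hi' : ((sm Aff.a F W * x + (sm Aff.b F W * t + sm Aff.c F W * 256) : ℕ) : ℝ) ≤
        ((wtot F W * (hh + (r + s)) : ℕ) : ℝ) := by exact_mod_cast hi
    push_cast at hi' hx ht hle
    have : (0 : ℝ) ≤ (wtot F W : ℕ) *
        ((g1 - 32768) * X + (g2 - 32768) * T + (hh - 8388608) - z) := by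
      nlinarith
    have := nonneg_of_mul_nonneg_right this hs
    linarith
  have cX := cand (A := sm Aff.a F W) (s := wtot F W) hg1 hX0 hX1
  have cT := cand (A := sm Aff.b F W) (s := wtot F W) hg2 hT0 hT1
  rw [← hxa, ← hra, ← hxb, ← hrb, ← hsx] at cX
  rw [← hta, ← hsa, ← htb, ← hsb, ← hst] at cT
  rcases cX with cX | cX | cX <;> rcases cT with cT | cT | cT <;>
  · refine main _ _ _ _ ?_ (by push_cast at cX ⊢; exact cX) (by push_cast at cT ⊢; exact cT)
    simp [cors]

end Pool.Agent.Strip051.LC.Box.Fast
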