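import Pool.Agent.Strip051.LC.Box.FastPack

/-! # The values at the vertices -/

namespace Pool.Agent.Strip051.LC.Box.Fast

/-- The vertices of a box. -/
def verts : List (ℕ × ℕ) → List (List ℕ)
  | [] => [[]]
  | b :: B => (verts B).map (b.1 :: ·) ++ (verts B).map (b.2 :: ·)

theorem length_verts (B : List (ℕ × ℕ)) : (verts B).length = 2 ^ B.length := by
  induction B with
  | nil => rfl
  | cons b B ih =>
    simp only [verts, List.length_append, List.length_map, ih, List.length_cons, pow_succ]
    ring

theorem length_of_verts {B : List (ℕ × ℕ)} {v : List ℕ} (h : v ∈ verts B) :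
    v.length = B.length := by
  induction B generalizing v with
  | nil =>
    simp only [verts, List.mem_singleton] at h
    simp [h]
  | cons b B ih =>
    simp only [verts, List.mem_append, List.mem_map] at h
    rcases h with ⟨u, hu, rfl⟩ | ⟨u, hu, rfl⟩ <;> simp [ih hu]

/-- The sum over the vertices with powers of `2 ^ 96`. -/
def lan (B : List (ℕ × ℕ)) (f : List ℕ → ℕ) : ℕ := pk (2 ^ 96) ((verts B).map f)

/-- The shift. -/
def sh (B : List (ℕ × ℕ)) : ℕ := (2 ^ 96) ^ 2 ^ B.length

theorem lan_cons (b : ℕ × ℕ) (B : List (ℕ × ℕ)) (f : List ℕ → ℕ) :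
    lan (b :: B) f = lan B (fun v => f (b.1 :: v)) + sh B * lan B (fun v => f (b.2 :: v)) := by
  unfold lan sh
  simp only [verts, List.map_append, pk_append, List.map_map, List.length_map, length_verts]
  rfl

theorem lan_congr {B : List (ℕ × ℕ)} {f g : List ℕ → ℕ} (h : ∀ v ∈ verts B, f v = g v) :
    lan B f = lan B g := by
  unfold lan
  rw [List.map_congr_left h]

theorem lan_add (B : List (ℕ × ℕ)) (f g : List ℕ → ℕ) :
    lan B (fun v => f v + g v) = lan B f + lan B g := pk_map_add _ _ _ _

theorem lan_mul (B : List (ℕ × ℕ)) (k : ℕ) (f : List ℕ → ℕ) :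
    lan B (fun v => k * f v) = k * lan B f := pk_map_mul _ _ _ _

theorem lan_const (B : List (ℕ × ℕ)) (k : ℕ) : lan B (fun _ => k) = k * lan B (fun _ => 1) := by
  rw [← lan_mul]
  simp

/-- The product of lists. -/
def nn : List ℕ → List ℕ → ℕ
  | a :: as, x :: xs => a * x + nn as xs
  | _, _ => 0

@[simp] theorem nn_nil (xs : List ℕ) : nn [] xs = 0 := by
  cases xs <;> rfl

@[simp] theorem nn_nil' (as : List ℕ) : nn as [] = 0 := by
  cases as <;> rfl

@[simp] theorem nn_cons (a : ℕ) (as : List ℕ) (x : ℕ) (xs : List ℕ) :
    nn (a :: as) (x :: xs) = a * x + nn as xs := rfl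

theorem nn_append {a b x y : List ℕ} (h : a.length = x.length) :
    nn (a ++ b) (x ++ y) = nn a x + nn b y := by
  induction a generalizing x with
  | nil =>
    cases x with
    | nil => simp
    | cons x xs => simp at h
  | cons a as ih =>
    cases x with
    | nil => simp at h
    | cons x xs =>
      simp only [List.cons_append, nn_cons]
      rw [ih (by simpa using h)]
      ring

theorem nn_map_mul (a x : List ℕ) (T : ℕ) : nn a (x.map fun y => T * y) = T * nn a x := by
  induction a generalizing x with
  | nil => simp
  | cons a as ih =>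
    cases x with
    | nil => simp
    | cons x xs =>
      simp only [List.map_cons, nn_cons, ih]
      ring

/-- The monomials. -/
def mn : List ℕ → List ℕ
  | [] => []
  | x :: v => mn v ++ (x :: x * x :: v.map fun y => x * y)

/-- The number of the monomials. -/
def ml : ℕ → ℕ
  | 0 => 0
  | n + 1 => ml n + (n + 2)

theorem length_mn (v : List ℕ) : (mn v).length = ml v.length := by
  induction v with
  | nil => rfl
  | cons x v ih => simp [mn, ml, ih]

theorem nn_mn {D cr v : List ℕ} {l m x : ℕ} (hD : D.length = ml v.length) :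
    nn (D ++ l :: m :: cr) (mn (x :: v)) = nn D (mn v) + (l * x + (m * (x * x) + x * nn cr v)) := by
  rw [mn, nn_append (by rw [hD, length_mn])]
  simp only [nn_cons, nn_map_mul]

theorem sum_mn (x : ℕ) (v : List ℕ) :
    (mn (x :: v)).sum = (mn v).sum + (x + (x * x + x * v.sum)) := by
  simp only [mn, List.sum_append, List.sum_cons]
  rw [List.sum_map_mul_left]
  simp

/-- The coordinates of the vertices. -/
def XS : List (ℕ × ℕ) → List ℕ
  | [] => []
  | b :: B => lan B (fun _ => 1) * (b.1 + b.2 * sh B) :: (XS B).map fun x => x * (sh B + 1)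

theorem length_XS (B : List (ℕ × ℕ)) : (XS B).length = B.length := by
  induction B with
  | nil => rfl
  | cons b B ih => simp [XS, ih]

theorem nn_XS {B : List (ℕ × ℕ)} {cr : List ℕ} (h : cr.length = B.length) :
    nn cr (XS B) = lan B (fun v => nn cr v) := by
  induction B generalizing cr with
  | nil =>
    cases cr with
    | nil => rfl
    | cons c cr => simp at h
  | cons b B ih =>
    cases cr with
    | nil => simp at h
    | cons c cr =>
      rw [lan_cons, XS]
      simp only [nn_cons]
      rw [lan_add, lan_add, lan_const B (c * b.1), lan_const B (c * b.2),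
        ← ih (by simpa using h)]
      have e : (fun x => x * (sh B + 1)) = fun x => (sh B + 1) * x := by
        funext x
        ring
      rw [e, nn_map_mul]
      ring

theorem dt_cons (x : ℕ) (xs : List ℕ) (k : ℕ → List ℕ → ℕ → Bool) (T Z a : ℕ) :
    dt (x :: xs) k T Z a = dt xs (fun a l Z => k a (x * T :: l) Z) T
      (Z / 18446744073709551616) (a + Z % 18446744073709551616 * x) := rfl

theorem dt_spec {xs cr rest : List ℕ} (h : cr.length = xs.length)
    (hc : ∀ c ∈ cr, c < 18446744073709551616) (k : ℕ → List ℕ → ℕ → Bool) (T a : ℕ) :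
    dt xs k T (pk 18446744073709551616 (cr ++ rest)) a =
      k (a + nn cr xs) (xs.map fun x => x * T) (pk 18446744073709551616 rest) := by
  induction xs generalizing cr a k with
  | nil =>
    cases cr with
    | nil => rfl
    | cons c cr => simp at h
  | cons x xs ih =>
    cases cr with
    | nil => simp at h
    | cons c cr =>
      have hc' := hc c (by simp)
      rw [List.cons_append, dt_cons, pk_mod hc', pk_div hc', ih (by simpa using h)
        (fun c h => hc c (by simp [h]))]
      simp only [nn_cons, List.map_cons]
      congr 1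
      ring

/-- The correction for the variables in which the polynomial is convex. -/
def Conc (β : ℕ) : List (ℕ × ℕ) → List ℕ → ℕ → Prop
  | [], _, C => C = 0
  | b :: B, D, C => ∃ D1 l m cr C1, D = D1 ++ l :: m :: cr ∧ D1.length = ml B.length ∧
      cr.length = B.length ∧ Conc β B D1 C1 ∧
      C = C1 + (m - β) * ((b.2 - b.1) * (b.2 - b.1))

theorem ev_cons (b : ℕ × ℕ) (B : List (ℕ × ℕ))
    (k : ℕ → ℕ → ℕ → List ℕ → ℕ → ℕ → ℕ → ℕ → Bool) (β Z : ℕ) :
    ev (b :: B) k β Z = ev B (fun one S sx xs V V1 C Z =>
        dt xs (fun a xs' Z' => k (one * (S + 1)) (S * S)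
            (sx * (S + 1) + one * (b.1 + b.2 * S))
            (one * (b.1 + b.2 * S) :: xs')
            (V * (S + 1) + ((Z % 18446744073709551616 * one + a) * (b.1 + b.2 * S) +
              Z / 18446744073709551616 % 18446744073709551616 *
                (one * (b.1 * b.1 + b.2 * b.2 * S))))
            (V1 * (S + 1) + ((one + sx) * (b.1 + b.2 * S) +
              one * (b.1 * b.1 + b.2 * b.2 * S)))
            (C + (Z / 18446744073709551616 % 18446744073709551616 - β) *
              ((b.2 - b.1) * (b.2 - b.1))) Z')
          (S + 1) (Z / 340282366920938463463374607431768211456) 0) β Z := rfl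

theorem split_list {n : ℕ} {D : List ℕ} (h : D.length = ml (n + 1)) :
    ∃ D1 l m cr, D = D1 ++ l :: m :: cr ∧ D1.length = ml n ∧ cr.length = n := by
  have h1 : D.length = ml n + (n + 2) := h
  refine ⟨D.take (ml n), (D.drop (ml n)).getD 0 0, (D.drop (ml n)).getD 1 0,
    (D.drop (ml n)).drop 2, ?_, by rw [List.length_take]; omega, by simp; omega⟩
  have h2 : (D.drop (ml n)).length = n + 2 := by
    rw [List.length_drop]
    omega
  conv_lhs => rw [← List.take_append_drop (ml n) D]
  congr 1
  match hE : D.drop (ml n), h2 with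
  | x :: y :: l, _ => rfl
  | [x], h2 => simp at h2
  | [], h2 => simp at h2

/-- **The packed values.** -/
theorem ev_spec {B : List (ℕ × ℕ)} {D rest : List ℕ} (hD : D.length = ml B.length)
    (hl : ∀ d ∈ D ++ rest, d < 18446744073709551616)
    {k : ℕ → ℕ → ℕ → List ℕ → ℕ → ℕ → ℕ → ℕ → Bool} {β : ℕ}
    (h : ev B k β (pk 18446744073709551616 (D ++ rest)) = true) :
    ∃ C, Conc β B D C ∧ k (lan B fun _ => 1) (sh B) (lan B fun v => v.sum) (XS B)
      (lan B fun v => nn D (mn v)) (lan B fun v => (mn v).sum) C
      (pk 18446744073709551616 rest) = true := by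
  induction B generalizing D rest k with
  | nil =>
    have hD' : D = [] := List.length_eq_zero_iff.1 hD
    subst hD'
    exact ⟨0, rfl, h⟩
  | cons b B ih =>
    obtain ⟨D1, l, m, cr, rfl, h1, h2⟩ := split_list hD
    rw [List.append_assoc] at h hl
    rw [ev_cons] at h
    obtain ⟨C1, c1, c2⟩ := ih h1 hl h
    have dl : l < 18446744073709551616 := hl l (by simp)
    have dm : m < 18446744073709551616 := hl m (by simp)
    have dc : ∀ c ∈ cr, c < 18446744073709551616 := fun c hc => hl c (by simp [hc])
    have dr : ∀ c ∈ rest, c < 18446744073709551616 := fun c hc => hl c (by simp [hc])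
    have z1 : pk 18446744073709551616 (l :: m :: cr ++ rest) % 18446744073709551616 = l :=
      pk_mod dl _
    have z2 : pk 18446744073709551616 (l :: m :: cr ++ rest) / 18446744073709551616 %
        18446744073709551616 = m := by
      rw [List.cons_append, pk_div dl, List.cons_append, pk_mod dm]
    have z3 : pk 18446744073709551616 (l :: m :: cr ++ rest) /
        340282366920938463463374607431768211456 = pk 18446744073709551616 (cr ++ rest) := by
      rw [show (340282366920938463463374607431768211456 : ℕ) =
        18446744073709551616 * 18446744073709551616 by norm_num, ← Nat.div_div_eq_div_mul,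
        List.cons_append, pk_div dl, List.cons_append, pk_div dm]
    rw [z1, z2, z3] at c2
    rw [dt_spec (by rw [length_XS]; exact h2) dc, nn_XS h2] at c2
    refine ⟨C1 + (m - β) * ((b.2 - b.1) * (b.2 - b.1)),
      ⟨D1, l, m, cr, C1, rfl, h1, h2, c1, rfl⟩, ?_⟩
    have e0 : lan (b :: B) (fun _ => 1) = (lan B fun _ => 1) * (sh B + 1) := by
      rw [lan_cons]
      ring
    have e1 : sh (b :: B) = sh B * sh B := by
      unfold sh
      rw [List.length_cons, show 2 ^ (B.length + 1) = 2 ^ B.length * 2 from pow_succ _ _,
        pow_mul, sq]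
    have e2 : lan (b :: B) (fun v => v.sum) = (lan B fun v => v.sum) * (sh B + 1) +
        (lan B fun _ => 1) * (b.1 + b.2 * sh B) := by
      rw [lan_cons]
      simp only [List.sum_cons]
      rw [lan_add, lan_add, lan_const B b.1, lan_const B b.2]
      ring
    have e3 : lan (b :: B) (fun v => nn (D1 ++ l :: m :: cr) (mn v)) =
        (lan B fun v => nn D1 (mn v)) * (sh B + 1) +
        ((l * (lan B fun _ => 1) + (0 + lan B fun v => nn cr v)) * (b.1 + b.2 * sh B) +
          m * ((lan B fun _ => 1) * (b.1 * b.1 + b.2 * b.2 * sh B))) := by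
      have key : ∀ x, lan B (fun v => nn (D1 ++ l :: m :: cr) (mn (x :: v))) =
          (lan B fun v => nn D1 (mn v)) + ((l * x) * (lan B fun _ => 1) +
            ((m * (x * x)) * (lan B fun _ => 1) + x * lan B fun v => nn cr v)) := by
        intro x
        rw [← lan_const, ← lan_const, ← lan_mul, ← lan_add, ← lan_add, ← lan_add]
        refine lan_congr fun v hv => ?_
        rw [nn_mn (by rw [length_of_verts hv]; exact h1)]
      rw [lan_cons, key, key]
      ring
    have e4 : lan (b :: B) (fun v => (mn v).sum) =
        (lan B fun v => (mn v).sum) * (sh B + 1) +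
        (((lan B fun _ => 1) + lan B fun v => v.sum) * (b.1 + b.2 * sh B) +
          (lan B fun _ => 1) * (b.1 * b.1 + b.2 * b.2 * sh B)) := by
      have key : ∀ x, lan B (fun v => (mn (x :: v)).sum) =
          (lan B fun v => (mn v).sum) + (x * (lan B fun _ => 1) +
            ((x * x) * (lan B fun _ => 1) + x * lan B fun v => v.sum)) := by
        intro x
        rw [← lan_const, ← lan_const, ← lan_mul, ← lan_add, ← lan_add, ← lan_add]
        refine lan_congr fun v _ => ?_
        rw [sum_mn]
      rw [lan_cons, key, key]
      ring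
    rw [e0, e1, e2, e3, e4, XS]
    exact c2

end Pool.Agent.Strip051.LC.Box.Fast
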