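import Pool.Agent.Strip051.LC.Box.FastPoly
import Pool.Agent.Strip051.LC.Box.Cost

/-! # The fast check with different lists of pieces

The boxes may have coordinates up to `2048`; each edge has its own list of pieces, and the first
digit of a leaf chooses among several families of lists. -/

namespace Pool.Agent.Strip051.LC.Box.Fast

open Pool.Agent.Strip051.LC.Box

/-! ### Definitions -/

/-- The checks of all edges. -/
noncomputable def edsL (CL : List (List (List ℕ))) :
    List (ℕ × ℕ × ℕ × ℕ) → (ℕ → ℕ → Bool) → ℕ → ℕ → ℕ → ℕ → ℕ → ℕ → Bool :=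
  List.rec (motive := fun _ =>
      List (ℕ × ℕ × ℕ × ℕ) → (ℕ → ℕ → Bool) → ℕ → ℕ → ℕ → ℕ → ℕ → ℕ → Bool)
    (fun _ k _ _ _ _ d z => k d z)
    (fun C _ ih E k P0 N0 P1 N1 d z => List.rec (motive := fun _ => Bool) false
      (fun e E' _ =>
        (fun g1 g2 h0 h1 : ℕ =>
          edge C (Nat.mod P0 65536) (Nat.mod N0 65536) (Nat.mod P1 65536) (Nat.mod N1 65536)
            (Nat.mod (Nat.div P0 65536) 65536) (Nat.mod (Nat.div N0 65536) 65536)
            (Nat.mod (Nat.div P1 65536) 65536) (Nat.mod (Nat.div N1 65536) 65536)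
            g1 g2 (Nat.add h0 (Nat.mul 65536 h1))
            (fun d => ih E' k (Nat.div P0 4294967296) (Nat.div N0 4294967296)
              (Nat.div P1 4294967296) (Nat.div N1 4294967296) d
              (Nat.add (Nat.add z (Nat.mul g1 e.1)) (Nat.add (Nat.mul g2 e.2.1)
                (Nat.add (Nat.mul h0 e.2.2.1) (Nat.mul h1 e.2.2.2)))))
            (Nat.div d 18446744073709551616))
          (Nat.mod d 65536) (Nat.mod (Nat.div d 65536) 65536)
          (Nat.mod (Nat.div d 4294967296) 65536) (Nat.mod (Nat.div d 281474976710656) 65536)) E) CL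

/-- The check of a leaf. -/
noncomputable def leafL (p : FP) (B : List (ℕ × ℕ)) (d : ℕ) (CL : List (List (List ℕ))) : Bool :=
  frm B p.fm (fun P0 N0 P1 N1 =>
    edsL CL p.ed (fun d z => zs p.cs (fun _ z => fin B z) d z) P0 N0 P1 N1 d p.q)
    p.kp p.kn p.kp p.kn

/-- The choice of a family. -/
noncomputable def sel (k : List (List (List ℕ)) → Bool) (CS : List (List (List (List ℕ)))) :
    ℕ → Bool :=
  List.rec (motive := fun _ => ℕ → Bool) (fun _ => false)
    (fun CL _ ih i => Nat.rec (motive := fun _ => Bool) (k CL) (fun j _ => ih j) i) CS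

/-- The check of a certificate; `cutf` checks the cuts.  The lowest digit of a leaf chooses the
family (modulo 8) and should be different for all leaves, since the kernel hashes a number by its
lowest 64 bits. -/
noncomputable def chkM (p : FP) (CS : List (List (List (List ℕ))))
    (cutf : ℕ → List (ℕ × ℕ) → Bool) (t : Tree) : List (ℕ × ℕ) → Bool :=
  Tree.rec (motive := fun _ => List (ℕ × ℕ) → Bool)
    (fun d B => sel (leafL p B (Nat.div d 65536)) CS (Nat.mod d 8))
    (fun k B => cutf k B)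
    (fun i _ _ h1 h2 B => spl i B (fun l r => Bool.rec (motive := fun _ => Bool) false (h2 r) (h1 l)))
    (fun _ _ _ _ _ _ _ => false) t

/-! ### The forms -/

theorem Fb.stepL {M : ℕ} {P0 N0 P1 N1 : List ℕ} {A : List ℝ} (h : Fb M P0 N0 P1 N1 A)
    {us vs : List ℕ} (h1 : us.length = A.length) (h2 : vs.length = A.length)
    (hu : ∀ x ∈ us, x ≤ 2) (hv : ∀ x ∈ vs, x ≤ 2) {b : ℕ × ℕ} (hb1 : b.1 ≤ 2048)
    (hb2 : b.2 ≤ 2048) {x : ℝ} (hx1 : (b.1 : ℝ) ≤ x) (hx2 : x ≤ b.2) :
    Fb (M + 4096) (axp b.1 us P0) (axp b.2 vs N0) (axp b.2 us P1) (axp b.1 vs N1)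
      (ax x us vs A) := by
  induction A generalizing us vs P0 N0 P1 N1 with
  | nil =>
    have e1 : us = [] := List.length_eq_zero_iff.1 h1
    have e2 : vs = [] := List.length_eq_zero_iff.1 h2
    subst e1 e2
    cases P0 <;> cases N0 <;> cases P1 <;> cases N1 <;>
      first
      | exact (h : False).elim
      | exact trivial
  | cons a A ih =>
    obtain ⟨p0, n0, p1, n1, P0, N0, P1, N1, rfl, rfl, rfl, rfl, a1, a2, a3, a4, a5, a6, a7⟩ :=
      h.uncons
    match us, vs, h1, h2 with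
    | u :: us, v :: vs, h1, h2 =>
      have u2 : u ≤ 2 := hu u (by simp)
      have v2 : v ≤ 2 := hv v (by simp)
      have m1 : b.1 * u ≤ 4096 := by
        calc b.1 * u ≤ 2048 * 2 := Nat.mul_le_mul hb1 u2
          _ = _ := by norm_num
      have m2 : b.2 * u ≤ 4096 := by
        calc b.2 * u ≤ 2048 * 2 := Nat.mul_le_mul hb2 u2
          _ = _ := by norm_num
      have m3 : b.1 * v ≤ 4096 := by
        calc b.1 * v ≤ 2048 * 2 := Nat.mul_le_mul hb1 v2
          _ = _ := by norm_num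
      have m4 : b.2 * v ≤ 4096 := by
        calc b.2 * v ≤ 2048 * 2 := Nat.mul_le_mul hb2 v2
          _ = _ := by norm_num
      have ur : (0 : ℝ) ≤ u := Nat.cast_nonneg u
      have vr : (0 : ℝ) ≤ v := Nat.cast_nonneg v
      refine ⟨by omega, by omega, by omega, by omega, ?_, ?_,
        ih a7 (by simpa using h1) (by simpa using h2) (fun x h => hu x (by simp [h]))
          (fun x h => hv x (by simp [h]))⟩
      · push_cast
        nlinarith [mul_le_mul_of_nonneg_right hx1 ur, mul_le_mul_of_nonneg_right hx2 vr]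
      · push_cast
        nlinarith [mul_le_mul_of_nonneg_right hx2 ur, mul_le_mul_of_nonneg_right hx1 vr]
    | [], _, h1, _ => simp at h1
    | _ :: _, [], _, h2 => simp at h2

theorem frm_specL {B : List (ℕ × ℕ)} (hB : ∀ b ∈ B, b.1 ≤ 2048 ∧ b.2 ≤ 2048) {xs : List ℝ}
    (hx : MemN B xs) {FS : List (List ℕ × List ℕ)} {n : ℕ} (hF : FS.all (okf n) = true) {M : ℕ}
    {P0 N0 P1 N1 : List ℕ} {A : List ℝ} (hA : A.length = n) (h : Fb M P0 N0 P1 N1 A)
    {k : ℕ → ℕ → ℕ → ℕ → Bool}
    (hk : frm B (FS.map pf) k (pk 65536 P0) (pk 65536 N0) (pk 65536 P1) (pk 65536 N1) = true) :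
    ∃ P0' N0' P1' N1', k (pk 65536 P0') (pk 65536 N0') (pk 65536 P1') (pk 65536 N1') = true ∧
      Fb (M + 4096 * B.length) P0' N0' P1' N1' (RF FS xs A) ∧ (RF FS xs A).length = n := by
  induction B generalizing FS xs P0 N0 P1 N1 A M with
  | nil =>
    cases xs with
    | cons x xs => exact hx.elim
    | nil =>
      rw [frm_nil] at hk
      have e : RF FS [] A = A := by cases FS <;> rfl
      rw [e]
      exact ⟨P0, N0, P1, N1, hk, by simpa using h, hA⟩
  | cons b B ih =>
    cases xs with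
    | nil => exact hx.elim
    | cons x xs =>
      obtain ⟨h1, h2, h3⟩ := hx
      cases FS with
      | nil =>
        rw [List.map_nil, frm_cons_nil] at hk
        exact absurd hk (by simp)
      | cons f FS =>
        simp only [List.all_cons, Bool.and_eq_true] at hF
        obtain ⟨f1, f2⟩ := hF
        simp only [okf, Bool.and_eq_true, decide_eq_true_eq, List.all_eq_true] at f1
        obtain ⟨⟨⟨g1, g2⟩, g3⟩, g4⟩ := f1
        have hb := hB b (by simp)
        have st := h.stepL (us := f.1) (vs := f.2) (by rw [g1, hA]) (by rw [g2, hA]) g3 g4 hb.1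
          hb.2 h1 h2
        have hl := length_ax (x := x) (us := f.1) (vs := f.2) (A := A) (by rw [g1, hA])
          (by rw [g2, hA])
        rw [List.map_cons, frm_cons] at hk
        simp only [pf] at hk
        rw [← pk_axp, ← pk_axp, ← pk_axp, ← pk_axp] at hk
        obtain ⟨P0', N0', P1', N1', e1, e2, e3⟩ := ih (fun c hc => hB c (by simp [hc])) h3 f2
          (hl.trans hA) st hk
        refine ⟨P0', N0', P1', N1', e1, ?_, e3⟩
        rw [List.length_cons, show M + 4096 * (B.length + 1) = M + 4096 + 4096 * B.length by ring]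
        exact e2

/-! ### The edges -/

/-- The polynomials of the edges are correct at the point `y`. -/
def EdOKL (ν : ℝ) (y : List ℝ) (L : ℕ) :
    List (List ℕ × List ℕ × List ℕ × List ℕ) → List ℝ → Prop
  | e :: E, X :: T :: A => (e.1.length = L ∧ e.2.1.length = L ∧ e.2.2.1.length = L ∧
      e.2.2.2.length = L) ∧ ((∀ x ∈ e.1, x ≤ 134217728) ∧ (∀ x ∈ e.2.1, x ≤ 134217728) ∧
      (∀ x ∈ e.2.2.1, x ≤ 134217728) ∧ (∀ x ∈ e.2.2.2, x ≤ 134217728)) ∧
      (nd e.1 y = -(ν * X) ∧ nd e.2.1 y = -(ν * T) ∧ nd e.2.2.1 y = -ν ∧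
      nd e.2.2.2 y = -(ν * 65536)) ∧ EdOKL ν y L E A
  | [], [] => True
  | _, _ => False

/-- The sum over the edges. -/
inductive BelL : List (List (List Aff)) → List ℝ → ℝ → Prop
  | nil : BelL [] [] 0
  | cons {C : List (List Aff)} {CL : List (List (List Aff))} {X T w z : ℝ} {A : List ℝ}
      (h : LeCb C 256 X T w) (h' : BelL CL A z) :
      BelL (C :: CL) (X :: T :: A) (w + 32768 * X + 32768 * T + 8388608 + z)

theorem edsL_nil (E : List (ℕ × ℕ × ℕ × ℕ)) (k : ℕ → ℕ → Bool) (P0 N0 P1 N1 d z : ℕ) :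
    edsL [] E k P0 N0 P1 N1 d z = k d z := rfl

theorem edsL_cons_nil (C : List (List ℕ)) (CL : List (List (List ℕ))) (k : ℕ → ℕ → Bool)
    (P0 N0 P1 N1 d z : ℕ) : edsL (C :: CL) [] k P0 N0 P1 N1 d z = false := rfl

theorem edsL_cons (C : List (List ℕ)) (CL : List (List (List ℕ))) (e : ℕ × ℕ × ℕ × ℕ)
    (E : List (ℕ × ℕ × ℕ × ℕ)) (k : ℕ → ℕ → Bool) (P0 N0 P1 N1 d z : ℕ) :
    edsL (C :: CL) (e :: E) k P0 N0 P1 N1 d z =
      edge C (P0 % 65536) (N0 % 65536) (P1 % 65536) (N1 % 65536) (P0 / 65536 % 65536)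
        (N0 / 65536 % 65536) (P1 / 65536 % 65536) (N1 / 65536 % 65536) (d % 65536)
        (d / 65536 % 65536) (d / 4294967296 % 65536 + 65536 * (d / 281474976710656 % 65536))
        (fun d' => edsL CL E k (P0 / 4294967296) (N0 / 4294967296) (P1 / 4294967296)
          (N1 / 4294967296) d' (z + d % 65536 * e.1 + (d / 65536 % 65536 * e.2.1 +
            (d / 4294967296 % 65536 * e.2.2.1 + d / 281474976710656 % 65536 * e.2.2.2))))
        (d / 18446744073709551616) := rfl

theorem edsL_spec {CL : List (List (List Aff))} (hC : ∀ C ∈ CL, okC C = true) {ν : ℝ}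
    (hν : 0 ≤ ν) {y : List ℝ} {L : ℕ}
    {ED : List (List ℕ × List ℕ × List ℕ × List ℕ)} {A : List ℝ} (hE : EdOKL ν y L ED A)
    {P0 N0 P1 N1 : List ℕ} {M : ℕ} (hM : M < 65536) (hF : Fb M P0 N0 P1 N1 A)
    {k : ℕ → ℕ → Bool} {d : ℕ} {acc : List ℕ} (hL : acc.length = L) {G : ℕ}
    (hG : ∀ x ∈ acc, x ≤ G) {z : ℝ} (hz : BelL CL A z)
    (h : edsL (CL.map packC) (ED.map pe) k (pk 65536 P0) (pk 65536 N0) (pk 65536 P1)
      (pk 65536 N1) d (pk 18446744073709551616 acc) = true) :
    ∃ d' acc', k d' (pk 18446744073709551616 acc') = true ∧ acc'.length = L ∧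
      (∀ x ∈ acc', x ≤ G + 35184372088832 * ED.length) ∧ nd acc' y ≤ nd acc y - ν * z := by
  induction hz generalizing ED P0 N0 P1 N1 d acc G with
  | nil =>
    rw [List.map_nil, edsL_nil] at h
    refine ⟨d, acc, h, hL, fun x hx => (hG x hx).trans (Nat.le_add_right _ _), ?_⟩
    simp
  | @cons C CL X T w z A hw hz ih =>
    match ED, hE with
    | [], hE => exact hE.elim
    | e :: ED, ⟨⟨l1, l2, l3, l4⟩, ⟨m1, m2, m3, m4⟩, ⟨v1, v2, v3, v4⟩, hE⟩ =>
      obtain ⟨p0, n0, p1, n1, P0, N0, P1, N1, rfl, rfl, rfl, rfl, a1, a2, a3, a4, a5, a6, hF⟩ :=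
        hF.uncons
      obtain ⟨q0, u0, q1, u1, P0, N0, P1, N1, rfl, rfl, rfl, rfl, b1, b2, b3, b4, b5, b6, hF⟩ :=
        hF.uncons
      rw [List.map_cons, List.map_cons, edsL_cons] at h
      have dig : ∀ {a b : ℕ} {l : List ℕ}, a < 65536 → b < 65536 →
          pk 65536 (a :: b :: l) % 65536 = a ∧ pk 65536 (a :: b :: l) / 65536 % 65536 = b ∧
          pk 65536 (a :: b :: l) / 4294967296 = pk 65536 l := by
        intro a b l ha hb
        refine ⟨pk_mod ha _, ?_, ?_⟩
        · rw [pk_div ha, pk_mod hb]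
        · rw [show (4294967296 : ℕ) = 65536 * 65536 by norm_num, ← Nat.div_div_eq_div_mul,
            pk_div ha, pk_div hb]
      obtain ⟨c1, c2, c3⟩ := dig (l := P0) (a1.trans_lt hM) (b1.trans_lt hM)
      obtain ⟨c4, c5, c6⟩ := dig (l := N0) (a2.trans_lt hM) (b2.trans_lt hM)
      obtain ⟨c7, c8, c9⟩ := dig (l := P1) (a3.trans_lt hM) (b3.trans_lt hM)
      obtain ⟨c10, c11, c12⟩ := dig (l := N1) (a4.trans_lt hM) (b4.trans_lt hM)
      rw [c1, c2, c3, c4, c5, c6, c7, c8, c9, c10, c11, c12] at h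
      obtain ⟨g1, hg1⟩ : ∃ g1, g1 = d % 65536 := ⟨_, rfl⟩
      obtain ⟨g2, hg2⟩ : ∃ g2, g2 = d / 65536 % 65536 := ⟨_, rfl⟩
      obtain ⟨h0, hh0⟩ : ∃ h0, h0 = d / 4294967296 % 65536 := ⟨_, rfl⟩
      obtain ⟨h1, hh1⟩ : ∃ h1, h1 = d / 281474976710656 % 65536 := ⟨_, rfl⟩
      rw [← hg1, ← hg2, ← hh0, ← hh1] at h
      have g1' : g1 < 65536 := by omega
      have g2' : g2 < 65536 := by omega
      have h0' : h0 < 65536 := by omega
      have h1' : h1 < 65536 := by omega
      obtain ⟨e1, d', e2⟩ := edge_spec (hC C (by simp)) (a1.trans_lt hM) (a2.trans_lt hM)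
        (a3.trans_lt hM) (a4.trans_lt hM) (b1.trans_lt hM) (b2.trans_lt hM) (b3.trans_lt hM)
        (b4.trans_lt hM) g1'.le g2'.le (by omega) h a5 a6 b5 b6
      simp only [pe] at e2
      rw [show pk 18446744073709551616 acc + g1 * pk 18446744073709551616 e.1 +
        (g2 * pk 18446744073709551616 e.2.1 + (h0 * pk 18446744073709551616 e.2.2.1 +
          h1 * pk 18446744073709551616 e.2.2.2)) = pk 18446744073709551616
          (axp h1 e.2.2.2 (axp h0 e.2.2.1 (axp g2 e.2.1 (axp g1 e.1 acc)))) by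
        rw [pk_axp, pk_axp, pk_axp, pk_axp]
        ring] at e2
      have L1 : (axp g1 e.1 acc).length = L := (length_axp (by rw [l1, hL])).trans hL
      have L2 : (axp g2 e.2.1 (axp g1 e.1 acc)).length = L :=
        (length_axp (by rw [l2, L1])).trans L1
      have L3 : (axp h0 e.2.2.1 (axp g2 e.2.1 (axp g1 e.1 acc))).length = L :=
        (length_axp (by rw [l3, L2])).trans L2
      have L4 : (axp h1 e.2.2.2 (axp h0 e.2.2.1 (axp g2 e.2.1 (axp g1 e.1 acc)))).length = L :=
        (length_axp (by rw [l4, L3])).trans L3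
      have G1 := axp_le (k := g1) m1 hG
      have G2 := axp_le (k := g2) m2 G1
      have G3 := axp_le (k := h0) m3 G2
      have G4 := axp_le (k := h1) m4 G3
      have G5 : ∀ x ∈ axp h1 e.2.2.2 (axp h0 e.2.2.1 (axp g2 e.2.1 (axp g1 e.1 acc))),
          x ≤ G + 35184372088832 := by
        intro x hx
        have := G4 x hx
        omega
      obtain ⟨d'', acc', f1, f2, f3, f4⟩ := ih (fun C hC' => hC C (by simp [hC'])) hE hF L4 G5 e2
      refine ⟨d'', acc', f1, f2, fun x hx => ?_, ?_⟩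
      · have := f3 x hx
        rw [List.length_cons]
        omega
      · have k2 := e1 w hw
        rw [nd_axp, nd_axp, nd_axp, nd_axp, v1, v2, v3, v4] at f4
        push_cast at k2
        have k3 := mul_le_mul_of_nonneg_left k2 hν
        linarith

/-! ### Leaves -/

/-- The conditions on the problem at a point. -/
structure SpOKL (ν : ℝ) (S : Sp) (n : ℕ) (xs A : List ℝ) : Prop where
  hn : n ≤ 8
  hA0 : ∃ A0 : List ℝ, A0.length = 2 * S.ed.length ∧ Fb 16384 S.kp S.kn S.kp S.kn A0 ∧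
    RF S.fs xs A0 = A
  hf : S.fs.all (okf (2 * S.ed.length)) = true
  he : EdOKL ν (yy xs) (ml n + 2) S.ed A
  hc : ∀ l ∈ S.cs, l.length = ml n + 2 ∧ (∀ x ∈ l, x ≤ 134217728) ∧ nd l (yy xs) ≤ 0
  hq : S.q.length = ml n + 2
  hq' : ∀ x ∈ S.q, x ≤ 1125899906842624 * 2
  hl : S.ed.length ≤ 64 ∧ S.cs.length ≤ 64

/-- **The check of a leaf is sound.** -/
theorem leafL_spec {ν : ℝ} (hν : 0 ≤ ν) {S : Sp} {n : ℕ} {xs A : List ℝ}
    (hS : SpOKL ν S n xs A) {CL : List (List (List Aff))} (hC : ∀ C ∈ CL, okC C = true)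
    {B : List (ℕ × ℕ)} (hn : B.length = n)
    (hB : ∀ b ∈ B, b.1 ≤ 2048 ∧ b.2 ≤ 2048) (hx : MemN B xs) {d : ℕ}
    (h : leafL S.pack B d (CL.map packC) = true) {z : ℝ} (hz : BelL CL A z) :
    ν * z ≤ nd S.q (yy xs) := by
  obtain ⟨A0, a1, a2, a3⟩ := hS.hA0
  have h' : frm B (S.fs.map pf) (fun P0 N0 P1 N1 =>
      edsL (CL.map packC) (S.ed.map pe) (fun d z => zs (S.cs.map (pk 18446744073709551616))
        (fun _ z => fin B z) d z) P0 N0 P1 N1 d (pk 18446744073709551616 S.q))
      (pk 65536 S.kp) (pk 65536 S.kn) (pk 65536 S.kp) (pk 65536 S.kn) = true := h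
  obtain ⟨P0, N0, P1, N1, b1, b2, b3⟩ := frm_specL hB hx hS.hf a1 a2 h'
  rw [a3] at b2
  have hn8 := hS.hn
  have hM : 16384 + 4096 * B.length < 65536 := by omega
  obtain ⟨l1, l2⟩ := hS.hl
  obtain ⟨d1, acc1, c1, c2, c3, c4⟩ := edsL_spec hC hν hS.he hM b2 hS.hq hS.hq' hz b1
  obtain ⟨d2, acc2, e1, e2, e3, e4⟩ := zs_spec hS.hc c2 c3 c1
  have hlen : acc2.length = ml n + 2 := e2
  obtain ⟨β, D, c, rfl, hD⟩ : ∃ β D c, acc2 = β :: (D ++ [c]) ∧ D.length = ml n := by
    cases acc2 with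
    | nil => simp at hlen
    | cons β l =>
      have hl : l.length = ml n + 1 := by simpa using hlen
      have hne : l ≠ [] := by
        intro h
        rw [h] at hl
        simp at hl
      refine ⟨β, l.dropLast, l.getLast hne, ?_, ?_⟩
      · rw [List.dropLast_append_getLast]
      · rw [List.length_dropLast, hl]
        rfl
  have hD' : D.length = ml B.length := by rw [hn]; exact hD
  have f := fin_spec hD' (fun x hx => by
    have := e3 x hx
    omega) e1 hx
  have hxl : xs.length = B.length := hx.length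
  have e5 := nd_yy (D := D) (xs := xs) (by rw [hxl]; exact hD') β c
  rw [e5] at e4
  linarith

/-! ### Certificates -/

theorem sel_spec {k : List (List (List ℕ)) → Bool} {CS : List (List (List (List ℕ)))} {i : ℕ}
    (h : sel k CS i = true) : ∃ CL ∈ CS, k CL = true := by
  induction CS generalizing i with
  | nil => exact absurd h (by simp [sel])
  | cons CL CS ih =>
    cases i with
    | zero => exact ⟨CL, by simp, h⟩
    | succ j =>
      obtain ⟨D, h1, h2⟩ := ih (i := j) h
      exact ⟨D, by simp [h1], h2⟩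

theorem spl_specL (i : ℕ) : ∀ {B : List (ℕ × ℕ)} {k : List (ℕ × ℕ) → List (ℕ × ℕ) → Bool}
    {xs : List ℝ}, (∀ b ∈ B, b.1 ≤ 2048 ∧ b.2 ≤ 2048) → MemN B xs → spl i B k = true →
    ∃ l r, k l r = true ∧ l.length = B.length ∧ r.length = B.length ∧
      (∀ b ∈ l, b.1 ≤ 2048 ∧ b.2 ≤ 2048) ∧ (∀ b ∈ r, b.1 ≤ 2048 ∧ b.2 ≤ 2048) ∧
      (MemN l xs ∨ MemN r xs) := by
  induction i with
  | zero =>
    intro B k xs hB hx h
    cases B with
    | nil => exact absurd h (by simp [spl])
    | cons b B =>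
      cases xs with
      | nil => exact hx.elim
      | cons x xs =>
        obtain ⟨h1, h2, h3⟩ := hx
        have h' : frc b.1 (fun lo => frc b.2 (fun hi => frc ((lo + hi) / 2)
          (fun m => k ((lo, m) :: B) ((m, hi) :: B)))) = true := h
        rw [frc_eq, frc_eq, frc_eq] at h'
        have hb := hB b (by simp)
        have hm : (b.1 + b.2) / 2 ≤ 2048 := by omega
        refine ⟨_, _, h', rfl, rfl, ?_, ?_, ?_⟩
        · intro c hc
          rcases List.mem_cons.1 hc with rfl | hc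
          · exact ⟨hb.1, hm⟩
          · exact hB c (by simp [hc])
        · intro c hc
          rcases List.mem_cons.1 hc with rfl | hc
          · exact ⟨hm, hb.2⟩
          · exact hB c (by simp [hc])
        · rcases le_total x (((b.1 + b.2) / 2 : ℕ) : ℝ) with hm | hm
          · exact Or.inl ⟨h1, hm, h3⟩
          · exact Or.inr ⟨hm, h2, h3⟩
  | succ i ih =>
    intro B k xs hB hx h
    cases B with
    | nil => exact absurd h (by simp [spl])
    | cons b B =>
      cases xs with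
      | nil => exact hx.elim
      | cons x xs =>
        obtain ⟨h1, h2, h3⟩ := hx
        have h' : spl i B (fun l r => k (b :: l) (b :: r)) = true := h
        have hb := hB b (by simp)
        obtain ⟨l, r, e1, e2, e3, e4, e5, e6⟩ := ih (fun c hc => hB c (by simp [hc])) h3 h'
        refine ⟨b :: l, b :: r, e1, by simp [e2], by simp [e3], ?_, ?_, ?_⟩
        · intro c hc
          rcases List.mem_cons.1 hc with rfl | hc
          · exact hb
          · exact e4 c hc
        · intro c hc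
          rcases List.mem_cons.1 hc with rfl | hc
          · exact hb
          · exact e5 c hc
        · rcases e6 with e6 | e6
          · exact Or.inl ⟨h1, h2, e6⟩
          · exact Or.inr ⟨h1, h2, e6⟩

/-- **The fast check is sound.** -/
theorem chkM_spec {ν : ℝ} (hν : 0 ≤ ν) {S : Sp} {n : ℕ} {xs A : List ℝ}
    (hS : SpOKL ν S n xs A) {CS : List (List (List (List Aff)))}
    (hC : ∀ CL ∈ CS, ∀ C ∈ CL, okC C = true) {cutf : ℕ → List (ℕ × ℕ) → Bool}
    (hcut : ∀ k B, B.length = n → (∀ b ∈ B, b.1 ≤ 2048 ∧ b.2 ≤ 2048) → cutf k B = true →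
      MemN B xs → False) {z : ℝ} (hz : ∀ CL ∈ CS, BelL CL A z)
    (t : Tree) :
    ∀ {B : List (ℕ × ℕ)}, B.length = n → (∀ b ∈ B, b.1 ≤ 2048 ∧ b.2 ≤ 2048) → MemN B xs →
      chkM S.pack (CS.map fun CL => CL.map packC) cutf t B = true →
      ν * z ≤ nd S.q (yy xs) := by
  induction t with
  | leaf d =>
    intro B hn hB hx h
    have h' : sel (leafL S.pack B (d / 65536)) (CS.map fun CL => CL.map packC) (d % 8) =
      true := h
    obtain ⟨CL', h1, h2⟩ := sel_spec h'
    obtain ⟨CL, h3, rfl⟩ := List.mem_map.1 h1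
    exact leafL_spec hν hS (hC CL h3) hn hB hx h2 (hz CL h3)
  | cut k =>
    intro B hn hB hx h
    exact (hcut k B hn hB h hx).elim
  | split i l r h1 h2 =>
    intro B hn hB hx h
    have h' : spl i B (fun a b => Bool.rec (motive := fun _ => Bool) false
      (chkM S.pack (CS.map fun CL => CL.map packC) cutf r b)
      (chkM S.pack (CS.map fun CL => CL.map packC) cutf l a)) = true := h
    obtain ⟨a, b, e1, e2, e3, e4, e5, e6⟩ := spl_specL i hB hx h'
    obtain ⟨f1, f2⟩ := recb e1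
    rcases e6 with e6 | e6
    · exact h1 (by rw [e2, hn]) e4 e6 f2
    · exact h2 (by rw [e3, hn]) e5 e6 f1
  | splitAt i m l r _ _ =>
    intro B hn hB hx h
    have h' : false = true := h
    exact absurd h' (by simp)

/-- The edges are correct. -/
def EdVL (ν : ℝ) (xs : List ℝ) : List (Poly × Poly × Poly × Poly) → List ℝ → Prop
  | e :: E, X :: T :: A => (e.1.val xs = ν * X ∧ e.2.1.val xs = ν * T ∧
      e.2.2.1.val xs = ν ∧ e.2.2.2.val xs = ν * 65536) ∧ EdVL ν xs E A
  | [], [] => True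
  | _, _ => False

theorem edOKL_of {ν : ℝ} {n : ℕ} {xs : List ℝ} (hx : xs.length = n)
    {ed : List (Poly × Poly × Poly × Poly)}
    (h : (ed.all fun e => okP n 67108864 (-1) 134217728 e.1 &&
      okP n 67108864 (-1) 134217728 e.2.1 && okP n 67108864 (-1) 134217728 e.2.2.1 &&
      okP n 67108864 (-1) 134217728 e.2.2.2) = true) {A : List ℝ} (hE : EdVL ν xs ed A) :
    EdOKL ν (yy xs) (ml n + 2) (ed.map fun e => (flat 67108864 (-1) e.1,
      flat 67108864 (-1) e.2.1, flat 67108864 (-1) e.2.2.1, flat 67108864 (-1) e.2.2.2)) A := by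
  induction ed generalizing A with
  | nil =>
    match A, hE with
    | [], _ => trivial
  | cons e ed ih =>
    match A, hE with
    | X :: T :: A, ⟨⟨v1, v2, v3, v4⟩, hE⟩ =>
      simp only [List.all_cons, Bool.and_eq_true] at h
      obtain ⟨⟨⟨⟨a1, a2⟩, a3⟩, a4⟩, h5⟩ := h
      obtain ⟨b1, b2, b3⟩ := flat_spec (by norm_num) (by norm_num) a1 hx
      obtain ⟨c1, c2, c3⟩ := flat_spec (by norm_num) (by norm_num) a2 hx
      obtain ⟨d1, d2, d3⟩ := flat_spec (by norm_num) (by norm_num) a3 hx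
      obtain ⟨e1, e2, e3⟩ := flat_spec (by norm_num) (by norm_num) a4 hx
      refine ⟨⟨b1, c1, d1, e1⟩, ⟨b2, c2, d2, e2⟩, ⟨?_, ?_, ?_, ?_⟩, ih (by
        simpa only [Bool.and_eq_true] using h5) hE⟩
      · rw [b3, v1]; push_cast; ring
      · rw [c3, v2]; push_cast; ring
      · rw [d3, v3]; push_cast; ring
      · rw [e3, v4]; push_cast; ring

/-- **The fast check of a problem.** -/
theorem fastL_sound {ν : ℝ} (hν : 0 ≤ ν) {p : PB} {n : ℕ} (hp : p.ok n = true) {F : FP}
    (hF : F = p.sp.pack) {CS : List (List (List (List Aff)))}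
    (hC : ∀ CL ∈ CS, ∀ C ∈ CL, okC C = true) {CC : List (List (List (List ℕ)))}
    (hCC : CC = CS.map fun CL => CL.map packC)
    {cutf : ℕ → List (ℕ × ℕ) → Bool} {t : Tree} {B : List (ℕ × ℕ)}
    (h : chkM F CC cutf t B = true) (hn : B.length = n)
    (hB : ∀ b ∈ B, b.1 ≤ 2048 ∧ b.2 ≤ 2048) {xs : List ℝ} (hx : MemN B xs)
    (hcut : ∀ k B, B.length = n → (∀ b ∈ B, b.1 ≤ 2048 ∧ b.2 ≤ 2048) → cutf k B = true →
      MemN B xs → False)
    (hg : ∀ g ∈ p.cs, 0 ≤ g.val xs) {A0 A : List ℝ} (hA0 : A0.length = 2 * p.ed.length)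
    (hk : Fb 16384 p.kp p.kn p.kp p.kn A0) (hRF : RF p.fs xs A0 = A) (hE : EdVL ν xs p.ed A)
    {z : ℝ} (hz : ∀ CL ∈ CS, BelL CL A z) : ν * z ≤ p.q.val xs := by
  simp only [PB.ok, Bool.and_eq_true, decide_eq_true_eq] at hp
  obtain ⟨⟨⟨⟨⟨⟨p1, p2⟩, p3⟩, p4⟩, p5⟩, p6⟩, p7⟩ := hp
  have hxn : xs.length = n := by rw [hx.length, hn]
  obtain ⟨q1, q2, q3⟩ := flat_spec (by norm_num) (by norm_num) p2 hxn
  have S : SpOKL ν p.sp n xs A := by
    refine ⟨p1, ⟨A0, ?_, hk, hRF⟩, ?_, ?_, ?_, q1, ?_, ?_⟩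
    · simpa [PB.sp] using hA0
    · simpa [PB.sp] using p3
    · exact edOKL_of hxn (by simpa only [Bool.and_eq_true] using p4) hE
    · intro l hl
      obtain ⟨g, hg', rfl⟩ := List.mem_map.1 hl
      obtain ⟨b1, b2, b3⟩ := flat_spec (by norm_num) (by norm_num)
        (List.all_eq_true.1 p5 g hg') hxn
      refine ⟨b1, b2, ?_⟩
      rw [b3]
      have := hg g hg'
      push_cast
      linarith
    · intro x hx
      have := q2 x hx
      exact this
    · simpa [PB.sp] using And.intro p6 p7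
  rw [hF, hCC] at h
  have key := chkM_spec hν S hC hcut hz t hn hB hx h
  have e : nd p.sp.q (yy xs) = p.q.val xs := by
    have : p.sp.q = flat 1125899906842624 1 p.q := rfl
    rw [this, q3]
    push_cast
    ring
  rwa [e] at key

/-! ### Pieces for the scale `1024` -/

/-- The pieces with the constants multiplied by `4`. -/
def sc4 (C : List (List Aff)) : List (List Aff) :=
  C.map fun F => F.map fun f => ⟨f.a, f.b, 4 * f.c⟩

/-- The negative functions, one piece each. -/
def ngL (F : List Aff) : List (List Aff) := F.map fun f => [⟨-f.a, -f.b, -f.c⟩]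

theorem leCb_sc4 {C : List (List Aff)} {X T z : ℝ} (h : LeCb C 1024 X T z) :
    LeCb (sc4 C) 256 X T z := by
  obtain ⟨F, hF, h⟩ := h
  refine ⟨F.map fun f => ⟨f.a, f.b, 4 * f.c⟩, List.mem_map.2 ⟨F, hF, rfl⟩, fun f hf => ?_⟩
  obtain ⟨g, hg, rfl⟩ := List.mem_map.1 hf
  have := h g hg
  unfold Aff.val at this ⊢
  push_cast at this ⊢
  linarith

theorem leCb_ng {R : List (List Aff)} {F : List Aff} (hF : F ∈ R) (hne : F ≠ []) {N : ℤ}
    (hN : 0 ≤ N) (X T : ℝ) :
    LeCb (ngL F) N (N * X) (N * T) (-(4096 * N * cbv R |X| |T|)) := by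
  obtain ⟨f, hf, e⟩ := exists_mnv hne |X| |T|
  refine ⟨[⟨-f.a, -f.b, -f.c⟩], List.mem_map.2 ⟨f, hf, rfl⟩, fun g hg => ?_⟩
  rw [List.mem_singleton.1 hg, val_eq _ hN]
  have h1 := le_cbv hF |X| |T|
  rw [e] at h1
  have h : (0 : ℝ) ≤ N := by exact_mod_cast hN
  have h2 : affv ⟨-f.a, -f.b, -f.c⟩ |X| |T| = -affv f |X| |T| := by
    unfold affv
    push_cast
    ring
  rw [h2]
  have := mul_le_mul_of_nonneg_left h1 (by positivity : (0 : ℝ) ≤ 4096 * N)
  linarith

end Pool.Agent.Strip051.LC.Box.Fast
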