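import Pool.Agent.Strip051.LC.Box.FastEv

/-! # The positivity of the polynomial on the box -/

namespace Pool.Agent.Strip051.LC.Box.Fast

/-! ### The bound of all digits by the last one -/

/-- Componentwise order. -/
def Le : List ℕ → List ℕ → Prop
  | a :: as, b :: bs => a ≤ b ∧ Le as bs
  | [], [] => True
  | _, _ => False

theorem nn_le {D v w : List ℕ} (h : Le v w) : nn D v ≤ nn D w := by
  induction D generalizing v w with
  | nil => simp
  | cons d D ih =>
    match v, w, h with
    | [], [], _ => exact le_rfl
    | a :: v, b :: w, ⟨h1, h2⟩ =>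
      simp only [nn_cons]
      exact Nat.add_le_add (Nat.mul_le_mul_left _ h1) (ih h2)

theorem Le.append {a b c d : List ℕ} (h : Le a b) (h' : Le c d) : Le (a ++ c) (b ++ d) := by
  induction a generalizing b with
  | nil =>
    cases b with
    | nil => exact h'
    | cons b bs => exact h.elim
  | cons a as ih =>
    cases b with
    | nil => exact h.elim
    | cons b bs => exact ⟨h.1, ih h.2⟩

theorem Le.map_mul {v w : List ℕ} (h : Le v w) {x y : ℕ} (hx : x ≤ y) :
    Le (v.map fun z => x * z) (w.map fun z => y * z) := by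
  induction v generalizing w with
  | nil =>
    cases w with
    | nil => trivial
    | cons b bs => exact h.elim
  | cons a as ih =>
    cases w with
    | nil => exact h.elim
    | cons b bs => exact ⟨Nat.mul_le_mul hx h.1, ih h.2⟩

theorem Le.mn {v w : List ℕ} (h : Le v w) : Le (mn v) (mn w) := by
  induction v generalizing w with
  | nil =>
    cases w with
    | nil => trivial
    | cons b bs => exact h.elim
  | cons a as ih =>
    cases w with
    | nil => exact h.elim
    | cons b bs => exact (ih h.2).append ⟨h.1, Nat.mul_le_mul h.1 h.1, h.2.map_mul h.1⟩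

theorem Le.sum {v w : List ℕ} (h : Le v w) : v.sum ≤ w.sum := by
  induction v generalizing w with
  | nil =>
    cases w with
    | nil => exact le_rfl
    | cons b bs => exact h.elim
  | cons a as ih =>
    cases w with
    | nil => exact h.elim
    | cons b bs =>
      simp only [List.sum_cons]
      exact Nat.add_le_add h.1 (ih h.2)

theorem verts_le {B : List (ℕ × ℕ)} (hB : ∀ b ∈ B, b.1 ≤ b.2) {v : List ℕ} (h : v ∈ verts B) :
    Le v (B.map Prod.snd) := by
  induction B generalizing v with
  | nil =>
    simp only [verts, List.mem_singleton] at h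
    subst h
    trivial
  | cons b B ih =>
    simp only [verts, List.mem_append, List.mem_map] at h
    have hb := hB b (by simp)
    have hB' : ∀ c ∈ B, c.1 ≤ c.2 := fun c hc => hB c (by simp [hc])
    rcases h with ⟨u, hu, rfl⟩ | ⟨u, hu, rfl⟩
    · exact ⟨hb, ih hB' hu⟩
    · exact ⟨le_rfl, ih hB' hu⟩

theorem verts_last (B : List (ℕ × ℕ)) :
    ∃ l, verts B = l ++ [B.map Prod.snd] ∧ l.length + 1 = 2 ^ B.length := by
  induction B with
  | nil => exact ⟨[], rfl, rfl⟩
  | cons b B ih =>
    obtain ⟨l, h1, h2⟩ := ih
    refine ⟨(verts B).map (b.1 :: ·) ++ l.map (b.2 :: ·), ?_, ?_⟩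
    · have e : (verts B).map (b.2 :: ·) = l.map (b.2 :: ·) ++ [b.2 :: B.map Prod.snd] := by
        rw [h1, List.map_append]
        rfl
      show (verts B).map (b.1 :: ·) ++ (verts B).map (b.2 :: ·) = _
      rw [e, List.append_assoc]
      rfl
    · simp only [List.length_append, List.length_map, length_verts, List.length_cons, pow_succ]
      omega

/-- If the packed number is small and the function is largest at the last vertex, all digits are
small. -/
theorem lt_of_lan {B : List (ℕ × ℕ)} {f : List ℕ → ℕ} (h : 2 * lan B f + 1 ≤ sh B)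
    (hf : ∀ v ∈ verts B, f v ≤ f (B.map Prod.snd)) : ∀ v ∈ verts B, f v < 2 ^ 95 := by
  obtain ⟨l, h1, h2⟩ := verts_last B
  have h3 : lan B f = pk (2 ^ 96) (l.map f) + (2 ^ 96) ^ l.length * f (B.map Prod.snd) := by
    unfold lan
    rw [h1, List.map_append, pk_append]
    simp
  have h4 : sh B = (2 ^ 96) ^ l.length * 2 ^ 96 := by
    unfold sh
    rw [← h2, pow_succ]
  have h5 : (2 ^ 96) ^ l.length * (2 * f (B.map Prod.snd)) < (2 ^ 96) ^ l.length * 2 ^ 96 := by
    rw [← h4]
    have : (2 ^ 96) ^ l.length * (2 * f (B.map Prod.snd)) ≤ 2 * lan B f := by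
      rw [h3]
      nlinarith [Nat.zero_le (pk (2 ^ 96) (l.map f))]
    omega
  have h6 : 2 * f (B.map Prod.snd) < 2 ^ 96 := Nat.lt_of_mul_lt_mul_left h5
  intro v hv
  have := hf v hv
  have e : (2 : ℕ) ^ 96 = 2 * 2 ^ 95 := by norm_num
  omega

/-! ### Separately concave functions -/

/-- Membership in a box. -/
def MemN : List (ℕ × ℕ) → List ℝ → Prop
  | b :: B, x :: xs => (b.1 : ℝ) ≤ x ∧ x ≤ b.2 ∧ MemN B xs
  | [], [] => True
  | _, _ => False

theorem MemN.le {B : List (ℕ × ℕ)} {xs : List ℝ} (h : MemN B xs) : ∀ b ∈ B, b.1 ≤ b.2 := by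
  induction B generalizing xs with
  | nil => simp
  | cons b B ih =>
    cases xs with
    | nil => exact h.elim
    | cons x xs =>
      obtain ⟨h1, h2, h3⟩ := h
      intro c hc
      rcases List.mem_cons.1 hc with rfl | hc
      · exact_mod_cast h1.trans h2
      · exact ih h3 c hc

theorem MemN.length {B : List (ℕ × ℕ)} {xs : List ℝ} (h : MemN B xs) :
    xs.length = B.length := by
  induction B generalizing xs with
  | nil =>
    cases xs with
    | nil => rfl
    | cons x xs => exact h.elim
  | cons b B ih =>
    cases xs with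
    | nil => exact h.elim
    | cons x xs => simp [ih h.2.2]

/-- The real vertex. -/
def rc (v : List ℕ) : List ℝ := v.map (Nat.cast : ℕ → ℝ)

theorem quad_ge {m k c K μ lo hi x : ℝ} (hm : m ≤ μ) (hμ : 0 ≤ μ) (h1 : lo ≤ x) (h2 : x ≤ hi)
    (f1 : K ≤ m * lo ^ 2 + k * lo + c) (f2 : K ≤ m * hi ^ 2 + k * hi + c) :
    K - μ * ((hi - lo) * (hi - lo)) / 4 ≤ m * x ^ 2 + k * x + c := by
  have key := concave_nonneg (m := m - μ) (k := k + μ * (lo + hi)) (c := c - K - μ * (lo * hi))
    (by linarith) h1 h2 (by nlinarith) (by nlinarith)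
  have h3 : 0 ≤ μ * ((2 * x - lo - hi) ^ 2) := mul_nonneg hμ (sq_nonneg _)
  nlinarith

/-- Affine in each variable. -/
def AF : ℕ → (List ℝ → ℝ) → Prop
  | 0, _ => True
  | n + 1, F => (∀ xs : List ℝ, ∃ b c : ℝ, ∀ x, F (x :: xs) = b * x + c) ∧
      ∀ x, AF n (fun xs => F (x :: xs))

theorem AF.add {n : ℕ} {F G : List ℝ → ℝ} (hF : AF n F) (hG : AF n G) :
    AF n (fun xs => F xs + G xs) := by
  induction n generalizing F G with
  | zero => trivial
  | succ n ih =>
    refine ⟨fun xs => ?_, fun x => ih (hF.2 x) (hG.2 x)⟩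
    obtain ⟨b, c, e⟩ := hF.1 xs
    obtain ⟨b', c', e'⟩ := hG.1 xs
    exact ⟨b + b', c + c', fun x => by beta_reduce; rw [e, e']; ring⟩

theorem AF.mul {n : ℕ} {F : List ℝ → ℝ} (k : ℝ) (hF : AF n F) : AF n (fun xs => k * F xs) := by
  induction n generalizing F with
  | zero => trivial
  | succ n ih =>
    refine ⟨fun xs => ?_, fun x => ih (hF.2 x)⟩
    obtain ⟨b, c, e⟩ := hF.1 xs
    exact ⟨k * b, k * c, fun x => by beta_reduce; rw [e]; ring⟩

theorem AF.const (n : ℕ) (k : ℝ) : AF n (fun _ => k) := by
  induction n with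
  | zero => trivial
  | succ n ih => exact ⟨fun xs => ⟨0, k, fun x => by ring⟩, fun x => ih⟩

theorem AF.nd (n : ℕ) (cr : List ℕ) : AF n (fun xs => nd cr xs) := by
  induction n generalizing cr with
  | zero => trivial
  | succ n ih =>
    cases cr with
    | nil =>
      simp only [nd_nil]
      exact AF.const _ 0
    | cons c cr =>
      refine ⟨fun xs => ⟨c, Fast.nd cr xs, fun x => rfl⟩, fun x => ?_⟩
      simp only [nd_cons]
      exact (AF.const n _).add (ih cr)

theorem AF.sum (n : ℕ) : AF n (fun xs => xs.sum) := by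
  induction n with
  | zero => trivial
  | succ n ih =>
    refine ⟨fun xs => ⟨1, xs.sum, fun x => by beta_reduce; rw [List.sum_cons]; ring⟩, fun x => ?_⟩
    simp only [List.sum_cons]
    exact (AF.const n _).add ih

/-- The real monomials. -/
def mr : List ℝ → List ℝ
  | [] => []
  | x :: v => mr v ++ (x :: x * x :: v.map fun y => x * y)

theorem length_mr (v : List ℝ) : (mr v).length = ml v.length := by
  induction v with
  | nil => rfl
  | cons x v ih => simp [mr, ml, ih]

theorem nd_append {a b : List ℕ} {x y : List ℝ} (h : a.length = x.length) :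
    nd (a ++ b) (x ++ y) = nd a x + nd b y := by
  induction a generalizing x with
  | nil =>
    cases x with
    | nil => simp
    | cons x xs => simp at h
  | cons a as ih =>
    cases x with
    | nil => simp at h
    | cons x xs =>
      simp only [List.cons_append, nd_cons]
      rw [ih (by simpa using h)]
      ring

theorem nd_map_mul (a : List ℕ) (x : List ℝ) (T : ℝ) :
    nd a (x.map fun y => T * y) = T * nd a x := by
  induction a generalizing x with
  | nil => simp
  | cons a as ih =>
    cases x with
    | nil => simp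
    | cons x xs =>
      simp only [List.map_cons, nd_cons, ih]
      ring

theorem nd_mr {D cr : List ℕ} {v : List ℝ} {l m : ℕ} {x : ℝ} (hD : D.length = ml v.length) :
    nd (D ++ l :: m :: cr) (mr (x :: v)) = nd D (mr v) + (l * x + (m * (x * x) + x * nd cr v)) := by
  rw [mr, nd_append (by rw [hD, length_mr])]
  simp only [nd_cons, nd_map_mul]

theorem sum_mr (x : ℝ) (v : List ℝ) :
    (mr (x :: v)).sum = (mr v).sum + (x + (x * x + x * v.sum)) := by
  simp only [mr, List.sum_append, List.sum_cons]
  rw [List.sum_map_mul_left]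
  simp

theorem nd_rc (D v : List ℕ) : nd D (rc v) = (nn D v : ℕ) := by
  induction D generalizing v with
  | nil => simp
  | cons d D ih =>
    cases v with
    | nil => simp [rc]
    | cons x v =>
      have := ih v
      unfold rc at this ⊢
      simp only [List.map_cons, nd_cons, nn_cons, this]
      push_cast
      ring

theorem mr_rc (v : List ℕ) : mr (rc v) = rc (mn v) := by
  induction v with
  | nil => rfl
  | cons x v ih =>
    unfold rc at ih ⊢
    simp only [List.map_cons, mr, mn, ih, List.map_append, List.map_map]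
    congr 3
    · push_cast
      rfl
    · refine List.map_congr_left fun y _ => ?_
      simp

theorem sum_rc (v : List ℕ) : (rc v).sum = (v.sum : ℕ) := by
  induction v with
  | nil => simp [rc]
  | cons x v ih =>
    unfold rc at ih ⊢
    simp only [List.map_cons, List.sum_cons, ih]
    push_cast
    ring

/-- **The minimum is attained at the vertices, up to the correction.** -/
theorem Conc.ge {β : ℕ} {B : List (ℕ × ℕ)} {D : List ℕ} {C : ℕ} (h : Conc β B D C)
    {ℓ : List ℝ → ℝ} (hℓ : AF B.length ℓ) {K : ℝ}
    (hv : ∀ v ∈ verts B, K ≤ nd D (mr (rc v)) - β * (mr (rc v)).sum + ℓ (rc v)) {xs : List ℝ}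
    (hx : MemN B xs) : K - C / 4 ≤ nd D (mr xs) - β * (mr xs).sum + ℓ xs := by
  induction B generalizing D C ℓ xs with
  | nil =>
    have hC : C = 0 := h
    cases xs with
    | nil =>
      have := hv [] (by simp [verts])
      rw [hC]
      simpa [rc] using this
    | cons x xs => exact hx.elim
  | cons b B ih =>
    cases xs with
    | nil => exact hx.elim
    | cons x xs =>
      obtain ⟨x1, x2, hx⟩ := hx
      obtain ⟨D1, l, m, cr, C1, rfl, h1, h2, h3, rfl⟩ := h
      have hb : b.1 ≤ b.2 := by exact_mod_cast x1.trans x2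
      have id1 : ∀ (y : ℝ) (ys : List ℝ), ys.length = B.length →
          nd (D1 ++ l :: m :: cr) (mr (y :: ys)) - β * (mr (y :: ys)).sum + ℓ (y :: ys) =
          nd D1 (mr ys) - β * (mr ys).sum + (ℓ (y :: ys) + ((l * y + m * (y * y) -
            β * (y + y * y)) + (y * nd cr ys + (-(β * y)) * ys.sum))) := by
        intro y ys hy
        rw [nd_mr (by rw [hy]; exact h1), sum_mr]
        ring
      have af : ∀ y : ℝ, AF B.length (fun ys => ℓ (y :: ys) + ((l * y + m * (y * y) -
            β * (y + y * y)) + (y * nd cr ys + (-(β * y)) * ys.sum))) := fun y =>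
        (hℓ.2 y).add ((AF.const _ _).add (((AF.nd _ cr).mul y).add ((AF.sum _).mul _)))
      have rl : ∀ v ∈ verts B, (rc v).length = B.length := fun v hv' => by
        rw [rc, List.length_map, length_of_verts hv']
      have k1 := ih h3 (af b.1) (fun v hv' => by
        have := hv (b.1 :: v) (by
          simp only [verts, List.mem_append, List.mem_map]
          exact Or.inl ⟨v, hv', rfl⟩)
        rw [show rc (b.1 :: v) = (b.1 : ℝ) :: rc v from rfl, id1 _ _ (rl v hv')] at this
        exact this) hx
      have k2 := ih h3 (af b.2) (fun v hv' => by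
        have := hv (b.2 :: v) (by
          simp only [verts, List.mem_append, List.mem_map]
          exact Or.inr ⟨v, hv', rfl⟩)
        rw [show rc (b.2 :: v) = (b.2 : ℝ) :: rc v from rfl, id1 _ _ (rl v hv')] at this
        exact this) hx
      rw [← id1 _ _ hx.length] at k1 k2
      obtain ⟨p, q, e⟩ := hℓ.1 xs
      have quad : ∀ y : ℝ, nd (D1 ++ l :: m :: cr) (mr (y :: xs)) - β * (mr (y :: xs)).sum +
          ℓ (y :: xs) = (m - β) * y ^ 2 + (l + nd cr xs - β - β * xs.sum + p) * y +
          (nd D1 (mr xs) - β * (mr xs).sum + q) := by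
        intro y
        rw [id1 _ _ hx.length, e]
        ring
      rw [quad] at k1 k2 ⊢
      have hμ : (m : ℝ) - β ≤ ((m - β : ℕ) : ℝ) := by
        have : m ≤ (m - β) + β := by omega
        have : (m : ℝ) ≤ ((m - β : ℕ) : ℝ) + β := by exact_mod_cast this
        linarith
      have := quad_ge hμ (Nat.cast_nonneg _) x1 x2 k1 k2
      push_cast [Nat.cast_sub hb] at this ⊢
      linarith

/-- **The check of the polynomial.** -/
theorem fin_spec {B : List (ℕ × ℕ)} {D : List ℕ} {β c : ℕ} (hD : D.length = ml B.length)
    (hl : ∀ d ∈ β :: (D ++ [c]), d < 18446744073709551616)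
    (h : fin B (pk 18446744073709551616 (β :: (D ++ [c]))) = true) {xs : List ℝ}
    (hx : MemN B xs) : 0 ≤ nd D (mr xs) - β * (mr xs).sum + (c - β) := by
  have hβ : β < 18446744073709551616 := hl β (by simp)
  have hc : c < 18446744073709551616 := hl c (by simp)
  have h0 : ev B (fun one S _ _ V V1 C Z' =>
      Bool.rec (motive := fun _ => Bool) false
        (Bool.rec (motive := fun _ => Bool) false
          (dle (39614081257132168796771975168 * one) (V + Z' * one)
            (pk 18446744073709551616 (β :: (D ++ [c])) % 18446744073709551616 * (V1 + one) +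
              (C + 3) / 4 * one))
          (Nat.ble (2 * (pk 18446744073709551616 (β :: (D ++ [c])) % 18446744073709551616 *
            (V1 + one) + (C + 3) / 4 * one) + 1) S))
        (Nat.ble (2 * (V + Z' * one) + 1) S))
      (pk 18446744073709551616 (β :: (D ++ [c])) % 18446744073709551616)
      (pk 18446744073709551616 (β :: (D ++ [c])) / 18446744073709551616) = true := h
  rw [pk_mod hβ, pk_div hβ] at h0
  obtain ⟨C, hC, h1⟩ := ev_spec hD (fun d hd => hl d (List.mem_cons_of_mem _ hd)) h0
  have e1 : pk 18446744073709551616 [c] = c := by simp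
  rw [e1] at h1
  have eP : (lan B fun v => nn D (mn v)) + c * (lan B fun _ => 1) =
      lan B fun v => nn D (mn v) + c := by
    rw [lan_add, lan_const B c]
  have eM : β * ((lan B fun v => (mn v).sum) + (lan B fun _ => 1)) +
      (C + 3) / 4 * (lan B fun _ => 1) =
      lan B fun v => β * ((mn v).sum + 1) + (C + 3) / 4 := by
    rw [lan_add, lan_mul, lan_add, lan_const B ((C + 3) / 4)]
  rw [eP, eM] at h1
  cases hb1 : Nat.ble (2 * (lan B fun v => nn D (mn v) + c) + 1) (sh B) with
  | false => rw [hb1] at h1; exact absurd h1 (by simp)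
  | true =>
    rw [hb1] at h1
    simp only at h1
    cases hb2 : Nat.ble (2 * (lan B fun v => β * ((mn v).sum + 1) + (C + 3) / 4) + 1) (sh B) with
    | false => rw [hb2] at h1; exact absurd h1 (by simp)
    | true =>
      rw [hb2] at h1
      simp only at h1
      have b1 := Nat.ble_eq.mp hb1
      have b2 := Nat.ble_eq.mp hb2
      have hB := hx.le
      have q1 := lt_of_lan b1 (fun v hv => Nat.add_le_add_right
        (nn_le (verts_le hB hv).mn) _)
      have q2 := lt_of_lan b2 (fun v hv => Nat.add_le_add_right
        (Nat.mul_le_mul_left _ (Nat.add_le_add_right (verts_le hB hv).mn.sum _)) _)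
      have h2 : dle (2 ^ 95 * pk (2 ^ (95 + 1)) ((verts B).map fun _ => 1))
          (pk (2 ^ (95 + 1)) ((verts B).map fun v => nn D (mn v) + c))
          (pk (2 ^ (95 + 1)) ((verts B).map fun v => β * ((mn v).sum + 1) + (C + 3) / 4)) =
          true := h1
      have key := dle_sound q1 q2 h2
      have hC4 : (C : ℝ) / 4 ≤ (((C + 3) / 4 : ℕ) : ℝ) := by
        have : C ≤ 4 * ((C + 3) / 4) := by omega
        have : (C : ℝ) ≤ 4 * (((C + 3) / 4 : ℕ) : ℝ) := by exact_mod_cast this
        linarith
      have sc := hC.ge (AF.const B.length ((c : ℝ) - β)) (K := (((C + 3) / 4 : ℕ) : ℝ))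
        (fun v hv => by
          have k := key v hv
          simp only [mr_rc, nd_rc, sum_rc]
          have k' : ((β * ((mn v).sum + 1) + (C + 3) / 4 : ℕ) : ℝ) ≤
              ((nn D (mn v) + c : ℕ) : ℝ) := by
            exact_mod_cast k
          push_cast at k' ⊢
          linarith) hx
      linarith

end Pool.Agent.Strip051.LC.Box.Fast
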