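import Pool.Agent.Strip051.LC.Box.FastEdge
import Pool.Agent.Strip051.LC.Box.FastPos

/-! # The check of a leaf and of a certificate -/

namespace Pool.Agent.Strip051.LC.Box.Fast

open Pool.Agent.Strip051.LC.Box

/-! ### The forms -/

/-- `a + x (u - v)`. -/
def ax (x : ℝ) : List ℕ → List ℕ → List ℝ → List ℝ
  | u :: us, v :: vs, a :: as => (a + x * (u - v)) :: ax x us vs as
  | _, _, _ => []

/-- The values of all forms. -/
def RF : List (List ℕ × List ℕ) → List ℝ → List ℝ → List ℝ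
  | f :: FS, x :: xs, a => RF FS xs (ax x f.1 f.2 a)
  | _, _, a => a

/-- Bounds of the forms. -/
def Fb (M : ℕ) : List ℕ → List ℕ → List ℕ → List ℕ → List ℝ → Prop
  | p0 :: P0, n0 :: N0, p1 :: P1, n1 :: N1, a :: A => p0 ≤ M ∧ n0 ≤ M ∧ p1 ≤ M ∧ n1 ≤ M ∧
      (p0 : ℝ) - n0 ≤ a ∧ a ≤ (p1 : ℝ) - n1 ∧ Fb M P0 N0 P1 N1 A
  | [], [], [], [], [] => True
  | _, _, _, _, _ => False

theorem Fb.uncons {M : ℕ} {P0 N0 P1 N1 : List ℕ} {a : ℝ} {A : List ℝ}
    (h : Fb M P0 N0 P1 N1 (a :: A)) : ∃ p0 n0 p1 n1 P0' N0' P1' N1',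
      P0 = p0 :: P0' ∧ N0 = n0 :: N0' ∧ P1 = p1 :: P1' ∧ N1 = n1 :: N1' ∧
      p0 ≤ M ∧ n0 ≤ M ∧ p1 ≤ M ∧ n1 ≤ M ∧
      (p0 : ℝ) - n0 ≤ a ∧ a ≤ (p1 : ℝ) - n1 ∧ Fb M P0' N0' P1' N1' A := by
  cases P0 <;> cases N0 <;> cases P1 <;> cases N1 <;>
    first
    | exact (h : False).elim
    | exact ⟨_, _, _, _, _, _, _, _, rfl, rfl, rfl, rfl, h⟩

/-- The coefficients of a variable are good. -/
def okf (n : ℕ) (f : List ℕ × List ℕ) : Bool :=
  decide (f.1.length = n) && decide (f.2.length = n) && f.1.all (fun x => decide (x ≤ 2)) &&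
    f.2.all (fun x => decide (x ≤ 2))

theorem Fb.step {M : ℕ} {P0 N0 P1 N1 : List ℕ} {A : List ℝ} (h : Fb M P0 N0 P1 N1 A)
    {us vs : List ℕ} (h1 : us.length = A.length) (h2 : vs.length = A.length)
    (hu : ∀ x ∈ us, x ≤ 2) (hv : ∀ x ∈ vs, x ≤ 2) {b : ℕ × ℕ} (hb1 : b.1 ≤ 1024)
    (hb2 : b.2 ≤ 1024) {x : ℝ} (hx1 : (b.1 : ℝ) ≤ x) (hx2 : x ≤ b.2) :
    Fb (M + 2048) (axp b.1 us P0) (axp b.2 vs N0) (axp b.2 us P1) (axp b.1 vs N1)
      (ax x us vs A) := by
  induction A generalizing us vs P0 N0 P1 N1 with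
  | nil =>
    have e1 : us = [] := List.length_eq_zero_iff.1 h1
    have e2 : vs = [] := List.length_eq_zero_iff.1 h2
    subst e1 e2
    cases P0 <;> cases N0 <;> cases P1 <;> cases N1 <;>
      first
      | exact (h : False).elim
      | exact trivial
  | cons a A ih =>
    obtain ⟨p0, n0, p1, n1, P0, N0, P1, N1, rfl, rfl, rfl, rfl, a1, a2, a3, a4, a5, a6, a7⟩ :=
      h.uncons
    match us, vs, h1, h2 with
    | u :: us, v :: vs, h1, h2 =>
      have u2 : u ≤ 2 := hu u (by simp)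
      have v2 : v ≤ 2 := hv v (by simp)
      have m1 : b.1 * u ≤ 2048 := by
        calc b.1 * u ≤ 1024 * 2 := Nat.mul_le_mul hb1 u2
          _ = _ := by norm_num
      have m2 : b.2 * u ≤ 2048 := by
        calc b.2 * u ≤ 1024 * 2 := Nat.mul_le_mul hb2 u2
          _ = _ := by norm_num
      have m3 : b.1 * v ≤ 2048 := by
        calc b.1 * v ≤ 1024 * 2 := Nat.mul_le_mul hb1 v2
          _ = _ := by norm_num
      have m4 : b.2 * v ≤ 2048 := by
        calc b.2 * v ≤ 1024 * 2 := Nat.mul_le_mul hb2 v2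
          _ = _ := by norm_num
      have ur : (0 : ℝ) ≤ u := Nat.cast_nonneg u
      have vr : (0 : ℝ) ≤ v := Nat.cast_nonneg v
      refine ⟨by omega, by omega, by omega, by omega, ?_, ?_,
        ih a7 (by simpa using h1) (by simpa using h2) (fun x h => hu x (by simp [h]))
          (fun x h => hv x (by simp [h]))⟩
      · push_cast
        nlinarith [mul_le_mul_of_nonneg_right hx1 ur, mul_le_mul_of_nonneg_right hx2 vr]
      · push_cast
        nlinarith [mul_le_mul_of_nonneg_right hx2 ur, mul_le_mul_of_nonneg_right hx1 vr]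
    | [], _, h1, _ => simp at h1
    | _ :: _, [], _, h2 => simp at h2

theorem length_ax {x : ℝ} {us vs : List ℕ} {A : List ℝ} (h1 : us.length = A.length)
    (h2 : vs.length = A.length) : (ax x us vs A).length = A.length := by
  induction A generalizing us vs with
  | nil =>
    have e1 : us = [] := List.length_eq_zero_iff.1 h1
    subst e1
    rfl
  | cons a A ih =>
    cases us with
    | nil => simp at h1
    | cons u us =>
      cases vs with
      | nil => simp at h2
      | cons v vs =>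
        simp only [ax, List.length_cons]
        rw [ih (by simpa using h1) (by simpa using h2)]

theorem frm_nil (fm : List (ℕ × ℕ)) (k : ℕ → ℕ → ℕ → ℕ → Bool) (P0 N0 P1 N1 : ℕ) :
    frm [] fm k P0 N0 P1 N1 = k P0 N0 P1 N1 := rfl

theorem frm_cons (b : ℕ × ℕ) (B : List (ℕ × ℕ)) (f : ℕ × ℕ) (fm : List (ℕ × ℕ))
    (k : ℕ → ℕ → ℕ → ℕ → Bool) (P0 N0 P1 N1 : ℕ) :
    frm (b :: B) (f :: fm) k P0 N0 P1 N1 =
      frm B fm k (P0 + b.1 * f.1) (N0 + b.2 * f.2) (P1 + b.2 * f.1) (N1 + b.1 * f.2) := rfl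

theorem frm_cons_nil (b : ℕ × ℕ) (B : List (ℕ × ℕ)) (k : ℕ → ℕ → ℕ → ℕ → Bool)
    (P0 N0 P1 N1 : ℕ) : frm (b :: B) [] k P0 N0 P1 N1 = false := rfl

/-- The packed coefficients. -/
def pf (f : List ℕ × List ℕ) : ℕ × ℕ := (pk 65536 f.1, pk 65536 f.2)

theorem frm_spec {B : List (ℕ × ℕ)} (hB : ∀ b ∈ B, b.1 ≤ 1024 ∧ b.2 ≤ 1024) {xs : List ℝ}
    (hx : MemN B xs) {FS : List (List ℕ × List ℕ)} {n : ℕ} (hF : FS.all (okf n) = true) {M : ℕ}
    {P0 N0 P1 N1 : List ℕ} {A : List ℝ} (hA : A.length = n) (h : Fb M P0 N0 P1 N1 A)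
    {k : ℕ → ℕ → ℕ → ℕ → Bool}
    (hk : frm B (FS.map pf) k (pk 65536 P0) (pk 65536 N0) (pk 65536 P1) (pk 65536 N1) = true) :
    ∃ P0' N0' P1' N1', k (pk 65536 P0') (pk 65536 N0') (pk 65536 P1') (pk 65536 N1') = true ∧
      Fb (M + 2048 * B.length) P0' N0' P1' N1' (RF FS xs A) ∧ (RF FS xs A).length = n := by
  induction B generalizing FS xs P0 N0 P1 N1 A M with
  | nil =>
    cases xs with
    | cons x xs => exact hx.elim
    | nil =>
      rw [frm_nil] at hk
      have e : RF FS [] A = A := by cases FS <;> rfl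
      rw [e]
      exact ⟨P0, N0, P1, N1, hk, by simpa using h, hA⟩
  | cons b B ih =>
    cases xs with
    | nil => exact hx.elim
    | cons x xs =>
      obtain ⟨h1, h2, h3⟩ := hx
      cases FS with
      | nil =>
        rw [List.map_nil, frm_cons_nil] at hk
        exact absurd hk (by simp)
      | cons f FS =>
        simp only [List.all_cons, Bool.and_eq_true] at hF
        obtain ⟨f1, f2⟩ := hF
        simp only [okf, Bool.and_eq_true, decide_eq_true_eq, List.all_eq_true] at f1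
        obtain ⟨⟨⟨g1, g2⟩, g3⟩, g4⟩ := f1
        have hb := hB b (by simp)
        have st := h.step (us := f.1) (vs := f.2) (by rw [g1, hA]) (by rw [g2, hA]) g3 g4 hb.1 hb.2
          h1 h2
        have hl := length_ax (x := x) (us := f.1) (vs := f.2) (A := A) (by rw [g1, hA])
          (by rw [g2, hA])
        rw [List.map_cons, frm_cons] at hk
        simp only [pf] at hk
        rw [← pk_axp, ← pk_axp, ← pk_axp, ← pk_axp] at hk
        obtain ⟨P0', N0', P1', N1', e1, e2, e3⟩ := ih (fun c hc => hB c (by simp [hc])) h3 f2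
          (hl.trans hA) st hk
        refine ⟨P0', N0', P1', N1', e1, ?_, e3⟩
        rw [List.length_cons, show M + 2048 * (B.length + 1) = M + 2048 + 2048 * B.length by ring]
        exact e2

/-! ### The edges -/

/-- The packed polynomials of an edge. -/
def pe (e : List ℕ × List ℕ × List ℕ × List ℕ) : ℕ × ℕ × ℕ × ℕ :=
  (pk 18446744073709551616 e.1, pk 18446744073709551616 e.2.1, pk 18446744073709551616 e.2.2.1,
    pk 18446744073709551616 e.2.2.2)

/-- The polynomials of the edges are correct at the point `y`. -/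
def EdOK (y : List ℝ) (L : ℕ) : List (List ℕ × List ℕ × List ℕ × List ℕ) → List ℝ → Prop
  | e :: E, X :: T :: A => (e.1.length = L ∧ e.2.1.length = L ∧ e.2.2.1.length = L ∧
      e.2.2.2.length = L) ∧ ((∀ x ∈ e.1, x ≤ 134217728) ∧ (∀ x ∈ e.2.1, x ≤ 134217728) ∧
      (∀ x ∈ e.2.2.1, x ≤ 134217728) ∧ (∀ x ∈ e.2.2.2, x ≤ 134217728)) ∧
      (nd e.1 y = -(256 * X) ∧ nd e.2.1 y = -(256 * T) ∧ nd e.2.2.1 y = -256 ∧
      nd e.2.2.2 y = -(256 * 65536)) ∧ EdOK y L E A
  | [], [] => True
  | _, _ => False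

/-- The sum over the edges. -/
inductive Bel (C : List (List Aff)) : List ℝ → ℝ → Prop
  | nil : Bel C [] 0
  | cons {X T w z : ℝ} {A : List ℝ} (h : LeCb C 256 X T w) (h' : Bel C A z) :
      Bel C (X :: T :: A) (w + 32768 * X + 32768 * T + 8388608 + z)

theorem eds_nil (C : List (List ℕ)) (k : ℕ → ℕ → Bool) (P0 N0 P1 N1 d z : ℕ) :
    eds C [] k P0 N0 P1 N1 d z = k d z := rfl

theorem eds_cons (C : List (List ℕ)) (e : ℕ × ℕ × ℕ × ℕ) (E : List (ℕ × ℕ × ℕ × ℕ))
    (k : ℕ → ℕ → Bool) (P0 N0 P1 N1 d z : ℕ) :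
    eds C (e :: E) k P0 N0 P1 N1 d z =
      edge C (P0 % 65536) (N0 % 65536) (P1 % 65536) (N1 % 65536) (P0 / 65536 % 65536)
        (N0 / 65536 % 65536) (P1 / 65536 % 65536) (N1 / 65536 % 65536) (d % 65536)
        (d / 65536 % 65536) (d / 4294967296 % 65536 + 65536 * (d / 281474976710656 % 65536))
        (fun d' => eds C E k (P0 / 4294967296) (N0 / 4294967296) (P1 / 4294967296)
          (N1 / 4294967296) d' (z + d % 65536 * e.1 + (d / 65536 % 65536 * e.2.1 +
            (d / 4294967296 % 65536 * e.2.2.1 + d / 281474976710656 % 65536 * e.2.2.2))))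
        (d / 18446744073709551616) := rfl

theorem eds_spec {C : List (List Aff)} (hC : okC C = true) {y : List ℝ} {L : ℕ}
    {ED : List (List ℕ × List ℕ × List ℕ × List ℕ)} {A : List ℝ} (hE : EdOK y L ED A)
    {P0 N0 P1 N1 : List ℕ} {M : ℕ} (hM : M < 65536) (hF : Fb M P0 N0 P1 N1 A)
    {k : ℕ → ℕ → Bool} {d : ℕ} {acc : List ℕ} (hL : acc.length = L) {G : ℕ}
    (hG : ∀ x ∈ acc, x ≤ G)
    (h : eds (packC C) (ED.map pe) k (pk 65536 P0) (pk 65536 N0) (pk 65536 P1) (pk 65536 N1) d
      (pk 18446744073709551616 acc) = true) :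
    ∃ d' acc', k d' (pk 18446744073709551616 acc') = true ∧ acc'.length = L ∧
      (∀ x ∈ acc', x ≤ G + 35184372088832 * ED.length) ∧
      ∀ z, Bel C A z → nd acc' y ≤ nd acc y - 256 * z := by
  induction ED generalizing A P0 N0 P1 N1 d acc G with
  | nil =>
    cases A with
    | cons a A => exact hE.elim
    | nil =>
      rw [List.map_nil, eds_nil] at h
      refine ⟨d, acc, h, hL, by simpa using hG, fun z hz => ?_⟩
      cases hz
      simp
  | cons e ED ih =>
    match A, hE with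
    | [], hE => exact hE.elim
    | [_], hE => exact hE.elim
    | X :: T :: A, ⟨⟨l1, l2, l3, l4⟩, ⟨m1, m2, m3, m4⟩, ⟨v1, v2, v3, v4⟩, hE⟩ =>
      obtain ⟨p0, n0, p1, n1, P0, N0, P1, N1, rfl, rfl, rfl, rfl, a1, a2, a3, a4, a5, a6, hF⟩ :=
        hF.uncons
      obtain ⟨q0, u0, q1, u1, P0, N0, P1, N1, rfl, rfl, rfl, rfl, b1, b2, b3, b4, b5, b6, hF⟩ :=
        hF.uncons
      · rw [List.map_cons, eds_cons] at h
        have dig : ∀ {a b : ℕ} {l : List ℕ}, a < 65536 → b < 65536 →
            pk 65536 (a :: b :: l) % 65536 = a ∧ pk 65536 (a :: b :: l) / 65536 % 65536 = b ∧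
            pk 65536 (a :: b :: l) / 4294967296 = pk 65536 l := by
          intro a b l ha hb
          refine ⟨pk_mod ha _, ?_, ?_⟩
          · rw [pk_div ha, pk_mod hb]
          · rw [show (4294967296 : ℕ) = 65536 * 65536 by norm_num, ← Nat.div_div_eq_div_mul,
              pk_div ha, pk_div hb]
        obtain ⟨c1, c2, c3⟩ := dig (l := P0) (a1.trans_lt hM) (b1.trans_lt hM)
        obtain ⟨c4, c5, c6⟩ := dig (l := N0) (a2.trans_lt hM) (b2.trans_lt hM)
        obtain ⟨c7, c8, c9⟩ := dig (l := P1) (a3.trans_lt hM) (b3.trans_lt hM)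
        obtain ⟨c10, c11, c12⟩ := dig (l := N1) (a4.trans_lt hM) (b4.trans_lt hM)
        rw [c1, c2, c3, c4, c5, c6, c7, c8, c9, c10, c11, c12] at h
        obtain ⟨g1, hg1⟩ : ∃ g1, g1 = d % 65536 := ⟨_, rfl⟩
        obtain ⟨g2, hg2⟩ : ∃ g2, g2 = d / 65536 % 65536 := ⟨_, rfl⟩
        obtain ⟨h0, hh0⟩ : ∃ h0, h0 = d / 4294967296 % 65536 := ⟨_, rfl⟩
        obtain ⟨h1, hh1⟩ : ∃ h1, h1 = d / 281474976710656 % 65536 := ⟨_, rfl⟩
        rw [← hg1, ← hg2, ← hh0, ← hh1] at h
        have g1' : g1 < 65536 := by omega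
        have g2' : g2 < 65536 := by omega
        have h0' : h0 < 65536 := by omega
        have h1' : h1 < 65536 := by omega
        obtain ⟨e1, d', e2⟩ := edge_spec hC (a1.trans_lt hM) (a2.trans_lt hM) (a3.trans_lt hM)
          (a4.trans_lt hM) (b1.trans_lt hM) (b2.trans_lt hM) (b3.trans_lt hM) (b4.trans_lt hM)
          g1'.le g2'.le (by omega) h a5 a6 b5 b6
        simp only [pe] at e2
        rw [show pk 18446744073709551616 acc + g1 * pk 18446744073709551616 e.1 +
          (g2 * pk 18446744073709551616 e.2.1 + (h0 * pk 18446744073709551616 e.2.2.1 +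
            h1 * pk 18446744073709551616 e.2.2.2)) = pk 18446744073709551616
            (axp h1 e.2.2.2 (axp h0 e.2.2.1 (axp g2 e.2.1 (axp g1 e.1 acc)))) by
          rw [pk_axp, pk_axp, pk_axp, pk_axp]
          ring] at e2
        have L1 : (axp g1 e.1 acc).length = L := (length_axp (by rw [l1, hL])).trans hL
        have L2 : (axp g2 e.2.1 (axp g1 e.1 acc)).length = L :=
          (length_axp (by rw [l2, L1])).trans L1
        have L3 : (axp h0 e.2.2.1 (axp g2 e.2.1 (axp g1 e.1 acc))).length = L :=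
          (length_axp (by rw [l3, L2])).trans L2
        have L4 : (axp h1 e.2.2.2 (axp h0 e.2.2.1 (axp g2 e.2.1 (axp g1 e.1 acc)))).length = L :=
          (length_axp (by rw [l4, L3])).trans L3
        have G1 := axp_le (k := g1) m1 hG
        have G2 := axp_le (k := g2) m2 G1
        have G3 := axp_le (k := h0) m3 G2
        have G4 := axp_le (k := h1) m4 G3
        have G5 : ∀ x ∈ axp h1 e.2.2.2 (axp h0 e.2.2.1 (axp g2 e.2.1 (axp g1 e.1 acc))),
            x ≤ G + 35184372088832 := by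
          intro x hx
          have := G4 x hx
          omega
        obtain ⟨d'', acc', f1, f2, f3, f4⟩ := ih hE hF L4 G5 e2
        refine ⟨d'', acc', f1, f2, fun x hx => ?_, fun z hz => ?_⟩
        · have := f3 x hx
          rw [List.length_cons]
          omega
        · cases hz with
          | cons hw hz' =>
            rename_i w z'
            have k1 := f4 _ hz'
            have k2 := e1 w hw
            rw [nd_axp, nd_axp, nd_axp, nd_axp, v1, v2, v3, v4] at k1
            push_cast at k2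
            linarith

theorem zs_spec {CS : List (List ℕ)} {y : List ℝ} {L : ℕ}
    (hS : ∀ l ∈ CS, l.length = L ∧ (∀ x ∈ l, x ≤ 134217728) ∧ nd l y ≤ 0)
    {k : ℕ → ℕ → Bool} {d : ℕ} {acc : List ℕ} (hL : acc.length = L) {G : ℕ}
    (hG : ∀ x ∈ acc, x ≤ G)
    (h : zs (CS.map (pk 18446744073709551616)) k d (pk 18446744073709551616 acc) = true) :
    ∃ d' acc', k d' (pk 18446744073709551616 acc') = true ∧ acc'.length = L ∧
      (∀ x ∈ acc', x ≤ G + 8796093022208 * CS.length) ∧ nd acc' y ≤ nd acc y := by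
  induction CS generalizing d acc G with
  | nil => exact ⟨d, acc, h, hL, by simpa using hG, le_rfl⟩
  | cons l CS ih =>
    rw [List.map_cons, zs_cons, ← pk_axp] at h
    obtain ⟨h1, h2, h3⟩ := hS l (by simp)
    have hd : d % 65536 < 65536 := by omega
    have G1 : ∀ x ∈ axp (d % 65536) l acc, x ≤ G + 8796093022208 := by
      intro x hx
      have := axp_le (k := d % 65536) h2 hG x hx
      omega
    obtain ⟨d', acc', f1, f2, f3, f4⟩ := ih (fun l hl => hS l (by simp [hl]))
      ((length_axp (by rw [h1, hL])).trans hL) G1 h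
    refine ⟨d', acc', f1, f2, fun x hx => ?_, f4.trans ?_⟩
    · have := f3 x hx
      rw [List.length_cons]
      omega
    · rw [nd_axp]
      have : (0 : ℝ) ≤ ((d % 65536 : ℕ) : ℝ) := Nat.cast_nonneg _
      nlinarith

/-! ### Leaves -/

/-- The unpacked data of a problem. -/
structure Sp where
  q : List ℕ
  fs : List (List ℕ × List ℕ)
  kp : List ℕ
  kn : List ℕ
  ed : List (List ℕ × List ℕ × List ℕ × List ℕ)
  cs : List (List ℕ)

/-- The packed data. -/
def Sp.pack (S : Sp) : FP where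
  q := pk 18446744073709551616 S.q
  fm := S.fs.map pf
  kp := pk 65536 S.kp
  kn := pk 65536 S.kn
  ed := S.ed.map pe
  cs := S.cs.map (pk 18446744073709551616)

/-- The point of evaluation. -/
def yy (xs : List ℝ) : List ℝ := (-(mr xs).sum - 1) :: (mr xs ++ [1])

/-- The conditions on the problem at a point. -/
structure SpOK (S : Sp) (n : ℕ) (xs A : List ℝ) : Prop where
  hn : n ≤ 8
  hA0 : ∃ A0 : List ℝ, A0.length = 2 * S.ed.length ∧ Fb 16384 S.kp S.kn S.kp S.kn A0 ∧
    RF S.fs xs A0 = A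
  hf : S.fs.all (okf (2 * S.ed.length)) = true
  he : EdOK (yy xs) (ml n + 2) S.ed A
  hc : ∀ l ∈ S.cs, l.length = ml n + 2 ∧ (∀ x ∈ l, x ≤ 134217728) ∧ nd l (yy xs) ≤ 0
  hq : S.q.length = ml n + 2
  hq' : ∀ x ∈ S.q, x ≤ 1125899906842624 * 2
  hl : S.ed.length ≤ 64 ∧ S.cs.length ≤ 64

theorem nd_yy {D : List ℕ} {xs : List ℝ} (hD : D.length = ml xs.length) (β c : ℕ) :
    nd (β :: (D ++ [c])) (yy xs) = nd D (mr xs) - β * (mr xs).sum + (c - β) := by
  unfold yy
  rw [nd_cons, nd_append (by rw [hD, length_mr])]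
  simp only [nd_cons, nd_nil]
  ring

/-- **The check of a leaf is sound.** -/
theorem leaf_spec {S : Sp} {n : ℕ} {xs A : List ℝ} (hS : SpOK S n xs A)
    {C : List (List Aff)} (hC : okC C = true) {B : List (ℕ × ℕ)} (hn : B.length = n)
    (hB : ∀ b ∈ B, b.1 ≤ 1024 ∧ b.2 ≤ 1024) (hx : MemN B xs) {d : ℕ}
    (h : leaf S.pack (packC C) B d = true) {z : ℝ} (hz : Bel C A z) :
    256 * z ≤ nd S.q (yy xs) := by
  obtain ⟨A0, a1, a2, a3⟩ := hS.hA0
  have h' : frm B (S.fs.map pf) (fun P0 N0 P1 N1 =>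
      eds (packC C) (S.ed.map pe) (fun d z => zs (S.cs.map (pk 18446744073709551616))
        (fun _ z => fin B z) d z) P0 N0 P1 N1 d (pk 18446744073709551616 S.q))
      (pk 65536 S.kp) (pk 65536 S.kn) (pk 65536 S.kp) (pk 65536 S.kn) = true := h
  obtain ⟨P0, N0, P1, N1, b1, b2, b3⟩ := frm_spec hB hx hS.hf a1 a2 h'
  rw [a3] at b2
  have hn8 := hS.hn
  have hM : 16384 + 2048 * B.length < 65536 := by omega
  obtain ⟨l1, l2⟩ := hS.hl
  obtain ⟨d1, acc1, c1, c2, c3, c4⟩ := eds_spec hC hS.he hM b2 hS.hq hS.hq' b1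
  obtain ⟨d2, acc2, e1, e2, e3, e4⟩ := zs_spec hS.hc c2 c3 c1
  have key := c4 z hz
  -- split the list
  have hlen : acc2.length = ml n + 2 := e2
  obtain ⟨β, D, c, rfl, hD⟩ : ∃ β D c, acc2 = β :: (D ++ [c]) ∧ D.length = ml n := by
    cases acc2 with
    | nil => simp at hlen
    | cons β l =>
      have hl : l.length = ml n + 1 := by simpa using hlen
      have hne : l ≠ [] := by
        intro h
        rw [h] at hl
        simp at hl
      refine ⟨β, l.dropLast, l.getLast hne, ?_, ?_⟩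
      · rw [List.dropLast_append_getLast]
      · rw [List.length_dropLast, hl]
        rfl
  have hD' : D.length = ml B.length := by rw [hn]; exact hD
  have f := fin_spec hD' (fun x hx => by
    have := e3 x hx
    omega) e1 hx
  have hxl : xs.length = B.length := hx.length
  have e5 := nd_yy (D := D) (xs := xs) (by rw [hxl]; exact hD') β c
  rw [e5] at e4
  linarith

/-! ### Certificates -/

theorem frc_eq (n : ℕ) (k : ℕ → Bool) : frc n k = k n := by
  cases n <;> rfl

theorem spl_spec (i : ℕ) : ∀ {B : List (ℕ × ℕ)} {k : List (ℕ × ℕ) → List (ℕ × ℕ) → Bool}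
    {xs : List ℝ}, (∀ b ∈ B, b.1 ≤ 1024 ∧ b.2 ≤ 1024) → MemN B xs → spl i B k = true →
    ∃ l r, k l r = true ∧ l.length = B.length ∧ r.length = B.length ∧
      (∀ b ∈ l, b.1 ≤ 1024 ∧ b.2 ≤ 1024) ∧ (∀ b ∈ r, b.1 ≤ 1024 ∧ b.2 ≤ 1024) ∧
      (MemN l xs ∨ MemN r xs) := by
  induction i with
  | zero =>
    intro B k xs hB hx h
    cases B with
    | nil => exact absurd h (by simp [spl])
    | cons b B =>
      cases xs with
      | nil => exact hx.elim
      | cons x xs =>
        obtain ⟨h1, h2, h3⟩ := hx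
        have h' : frc b.1 (fun lo => frc b.2 (fun hi => frc ((lo + hi) / 2)
          (fun m => k ((lo, m) :: B) ((m, hi) :: B)))) = true := h
        rw [frc_eq, frc_eq, frc_eq] at h'
        have hb := hB b (by simp)
        have hm : (b.1 + b.2) / 2 ≤ 1024 := by omega
        refine ⟨_, _, h', rfl, rfl, ?_, ?_, ?_⟩
        · intro c hc
          rcases List.mem_cons.1 hc with rfl | hc
          · exact ⟨hb.1, hm⟩
          · exact hB c (by simp [hc])
        · intro c hc
          rcases List.mem_cons.1 hc with rfl | hc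
          · exact ⟨hm, hb.2⟩
          · exact hB c (by simp [hc])
        · rcases le_total x (((b.1 + b.2) / 2 : ℕ) : ℝ) with hm | hm
          · exact Or.inl ⟨h1, hm, h3⟩
          · exact Or.inr ⟨hm, h2, h3⟩
  | succ i ih =>
    intro B k xs hB hx h
    cases B with
    | nil => exact absurd h (by simp [spl])
    | cons b B =>
      cases xs with
      | nil => exact hx.elim
      | cons x xs =>
        obtain ⟨h1, h2, h3⟩ := hx
        have h' : spl i B (fun l r => k (b :: l) (b :: r)) = true := h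
        have hb := hB b (by simp)
        obtain ⟨l, r, e1, e2, e3, e4, e5, e6⟩ := ih (fun c hc => hB c (by simp [hc])) h3 h'
        refine ⟨b :: l, b :: r, e1, by simp [e2], by simp [e3], ?_, ?_, ?_⟩
        · intro c hc
          rcases List.mem_cons.1 hc with rfl | hc
          · exact hb
          · exact e4 c hc
        · intro c hc
          rcases List.mem_cons.1 hc with rfl | hc
          · exact hb
          · exact e5 c hc
        · rcases e6 with e6 | e6
          · exact Or.inl ⟨h1, h2, e6⟩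
          · exact Or.inr ⟨h1, h2, e6⟩

/-- **The fast check is sound.** -/
theorem chk_spec {S : Sp} {n : ℕ} {xs A : List ℝ} (hS : SpOK S n xs A)
    {C : List (List Aff)} (hC : okC C = true) {cutf : ℕ → List (ℕ × ℕ) → Bool}
    (hcut : ∀ k B, B.length = n → (∀ b ∈ B, b.1 ≤ 1024 ∧ b.2 ≤ 1024) → cutf k B = true →
      MemN B xs → False) {z : ℝ} (hz : Bel C A z) (t : Tree) :
    ∀ {B : List (ℕ × ℕ)}, B.length = n → (∀ b ∈ B, b.1 ≤ 1024 ∧ b.2 ≤ 1024) → MemN B xs →
      chk S.pack (packC C) cutf t B = true → 256 * z ≤ nd S.q (yy xs) := by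
  induction t with
  | leaf d =>
    intro B hn hB hx h
    exact leaf_spec (d := d / 65536) hS hC hn hB hx h hz
  | cut k =>
    intro B hn hB hx h
    exact (hcut k B hn hB h hx).elim
  | split i l r h1 h2 =>
    intro B hn hB hx h
    have h' : spl i B (fun a b => Bool.rec (motive := fun _ => Bool) false
      (chk S.pack (packC C) cutf r b) (chk S.pack (packC C) cutf l a)) = true := h
    obtain ⟨a, b, e1, e2, e3, e4, e5, e6⟩ := spl_spec i hB hx h'
    obtain ⟨f1, f2⟩ := recb e1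
    rcases e6 with e6 | e6
    · exact h1 (by rw [e2, hn]) e4 e6 f2
    · exact h2 (by rw [e3, hn]) e5 e6 f1
  | splitAt i m l r _ _ =>
    intro B hn hB hx h
    have h' : false = true := h
    exact absurd h' (by simp)

end Pool.Agent.Strip051.LC.Box.Fast
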