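import Pool.Agent.Strip051.LC.Box.FastDefs

/-! # Packed vectors -/

namespace Pool.Agent.Strip051.LC.Box.Fast

/-- The number with the given digits. -/
def pk (B : ℕ) : List ℕ → ℕ
  | [] => 0
  | a :: l => a + B * pk B l

@[simp] theorem pk_nil (B : ℕ) : pk B [] = 0 := rfl

@[simp] theorem pk_cons (B a : ℕ) (l : List ℕ) : pk B (a :: l) = a + B * pk B l := rfl

theorem pk_append (B : ℕ) (l m : List ℕ) : pk B (l ++ m) = pk B l + B ^ l.length * pk B m := by
  induction l with
  | nil => simp
  | cons a l ih =>
    simp only [List.cons_append, pk_cons, ih, List.length_cons, pow_succ]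
    ring

theorem pk_mod {B a : ℕ} (h : a < B) (l : List ℕ) : pk B (a :: l) % B = a := by
  rw [pk_cons, Nat.add_mul_mod_self_left, Nat.mod_eq_of_lt h]

theorem pk_div {B a : ℕ} (h : a < B) (l : List ℕ) : pk B (a :: l) / B = pk B l := by
  rw [pk_cons, Nat.add_mul_div_left _ _ (by omega), Nat.div_eq_of_lt h, Nat.zero_add]

theorem pk_map_add {ι : Type} (B : ℕ) (I : List ι) (f g : ι → ℕ) :
    pk B (I.map fun i => f i + g i) = pk B (I.map f) + pk B (I.map g) := by
  induction I with
  | nil => rfl
  | cons i I ih =>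
    simp only [List.map_cons, pk_cons, ih]
    ring

theorem pk_map_mul {ι : Type} (B k : ℕ) (I : List ι) (f : ι → ℕ) :
    pk B (I.map fun i => k * f i) = k * pk B (I.map f) := by
  induction I with
  | nil => rfl
  | cons i I ih =>
    simp only [List.map_cons, pk_cons, ih]
    ring

/-- `k * w + a`, digit by digit. -/
def axp (k : ℕ) : List ℕ → List ℕ → List ℕ
  | w :: ws, a :: as => (a + k * w) :: axp k ws as
  | [], as => as
  | w :: ws, [] => (k * w) :: axp k ws []

theorem pk_axp (B k : ℕ) (w a : List ℕ) : pk B (axp k w a) = pk B a + k * pk B w := by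
  induction w generalizing a with
  | nil => simp [axp]
  | cons w ws ih =>
    cases a with
    | nil =>
      simp only [axp, pk_cons, ih, pk_nil]
      ring
    | cons a as =>
      simp only [axp, pk_cons, ih]
      ring

theorem length_axp {k : ℕ} {w a : List ℕ} (h : w.length = a.length) :
    (axp k w a).length = a.length := by
  induction w generalizing a with
  | nil => rfl
  | cons w ws ih =>
    cases a with
    | nil => simp at h
    | cons a as =>
      simp only [axp, List.length_cons] at h ⊢
      rw [ih (by omega)]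

theorem axp_le {k M A : ℕ} {w a : List ℕ} (hw : ∀ x ∈ w, x ≤ M) (ha : ∀ x ∈ a, x ≤ A) :
    ∀ x ∈ axp k w a, x ≤ A + k * M := by
  induction w generalizing a with
  | nil =>
    intro x hx
    exact (ha x hx).trans (Nat.le_add_right _ _)
  | cons w ws ih =>
    cases a with
    | nil =>
      intro x hx
      simp only [axp, List.mem_cons] at hx
      rcases hx with rfl | hx
      · exact (Nat.mul_le_mul_left k (hw w (by simp))).trans (Nat.le_add_left _ _)
      · exact ih (fun x h => hw x (by simp [h])) (by simp) x hx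
    | cons a as =>
      intro x hx
      simp only [axp, List.mem_cons] at hx
      rcases hx with rfl | hx
      · exact Nat.add_le_add (ha a (by simp)) (Nat.mul_le_mul_left k (hw w (by simp)))
      · exact ih (fun x h => hw x (by simp [h])) (fun x h => ha x (by simp [h])) x hx

/-- The value of a list of natural coefficients. -/
def nd : List ℕ → List ℝ → ℝ
  | a :: as, x :: xs => a * x + nd as xs
  | _, _ => 0

@[simp] theorem nd_nil (xs : List ℝ) : nd [] xs = 0 := by
  cases xs <;> rfl

@[simp] theorem nd_nil' (as : List ℕ) : nd as [] = 0 := by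
  cases as <;> rfl

@[simp] theorem nd_cons (a : ℕ) (as : List ℕ) (x : ℝ) (xs : List ℝ) :
    nd (a :: as) (x :: xs) = a * x + nd as xs := rfl

theorem nd_axp (k : ℕ) (w a : List ℕ) (xs : List ℝ) :
    nd (axp k w a) xs = nd a xs + k * nd w xs := by
  induction w generalizing a xs with
  | nil => simp [axp]
  | cons w ws ih =>
    cases xs with
    | nil => simp
    | cons x xs =>
      cases a with
      | nil =>
        simp only [axp, nd_cons, ih, nd_nil]
        push_cast
        ring
      | cons a as =>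
        simp only [axp, nd_cons, ih]
        push_cast
        ring

/-! ### Comparison of all digits -/

theorem land_block {v d h x y : ℕ} (hd : d < 2 ^ v) (hh : h < 2 ^ v)
    (e : (d + 2 ^ v * x) &&& (h + 2 ^ v * y) = h + 2 ^ v * y) : d &&& h = h ∧ x &&& y = y := by
  have key : ∀ j, ((d + 2 ^ v * x) &&& (h + 2 ^ v * y)).testBit j =
      (h + 2 ^ v * y).testBit j := fun j => by rw [e]
  have t1 : ∀ j, (d + 2 ^ v * x).testBit j = if j < v then d.testBit j else x.testBit (j - v) := by
    intro j
    rw [Nat.add_comm, Nat.testBit_two_pow_mul_add x hd]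
  have t2 : ∀ j, (h + 2 ^ v * y).testBit j = if j < v then h.testBit j else y.testBit (j - v) := by
    intro j
    rw [Nat.add_comm, Nat.testBit_two_pow_mul_add y hh]
  constructor
  · refine Nat.eq_of_testBit_eq fun j => ?_
    rw [Nat.testBit_and]
    by_cases hj : j < v
    · have := key j
      rw [Nat.testBit_and, t1, t2, if_pos hj, if_pos hj] at this
      exact this
    · have : h.testBit j = false :=
        Nat.testBit_lt_two_pow (hh.trans_le (Nat.pow_le_pow_right (by norm_num) (not_lt.1 hj)))
      rw [this, Bool.and_false]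
  · refine Nat.eq_of_testBit_eq fun j => ?_
    rw [Nat.testBit_and]
    have := key (j + v)
    rw [Nat.testBit_and, t1, t2, if_neg (by omega), if_neg (by omega), Nat.add_sub_cancel] at this
    exact this

/-- **The comparison of all digits.** -/
theorem dle_sound {ι : Type} {v : ℕ} {I : List ι} {f g : ι → ℕ} (hf : ∀ i ∈ I, f i < 2 ^ v)
    (hg : ∀ i ∈ I, g i < 2 ^ v)
    (h : dle (2 ^ v * pk (2 ^ (v + 1)) (I.map fun _ => 1)) (pk (2 ^ (v + 1)) (I.map f))
      (pk (2 ^ (v + 1)) (I.map g)) = true) : ∀ i ∈ I, g i ≤ f i := by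
  have e1 : pk (2 ^ (v + 1)) (I.map f) + 2 ^ v * pk (2 ^ (v + 1)) (I.map fun _ => 1) -
      pk (2 ^ (v + 1)) (I.map g) = pk (2 ^ (v + 1)) (I.map fun i => f i + 2 ^ v - g i) := by
    have h1 : pk (2 ^ (v + 1)) (I.map fun i => f i + 2 ^ v - g i) +
        pk (2 ^ (v + 1)) (I.map g) =
        pk (2 ^ (v + 1)) (I.map f) + 2 ^ v * pk (2 ^ (v + 1)) (I.map fun _ => 1) := by
      rw [← pk_map_add, ← pk_map_mul, ← pk_map_add]
      congr 1
      refine List.map_congr_left fun i hi => ?_
      have := hg i hi
      omega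
    omega
  have h2 : pk (2 ^ (v + 1)) (I.map fun i => f i + 2 ^ v - g i) &&&
      pk (2 ^ (v + 1)) (I.map fun _ => 2 ^ v * 1) =
      pk (2 ^ (v + 1)) (I.map fun _ => 2 ^ v * 1) := by
    have h3 : (pk (2 ^ (v + 1)) (I.map f) + 2 ^ v * pk (2 ^ (v + 1)) (I.map fun _ => 1) -
      pk (2 ^ (v + 1)) (I.map g)) &&& (2 ^ v * pk (2 ^ (v + 1)) (I.map fun _ => 1)) =
        2 ^ v * pk (2 ^ (v + 1)) (I.map fun _ => 1) := by
      unfold dle at h
      exact Nat.beq_eq.mp h
    rw [e1, ← pk_map_mul] at h3
    exact h3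
  clear h e1
  induction I with
  | nil => simp
  | cons i I ih =>
    simp only [List.map_cons, pk_cons] at h2
    have a1 := hf i (by simp)
    have a2 := hg i (by simp)
    have a3 : (2 : ℕ) ^ (v + 1) = 2 * 2 ^ v := by rw [pow_succ]; ring
    obtain ⟨b1, b2⟩ := land_block (v := v + 1) (by omega) (by omega) h2
    have b3 : 2 ^ v * 1 ≤ f i + 2 ^ v - g i := by
      calc 2 ^ v * 1 = (f i + 2 ^ v - g i) &&& (2 ^ v * 1) := b1.symm
        _ ≤ _ := Nat.and_le_left
    intro j hj
    rcases List.mem_cons.1 hj with rfl | hj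
    · omega
    · exact ih (fun k hk => hf k (by simp [hk])) (fun k hk => hg k (by simp [hk])) b2 j hj

/-! ### The sums with digits -/

theorem zs_zero (k : ℕ → ℕ → Bool) (d z : ℕ) : zs [] k d z = k d z := rfl

theorem zs_cons (w : ℕ) (W : List ℕ) (k : ℕ → ℕ → Bool) (d z : ℕ) :
    zs (w :: W) k d z = zs W k (d / 65536) (z + d % 65536 * w) := rfl

theorem zw_zero (k : ℕ → ℕ → Bool) (d z : ℕ) : zw [] k d z = k d z := rfl

theorem zw_cons (w : ℕ) (W : List ℕ) (k : ℕ → ℕ → Bool) (d z : ℕ) :
    zw (w :: W) k d z = zw W k (d / 256) (z + d % 256 * w) := rfl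

end Pool.Agent.Strip051.LC.Box.Fast
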