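import Pool.Agent.Strip051.LC.Box.FastLeaf

/-! # Problems given by polynomials -/

namespace Pool.Agent.Strip051.LC.Box.Fast

open Pool.Agent.Strip051.LC.Box

/-- All coefficients but the constant one, in the order of the packed form. -/
def lanesP : List (List ℤ) → List ℤ → List ℤ
  | (m :: cr) :: P, l :: L => lanesP P L ++ l :: m :: cr
  | _, _ => []

/-- The shape of the coefficients. -/
def shp : ℕ → List (List ℤ) → List ℤ → Bool
  | 0, [], [] => true
  | n + 1, (_ :: cr) :: P, _ :: L => decide (cr.length = n) && shp n P L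
  | _, _, _ => false

theorem dot_append {a b : List ℤ} {x y : List ℝ} (h : a.length = x.length) :
    dot (a ++ b) (x ++ y) = dot a x + dot b y := by
  induction a generalizing x with
  | nil =>
    cases x with
    | nil => simp
    | cons x xs => simp at h
  | cons a as ih =>
    cases x with
    | nil => simp at h
    | cons x xs =>
      simp only [List.cons_append, dot_cons]
      rw [ih (by simpa using h)]
      ring

theorem dot_map_mul (a : List ℤ) (x : List ℝ) (T : ℝ) :
    dot a (x.map fun y => T * y) = T * dot a x := by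
  induction a generalizing x with
  | nil => simp
  | cons a as ih =>
    cases x with
    | nil => simp
    | cons x xs =>
      simp only [List.map_cons, dot_cons, ih]
      ring

theorem lanes_spec {n : ℕ} : ∀ {P : List (List ℤ)} {L : List ℤ} {xs : List ℝ},
    shp n P L = true → xs.length = n → (lanesP P L).length = ml n ∧
      dot (lanesP P L) (mr xs) = qf P xs + dot L xs := by
  induction n with
  | zero =>
    intro P L xs h hx
    have : xs = [] := List.length_eq_zero_iff.1 hx
    subst this
    match P, L, h with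
    | [], [], _ => exact ⟨rfl, by simp [lanesP]⟩
    | _ :: _, _, h => exact absurd h (by simp [shp])
    | [], _ :: _, h => exact absurd h (by simp [shp])
  | succ n ih =>
    intro P L xs h hx
    match P, L, xs, h, hx with
    | (m :: cr) :: P, l :: L, x :: xs, h, hx =>
      simp only [shp, Bool.and_eq_true, decide_eq_true_eq] at h
      obtain ⟨i1, i2⟩ := ih h.2 (by simpa using hx : xs.length = n)
      refine ⟨?_, ?_⟩
      · simp only [lanesP, List.length_append, List.length_cons, ml, i1, h.1]
      · have hx' : xs.length = n := by simpa using hx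
        rw [lanesP, mr, dot_append (by rw [i1, length_mr, hx']), i2]
        simp only [dot_cons, dot_map_mul, qf_cons]
        ring
    | [], _, _, h, _ => exact absurd h (by simp [shp])
    | [] :: _, _, _, h, _ => exact absurd h (by simp [shp])
    | (_ :: _) :: _, [], _, h, _ => exact absurd h (by simp [shp])
    | (_ :: _) :: _, _ :: _, [], _, hx => simp at hx

/-- The digits. -/
def flat (β s : ℤ) (p : Poly) : List ℕ :=
  (β :: (lanesP p.P p.L ++ [p.c]).map fun z => β + s * z).map Int.toNat

/-- The digits are good. -/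
def okP (n : ℕ) (β s bd : ℤ) (p : Poly) : Bool :=
  shp n p.P p.L && (lanesP p.P p.L ++ [p.c]).all fun z =>
    decide (0 ≤ β + s * z) && decide (β + s * z ≤ bd)

theorem nd_toNat {l : List ℤ} (h : ∀ z ∈ l, 0 ≤ z) (y : List ℝ) :
    nd (l.map Int.toNat) y = dot l y := by
  induction l generalizing y with
  | nil => simp
  | cons z l ih =>
    cases y with
    | nil => simp
    | cons y ys =>
      simp only [List.map_cons, nd_cons, dot_cons]
      rw [ih (fun z hz => h z (by simp [hz]))]
      have h0 : ((z.toNat : ℕ) : ℤ) = z := Int.toNat_of_nonneg (h z (by simp))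
      have : ((z.toNat : ℕ) : ℝ) = (z : ℝ) := by exact_mod_cast h0
      rw [this]

theorem dot_shift (β s : ℤ) {l : List ℤ} {w : List ℝ} (h : l.length = w.length) :
    dot (l.map fun z => β + s * z) w = β * w.sum + s * dot l w := by
  induction l generalizing w with
  | nil =>
    cases w with
    | nil => simp
    | cons w ws => simp at h
  | cons z l ih =>
    cases w with
    | nil => simp at h
    | cons w ws =>
      simp only [List.map_cons, dot_cons, List.sum_cons]
      rw [ih (by simpa using h)]
      push_cast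
      ring

theorem flat_spec {n : ℕ} {β s bd : ℤ} (hβ : 0 ≤ β) (hbd : β ≤ bd) {p : Poly}
    (h : okP n β s bd p = true) {xs : List ℝ} (hx : xs.length = n) :
    (flat β s p).length = ml n + 2 ∧ (∀ x ∈ flat β s p, x ≤ bd.toNat) ∧
      nd (flat β s p) (yy xs) = s * p.val xs := by
  simp only [okP, Bool.and_eq_true, List.all_eq_true, decide_eq_true_eq] at h
  obtain ⟨h1, h2⟩ := h
  obtain ⟨i1, i2⟩ := lanes_spec h1 hx
  have h3 : ∀ z ∈ β :: (lanesP p.P p.L ++ [p.c]).map (fun z => β + s * z), 0 ≤ z ∧ z ≤ bd := by
    intro z hz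
    rcases List.mem_cons.1 hz with rfl | hz
    · exact ⟨hβ, hbd⟩
    · obtain ⟨w, hw, rfl⟩ := List.mem_map.1 hz
      exact h2 w hw
  refine ⟨?_, ?_, ?_⟩
  · simp only [flat, List.length_map, List.length_cons, List.length_append, i1, List.length_nil]
  · intro x hx
    obtain ⟨z, hz, rfl⟩ := List.mem_map.1 hx
    exact Int.toNat_le_toNat (h3 z hz).2
  · unfold flat
    rw [nd_toNat (fun z hz => (h3 z hz).1)]
    unfold yy Poly.val
    rw [dot_cons, dot_shift β s (by
      simp only [List.length_append, i1, length_mr, hx, List.length_cons, List.length_nil]),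
      dot_append (by rw [i1, length_mr, hx]), i2, List.sum_append]
    simp only [dot_cons, dot_nil, List.sum_cons, List.sum_nil]
    ring

/-- The problem. -/
structure PB where
  /-- the target, with the offsets of the edges -/
  q : Poly
  /-- the forms -/
  fs : List (List ℕ × List ℕ)
  /-- the constants of the forms -/
  kp : List ℕ
  /-- the constants of the forms -/
  kn : List ℕ
  /-- the polynomials `256 X`, `256 T`, `256`, `256 * 65536` -/
  ed : List (Poly × Poly × Poly × Poly)
  /-- the constraints -/
  cs : List Poly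

/-- The digits of a problem. -/
def PB.sp (p : PB) : Sp where
  q := flat 1125899906842624 1 p.q
  fs := p.fs
  kp := p.kp
  kn := p.kn
  ed := p.ed.map fun e => (flat 67108864 (-1) e.1, flat 67108864 (-1) e.2.1,
    flat 67108864 (-1) e.2.2.1, flat 67108864 (-1) e.2.2.2)
  cs := p.cs.map (flat 67108864 (-1))

/-- The check of a problem. -/
def PB.ok (p : PB) (n : ℕ) : Bool :=
  decide (n ≤ 8) && okP n 1125899906842624 1 2251799813685248 p.q &&
    p.fs.all (okf (2 * p.ed.length)) &&
    (p.ed.all fun e => okP n 67108864 (-1) 134217728 e.1 &&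
      okP n 67108864 (-1) 134217728 e.2.1 && okP n 67108864 (-1) 134217728 e.2.2.1 &&
      okP n 67108864 (-1) 134217728 e.2.2.2) &&
    p.cs.all (okP n 67108864 (-1) 134217728) && decide (p.ed.length ≤ 64) &&
    decide (p.cs.length ≤ 64)

/-- The edges are correct. -/
def EdV (xs : List ℝ) : List (Poly × Poly × Poly × Poly) → List ℝ → Prop
  | e :: E, X :: T :: A => (e.1.val xs = 256 * X ∧ e.2.1.val xs = 256 * T ∧
      e.2.2.1.val xs = 256 ∧ e.2.2.2.val xs = 256 * 65536) ∧ EdV xs E A
  | [], [] => True
  | _, _ => False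

theorem edOK_of {n : ℕ} {xs : List ℝ} (hx : xs.length = n)
    {ed : List (Poly × Poly × Poly × Poly)}
    (h : (ed.all fun e => okP n 67108864 (-1) 134217728 e.1 &&
      okP n 67108864 (-1) 134217728 e.2.1 && okP n 67108864 (-1) 134217728 e.2.2.1 &&
      okP n 67108864 (-1) 134217728 e.2.2.2) = true) {A : List ℝ} (hE : EdV xs ed A) :
    EdOK (yy xs) (ml n + 2) (ed.map fun e => (flat 67108864 (-1) e.1, flat 67108864 (-1) e.2.1,
    flat 67108864 (-1) e.2.2.1, flat 67108864 (-1) e.2.2.2)) A := by
  induction ed generalizing A with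
  | nil =>
    match A, hE with
    | [], _ => trivial
  | cons e ed ih =>
    match A, hE with
    | X :: T :: A, ⟨⟨v1, v2, v3, v4⟩, hE⟩ =>
      simp only [List.all_cons, Bool.and_eq_true] at h
      obtain ⟨⟨⟨⟨a1, a2⟩, a3⟩, a4⟩, h5⟩ := h
      obtain ⟨b1, b2, b3⟩ := flat_spec (by norm_num) (by norm_num) a1 hx
      obtain ⟨c1, c2, c3⟩ := flat_spec (by norm_num) (by norm_num) a2 hx
      obtain ⟨d1, d2, d3⟩ := flat_spec (by norm_num) (by norm_num) a3 hx
      obtain ⟨e1, e2, e3⟩ := flat_spec (by norm_num) (by norm_num) a4 hx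
      refine ⟨⟨b1, c1, d1, e1⟩, ⟨b2, c2, d2, e2⟩, ⟨?_, ?_, ?_, ?_⟩, ih (by
        simpa only [Bool.and_eq_true] using h5) hE⟩
      · rw [b3, v1]; push_cast; ring
      · rw [c3, v2]; push_cast; ring
      · rw [d3, v3]; push_cast; ring
      · rw [e3, v4]; push_cast; ring

/-- **The fast check of a problem.** -/
theorem fast_sound {p : PB} {n : ℕ} (hp : p.ok n = true) {F : FP} (hF : F = p.sp.pack)
    {C : List (List Aff)} (hC : okC C = true) {CC : List (List ℕ)} (hCC : CC = packC C)
    {cutf : ℕ → List (ℕ × ℕ) → Bool} {t : Tree} {B : List (ℕ × ℕ)}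
    (h : chk F CC cutf t B = true) (hn : B.length = n)
    (hB : ∀ b ∈ B, b.1 ≤ 1024 ∧ b.2 ≤ 1024) {xs : List ℝ} (hx : MemN B xs)
    (hcut : ∀ k B, B.length = n → (∀ b ∈ B, b.1 ≤ 1024 ∧ b.2 ≤ 1024) → cutf k B = true →
      MemN B xs → False)
    (hg : ∀ g ∈ p.cs, 0 ≤ g.val xs) {A0 A : List ℝ} (hA0 : A0.length = 2 * p.ed.length)
    (hk : Fb 16384 p.kp p.kn p.kp p.kn A0) (hRF : RF p.fs xs A0 = A) (hE : EdV xs p.ed A)
    {z : ℝ} (hz : Bel C A z) : 256 * z ≤ p.q.val xs := by
  simp only [PB.ok, Bool.and_eq_true, decide_eq_true_eq] at hp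
  obtain ⟨⟨⟨⟨⟨⟨p1, p2⟩, p3⟩, p4⟩, p5⟩, p6⟩, p7⟩ := hp
  have hxn : xs.length = n := by rw [hx.length, hn]
  obtain ⟨q1, q2, q3⟩ := flat_spec (by norm_num) (by norm_num) p2 hxn
  have S : SpOK p.sp n xs A := by
    refine ⟨p1, ⟨A0, ?_, hk, hRF⟩, ?_, ?_, ?_, q1, ?_, ?_⟩
    · simpa [PB.sp] using hA0
    · simpa [PB.sp] using p3
    · exact edOK_of hxn (by simpa only [Bool.and_eq_true] using p4) hE
    · intro l hl
      obtain ⟨g, hg', rfl⟩ := List.mem_map.1 hl
      obtain ⟨b1, b2, b3⟩ := flat_spec (by norm_num) (by norm_num)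
        (List.all_eq_true.1 p5 g hg') hxn
      refine ⟨b1, b2, ?_⟩
      rw [b3]
      have := hg g hg'
      push_cast
      linarith
    · intro x hx
      have := q2 x hx
      exact this
    · simpa [PB.sp] using And.intro p6 p7
  rw [hF, hCC] at h
  have key := chk_spec S hC hcut hz t hn hB hx h
  have e : nd p.sp.q (yy xs) = p.q.val xs := by
    have : p.sp.q = flat 1125899906842624 1 p.q := rfl
    rw [this, q3]
    push_cast
    ring
  rwa [e] at key

/-! ### Cuts -/

/-- The box in the original coordinates. -/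
def unsh : List ℤ → List (ℕ × ℕ) → List (ℤ × ℤ)
  | o :: O, b :: B => ((b.1 : ℤ) - o, (b.2 : ℤ) - o) :: unsh O B
  | _, _ => []

/-- The original coordinates. -/
def unx : List ℤ → List ℝ → List ℝ
  | o :: O, x :: xs => (x - o) :: unx O xs
  | _, _ => []

theorem mem_unsh {O : List ℤ} {B : List (ℕ × ℕ)} {xs : List ℝ} (hO : O.length = B.length)
    (h : MemN B xs) : Mem (unsh O B) (unx O xs) := by
  induction B generalizing O xs with
  | nil =>
    cases O with
    | nil => exact trivial
    | cons o O => simp at hO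
  | cons b B ih =>
    cases O with
    | nil => simp at hO
    | cons o O =>
      cases xs with
      | nil => exact h.elim
      | cons x xs =>
        obtain ⟨h1, h2, h3⟩ := h
        refine ⟨?_, ?_, ih (by simpa using hO) h3⟩
        · push_cast
          linarith
        · push_cast
          linarith

/-- The check of a cut. -/
def cutF (U : List (List (List ℤ) × ℤ)) (O : List ℤ) (k : ℕ) (B : List (ℕ × ℕ)) : Bool :=
  match U[k]? with
  | some (u, r) => decide (O.length = B.length) && decide (r < sq2 u (unsh O B))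
  | none => false

theorem cutF_sound {U : List (List (List ℤ) × ℤ)} {O : List ℤ} {k : ℕ} {B : List (ℕ × ℕ)}
    (h : cutF U O k B = true) {xs : List ℝ} (hu : ∀ c ∈ U, sqs c.1 (unx O xs) ≤ c.2)
    (hx : MemN B xs) : False := by
  unfold cutF at h
  split at h
  · rename_i u r he
    simp only [Bool.and_eq_true, decide_eq_true_eq] at h
    have h1 := sq2_sound u (mem_unsh h.1 hx)
    have h2 := hu (u, r) (List.mem_of_getElem? he)
    have h3 : (r : ℝ) < sq2 u (unsh O B) := by exact_mod_cast h.2
    simp only at h2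
    linarith
  · exact absurd h (by simp)

end Pool.Agent.Strip051.LC.Box.Fast
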