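import Pool.Agent.Strip051.LC.Box.All

/-! # Certificates in parts -/

namespace Pool.Agent.Strip051.LC.Box.Fast

open Pool.Agent.Strip051.LC.Box

/-- A certificate from the certificates of the two halves of the box. -/
theorem chk_node {p : FP} {C : List (List ℕ)} {K : ℕ → List (ℕ × ℕ) → Bool} {i : ℕ} {s t : Tree}
    {B l r : List (ℕ × ℕ)}
    (e : ∀ k : List (ℕ × ℕ) → List (ℕ × ℕ) → Bool, spl i B k = k l r)
    (h1 : chk p C K s l = true) (h2 : chk p C K t r = true) :
    chk p C K (.split i s t) B = true := by
  have h : chk p C K (.split i s t) B = spl i B fun l r =>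
    Bool.rec (motive := fun _ => Bool) false (chk p C K t r) (chk p C K s l) := rfl
  rw [h, e, h1]
  exact h2

/-- A certificate from the certificates of the two halves of the box. -/
theorem chkM_node {p : FP} {C : List (List (List (List ℕ)))} {K : ℕ → List (ℕ × ℕ) → Bool} {i : ℕ}
    {s t : Tree} {B l r : List (ℕ × ℕ)}
    (e : ∀ k : List (ℕ × ℕ) → List (ℕ × ℕ) → Bool, spl i B k = k l r)
    (h1 : chkM p C K s l = true) (h2 : chkM p C K t r = true) :
    chkM p C K (.split i s t) B = true := by
  have h : chkM p C K (.split i s t) B = spl i B fun l r =>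
    Bool.rec (motive := fun _ => Bool) false (chkM p C K t r) (chkM p C K s l) := rfl
  rw [h, e, h1]
  exact h2

end Pool.Agent.Strip051.LC.Box.Fast
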