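import Pool.Agent.Strip051.LC.Box.Cost
import Pool.Agent.Strip051.LC.Exact.LongCost

/-! # The quadrilaterals with two long diagonals, from certificates -/

namespace Pool.Agent.Strip051.LC.Box

open Pool.Agent.StripNear Pool.Agent.StripSquare Pool.Agent.Strip051.LC

/-- The quadrilaterals in the variables `D = (A + B) / 2`, `M = (B - A) / 2`, `d`. -/
structure QS (D1 D2 M1 M2 d1 d2 : ℝ) : Prop where
  a1 : 1 ≤ (D1 - M1 + d1) ^ 2 + (D2 - M2 + d2) ^ 2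
  a2 : 1 ≤ (D1 - M1 - d1) ^ 2 + (D2 - M2 - d2) ^ 2
  b1 : 1 ≤ (D1 + M1 + d1) ^ 2 + (D2 + M2 + d2) ^ 2
  b2 : 1 ≤ (D1 + M1 - d1) ^ 2 + (D2 + M2 - d2) ^ 2
  a1' : (D1 - M1 + d1) ^ 2 + (D2 - M2 + d2) ^ 2 ≤ 3
  a2' : (D1 - M1 - d1) ^ 2 + (D2 - M2 - d2) ^ 2 ≤ 3
  b1' : (D1 + M1 + d1) ^ 2 + (D2 + M2 + d2) ^ 2 ≤ 3
  b2' : (D1 + M1 - d1) ^ 2 + (D2 + M2 - d2) ^ 2 ≤ 3
  D3 : 3 / 4 ≤ D1 ^ 2 + D2 ^ 2
  D4 : D1 ^ 2 + D2 ^ 2 ≤ 1
  M3 : 3 / 4 ≤ M1 ^ 2 + M2 ^ 2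
  M9 : M1 ^ 2 + M2 ^ 2 ≤ 9 / 4
  c : 56755 / 65536 ≤ 2 * (D1 * M2 - D2 * M1)

/-- The sum of the costs. -/
noncomputable def sumQ (c : ℝ → ℝ → ℝ) (D1 D2 M1 M2 d1 d2 : ℝ) : ℝ :=
  av c (D1 - M1 + d1) (D2 - M2 + d2) + av c (D1 - M1 - d1) (D2 - M2 - d2) +
    av c (D1 + M1 - d1) (D2 + M2 - d2) + av c (D1 + M1 + d1) (D2 + M2 + d2)

section Sym

variable {D1 D2 M1 M2 d1 d2 : ℝ}

/-- The point reflection. -/
theorem QS.neg (h : QS D1 D2 M1 M2 d1 d2) : QS (-D1) (-D2) (-M1) (-M2) d1 d2 := by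
  obtain ⟨h1, h2, h3, h4, h5, h6, h7, h8, h9, h10, h11, h12, h13⟩ := h
  constructor <;> ring_nf at * <;> linarith

/-- The exchange of the diagonals. -/
theorem QS.rot (h : QS D1 D2 M1 M2 d1 d2) (hM : M1 ^ 2 + M2 ^ 2 ≤ 1) :
    QS (-M1) (-M2) D1 D2 d1 d2 := by
  obtain ⟨h1, h2, h3, h4, h5, h6, h7, h8, h9, h10, h11, h12, h13⟩ := h
  constructor <;> ring_nf at * <;> linarith

/-- The reflection. -/
theorem QS.mir (h : QS D1 D2 M1 M2 d1 d2) : QS (-D1) D2 M1 (-M2) (-d1) d2 := by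
  obtain ⟨h1, h2, h3, h4, h5, h6, h7, h8, h9, h10, h11, h12, h13⟩ := h
  constructor <;> ring_nf at * <;> linarith

/-- The exchange of the sides. -/
theorem QS.swap (h : QS D1 D2 M1 M2 d1 d2) : QS D1 D2 M1 M2 (-d1) (-d2) := by
  obtain ⟨h1, h2, h3, h4, h5, h6, h7, h8, h9, h10, h11, h12, h13⟩ := h
  constructor <;> ring_nf at * <;> linarith

theorem sumQ_neg (c : ℝ → ℝ → ℝ) :
    sumQ c (-D1) (-D2) (-M1) (-M2) d1 d2 = sumQ c D1 D2 M1 M2 d1 d2 := by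
  unfold sumQ
  rw [show -D1 - -M1 + d1 = -(D1 - M1 - d1) by ring, show -D2 - -M2 + d2 = -(D2 - M2 - d2) by ring,
    show -D1 - -M1 - d1 = -(D1 - M1 + d1) by ring, show -D2 - -M2 - d2 = -(D2 - M2 + d2) by ring,
    show -D1 + -M1 - d1 = -(D1 + M1 + d1) by ring, show -D2 + -M2 - d2 = -(D2 + M2 + d2) by ring,
    show -D1 + -M1 + d1 = -(D1 + M1 - d1) by ring, show -D2 + -M2 + d2 = -(D2 + M2 - d2) by ring,
    av_neg, av_neg, av_neg, av_neg]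
  ring

theorem sumQ_rot (c : ℝ → ℝ → ℝ) :
    sumQ c (-M1) (-M2) D1 D2 d1 d2 = sumQ c D1 D2 M1 M2 d1 d2 := by
  unfold sumQ
  rw [show -M1 - D1 + d1 = -(D1 + M1 - d1) by ring, show -M2 - D2 + d2 = -(D2 + M2 - d2) by ring,
    show -M1 - D1 - d1 = -(D1 + M1 + d1) by ring, show -M2 - D2 - d2 = -(D2 + M2 + d2) by ring,
    show -M1 + D1 - d1 = D1 - M1 - d1 by ring, show -M2 + D2 - d2 = D2 - M2 - d2 by ring,
    show -M1 + D1 + d1 = D1 - M1 + d1 by ring, show -M2 + D2 + d2 = D2 - M2 + d2 by ring,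
    av_neg, av_neg]
  ring

theorem sumQ_mir (c : ℝ → ℝ → ℝ) :
    sumQ c (-D1) D2 M1 (-M2) (-d1) d2 = sumQ c D1 D2 M1 M2 d1 d2 := by
  unfold sumQ
  rw [show -D1 - M1 + -d1 = -(D1 + M1 + d1) by ring, show D2 - -M2 + d2 = D2 + M2 + d2 by ring,
    show -D1 - M1 - -d1 = -(D1 + M1 - d1) by ring, show D2 - -M2 - d2 = D2 + M2 - d2 by ring,
    show -D1 + M1 - -d1 = -(D1 - M1 - d1) by ring, show D2 + -M2 - d2 = D2 - M2 - d2 by ring,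
    show -D1 + M1 + -d1 = -(D1 - M1 + d1) by ring, show D2 + -M2 + d2 = D2 - M2 + d2 by ring,
    av_negL, av_negL, av_negL, av_negL]
  ring

theorem sumQ_swap (c : ℝ → ℝ → ℝ) :
    sumQ c D1 D2 M1 M2 (-d1) (-d2) = sumQ c D1 D2 M1 M2 d1 d2 := by
  unfold sumQ
  simp only [sub_neg_eq_add, ← sub_eq_add_neg]
  ring

end Sym

theorem abs_le_of_sq {x b : ℝ} (hb : 0 ≤ b) (h : x ^ 2 ≤ b ^ 2) : -b ≤ x ∧ x ≤ b :=
  abs_le.1 (abs_le_of_sq_le_sq h hb)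

/-- The inequality of the quadrilaterals. -/
def InQ (c : ℝ → ℝ → ℝ) (D1 D2 M1 M2 d1 d2 : ℝ) : Prop :=
  sumQ c D1 D2 M1 M2 d1 d2 ≤ 4729 / 4096 * (2 * (D1 * M2 - D2 * M1)) - 1

/-- The quadrilaterals from both problems. -/
theorem sumQ_le {c : ℝ → ℝ → ℝ}
    (h4 : ∀ {D1 D2 M1 M2 d1 d2 : ℝ}, QS D1 D2 M1 M2 d1 d2 → M1 ^ 2 + M2 ^ 2 ≤ 1 → 0 ≤ D2 →
      D2 ≤ M2 → InQ c D1 D2 M1 M2 d1 d2)
    (h9 : ∀ {D1 D2 M1 M2 d1 d2 : ℝ}, QS D1 D2 M1 M2 d1 d2 → 1 ≤ M1 ^ 2 + M2 ^ 2 → 0 ≤ D1 →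
      0 ≤ D2 → 0 ≤ d1 → InQ c D1 D2 M1 M2 d1 d2)
    {D1 D2 M1 M2 d1 d2 : ℝ} (hq : QS D1 D2 M1 M2 d1 d2) :
    sumQ c D1 D2 M1 M2 d1 d2 ≤ 4729 / 4096 * (2 * (D1 * M2 - D2 * M1)) - 1 := by
  rcases le_total (M1 ^ 2 + M2 ^ 2) 1 with hM | hM
  · -- both second coordinates are nonnegative
    have step2 : ∀ {D1 D2 M1 M2 d1 d2 : ℝ}, QS D1 D2 M1 M2 d1 d2 → M1 ^ 2 + M2 ^ 2 ≤ 1 →
        0 ≤ D2 → 0 ≤ M2 →
        sumQ c D1 D2 M1 M2 d1 d2 ≤ 4729 / 4096 * (2 * (D1 * M2 - D2 * M1)) - 1 := by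
      intro D1 D2 M1 M2 d1 d2 hq hM hD hM2
      rcases le_total D2 M2 with h | h
      · exact h4 hq hM hD h
      · have hq' := (hq.mir.rot (by nlinarith))
        have hD4 := hq.D4
        have e := h4 hq' (by nlinarith) (by linarith) (by linarith)
        unfold InQ at e
        rw [sumQ_rot, sumQ_mir] at e
        linarith
    have step1 : ∀ {D1 D2 M1 M2 d1 d2 : ℝ}, QS D1 D2 M1 M2 d1 d2 → M1 ^ 2 + M2 ^ 2 ≤ 1 →
        0 ≤ D2 →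
        sumQ c D1 D2 M1 M2 d1 d2 ≤ 4729 / 4096 * (2 * (D1 * M2 - D2 * M1)) - 1 := by
      intro D1 D2 M1 M2 d1 d2 hq hM hD
      rcases le_total 0 M2 with h | h
      · exact step2 hq hM hD h
      · have hD4 := hq.D4
        have e := step2 (hq.rot hM) hD4 (by linarith) hD
        rw [sumQ_rot] at e
        linarith
    rcases le_total 0 D2 with h | h
    · exact step1 hq hM h
    · have e := step1 hq.neg (by nlinarith) (by linarith)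
      rw [sumQ_neg] at e
      linarith
  · have step3 : ∀ {D1 D2 M1 M2 d1 d2 : ℝ}, QS D1 D2 M1 M2 d1 d2 → 1 ≤ M1 ^ 2 + M2 ^ 2 →
        0 ≤ D1 → 0 ≤ D2 →
        sumQ c D1 D2 M1 M2 d1 d2 ≤ 4729 / 4096 * (2 * (D1 * M2 - D2 * M1)) - 1 := by
      intro D1 D2 M1 M2 d1 d2 hq hM hD1 hD2
      rcases le_total 0 d1 with h | h
      · exact h9 hq hM hD1 hD2 h
      · have e := h9 hq.swap hM hD1 hD2 (by linarith)
        unfold InQ at e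
        rw [sumQ_swap] at e
        exact e
    have step4 : ∀ {D1 D2 M1 M2 d1 d2 : ℝ}, QS D1 D2 M1 M2 d1 d2 → 1 ≤ M1 ^ 2 + M2 ^ 2 →
        0 ≤ D2 →
        sumQ c D1 D2 M1 M2 d1 d2 ≤ 4729 / 4096 * (2 * (D1 * M2 - D2 * M1)) - 1 := by
      intro D1 D2 M1 M2 d1 d2 hq hM hD2
      rcases le_total 0 D1 with h | h
      · exact step3 hq hM h hD2
      · have e := step3 hq.mir (by nlinarith) (by linarith) hD2
        rw [sumQ_mir] at e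
        linarith
    rcases le_total 0 D2 with h | h
    · exact step4 hq hM h
    · have e := step4 hq.neg (by nlinarith) (by linarith)
      rw [sumQ_neg] at e
      linarith

theorem QS.of {A1 A2 B1 B2 d1 d2 : ℝ} (h : QuadV A1 A2 B1 B2 d1 d2) :
    QS ((A1 + B1) / 2) ((A2 + B2) / 2) ((B1 - A1) / 2) ((B2 - A2) / 2) d1 d2 := by
  have hw : (113510 : ℝ) / 65536 ≤ √3 := by
    rw [Real.le_sqrt (by norm_num) (by norm_num)]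
    norm_num
  have e1 : (A1 + B1) / 2 - (B1 - A1) / 2 = A1 := by ring
  have e2 : (A2 + B2) / 2 - (B2 - A2) / 2 = A2 := by ring
  have e3 : (A1 + B1) / 2 + (B1 - A1) / 2 = B1 := by ring
  have e4 : (A2 + B2) / 2 + (B2 - A2) / 2 = B2 := by ring
  refine ⟨?_, ?_, ?_, ?_, ?_, ?_, ?_, ?_, ?_, ?_, ?_, ?_, ?_⟩
  · rw [e1, e2]; exact h.a1
  · rw [e1, e2]; exact h.a2
  · rw [e3, e4]; exact h.b1
  · rw [e3, e4]; exact h.b2
  · rw [e1, e2]; exact h.a1'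
  · rw [e1, e2]; exact h.a2'
  · rw [e3, e4]; exact h.b1'
  · rw [e3, e4]; exact h.b2'
  · nlinarith [h.l3]
  · nlinarith [h.l4]
  · nlinarith [h.m3]
  · nlinarith [h.m9]
  · nlinarith [h.c1, h.c2]

/-- **The field `quad`.** -/
theorem quad_of {c : ℝ → ℝ → ℝ}
    (h4 : ∀ {D1 D2 M1 M2 d1 d2 : ℝ}, QS D1 D2 M1 M2 d1 d2 → M1 ^ 2 + M2 ^ 2 ≤ 1 → 0 ≤ D2 →
      D2 ≤ M2 → InQ c D1 D2 M1 M2 d1 d2)
    (h9 : ∀ {D1 D2 M1 M2 d1 d2 : ℝ}, QS D1 D2 M1 M2 d1 d2 → 1 ≤ M1 ^ 2 + M2 ^ 2 → 0 ≤ D1 →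
      0 ≤ D2 → 0 ≤ d1 → InQ c D1 D2 M1 M2 d1 d2)
    {A1 A2 B1 B2 d1 d2 : ℝ} (h : QuadV A1 A2 B1 B2 d1 d2) :
    av c (A1 + d1) (A2 + d2) + av c (B1 - d1) (B2 - d2) +
      av c (A1 - d1) (A2 - d2) + av c (B1 + d1) (B2 + d2) ≤
      2 * (A1 * B2 - A2 * B1) / (2 * h0) - 1 := by
  have hq := QS.of h
  have e := sumQ_le h4 h9 hq
  have hc := hq.c
  have e1 : (A1 + B1) / 2 - (B1 - A1) / 2 = A1 := by ring
  have e2 : (A2 + B2) / 2 - (B2 - A2) / 2 = A2 := by ring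
  have e3 : (A1 + B1) / 2 + (B1 - A1) / 2 = B1 := by ring
  have e4 : (A2 + B2) / 2 + (B2 - A2) / 2 = B2 := by ring
  have e5 : 2 * ((A1 + B1) / 2 * ((B2 - A2) / 2) - (A2 + B2) / 2 * ((B1 - A1) / 2)) =
      A1 * B2 - A2 * B1 := by ring
  unfold sumQ at e
  rw [e1, e2, e3, e4, e5] at e
  rw [e5] at hc
  have hpos : 0 < A1 * B2 - A2 * B1 := by linarith
  have hh : 2 * h0 = √3 := by
    unfold h0
    ring
  have hw : √3 * (4729 / 4096) ≤ 2 := by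
    have h1 : √3 ≤ 8192 / 4729 := by
      rw [Real.sqrt_le_left (by norm_num)]
      norm_num
    calc _ ≤ 8192 / 4729 * (4729 / 4096 : ℝ) := mul_le_mul_of_nonneg_right h1 (by norm_num)
      _ = 2 := by norm_num
  have hw0 : 0 < √3 := by positivity
  have key : 4729 / 4096 * (A1 * B2 - A2 * B1) ≤ 2 * (A1 * B2 - A2 * B1) / (2 * h0) := by
    rw [hh, le_div_iff₀ hw0]
    have := mul_le_mul_of_nonneg_right hw hpos.le
    linarith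
  linarith

end Pool.Agent.Strip051.LC.Box
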