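import Pool.Agent.Strip051.LC.Box.FastProb
import Pool.Agent.Strip051.LC.Box.Quad

/-! # The quadrilaterals with two long diagonals, from fast certificates -/

namespace Pool.Agent.Strip051.LC.Box

open Pool.Agent.StripNear Pool.Agent.StripSquare Pool.Agent.Strip051.LC
open Pool.Agent.Strip051.LC.Box.Fast

theorem leCb_b {C : List (List Aff)} (hC : C ≠ []) (X T : ℝ) :
    LeCb C 256 (256 * X) (256 * T) (4096 * 256 * av (cbv C) X T) := by
  have := leCb_cbv hC (N := 256) (by norm_num) X T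
  push_cast at this
  exact this

theorem le1024 {B : List (ℕ × ℕ)} (h : ∀ b ∈ B, b.1 ≤ 1024 ∧ b.2 ≤ 1024) :
    ∀ b ∈ B, b.1 ≤ 2048 ∧ b.2 ≤ 2048 := fun b hb =>
  ⟨(h b hb).1.trans (by norm_num), (h b hb).2.trans (by norm_num)⟩

/-- **The first problem.** -/
theorem q4F_sound {C : List (List Aff)} (hC : C ≠ []) (hok : okC C = true) {CC : List (List ℕ)}
    (hCC : CC = packC C) {t : Tree} (h : chk q4FP CC (cutK q4CD) t q4BoxF = true)
    {D1 D2 M1 M2 d1 d2 : ℝ} (hq : QS D1 D2 M1 M2 d1 d2)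
    (hM : M1 ^ 2 + M2 ^ 2 ≤ 1) (h0 : 0 ≤ D2) (h1 : D2 ≤ M2) :
    InQ (cbv C) D1 D2 M1 M2 d1 d2 := by
  obtain ⟨a1, a2, b1, b2, a1', a2', b1', b2', D3, D4, M3, M9, c⟩ := hq
  have hd : d1 ^ 2 + d2 ^ 2 ≤ 3 / 2 := by nlinarith
  obtain ⟨x1, x2⟩ := abs_le_of_sq (x := D1) (b := 1) (by norm_num) (by nlinarith [sq_nonneg D2])
  obtain ⟨-, x4⟩ := abs_le_of_sq (x := D2) (b := 1) (by norm_num) (by nlinarith [sq_nonneg D1])
  obtain ⟨y1, y2⟩ := abs_le_of_sq (x := M1) (b := 1) (by norm_num) (by nlinarith [sq_nonneg M2])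
  obtain ⟨-, y4⟩ := abs_le_of_sq (x := M2) (b := 1) (by norm_num) (by nlinarith [sq_nonneg M1])
  obtain ⟨z1, z2⟩ := abs_le_of_sq (x := d1) (b := 314 / 256) (by norm_num)
    (by nlinarith [sq_nonneg d2])
  obtain ⟨z3, z4⟩ := abs_le_of_sq (x := d2) (b := 314 / 256) (by norm_num)
    (by nlinarith [sq_nonneg d1])
  have hx : MemN q4BoxF [256 * D1 + 256, 256 * D2 + 0, 256 * M1 + 256, 256 * M2 + 0, 256 * d1 + 314, 256 * d2 + 314] := by
    simp only [q4BoxF, MemN]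
    push_cast
    refine ⟨?_, ?_, ?_, ?_, ?_, ?_, ?_, ?_, ?_, ?_, ?_, ?_, trivial⟩ <;> linarith
  have hg : ∀ g ∈ q4PB.cs, 0 ≤ g.val [256 * D1 + 256, 256 * D2 + 0, 256 * M1 + 256, 256 * M2 + 0, 256 * d1 + 314, 256 * d2 + 314] := by
    intro g hg
    simp only [q4PB, List.mem_cons, List.not_mem_nil, or_false] at hg
    rcases hg with rfl | rfl | rfl | rfl | rfl | rfl | rfl | rfl | rfl | rfl | rfl | rfl | rfl | rfl | rfl | rfl <;>
    · simp only [Poly.val, qf, dot]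
      push_cast
      linarith
  have hu : ∀ c ∈ q4U, sqs c.1 (unx q4O [256 * D1 + 256, 256 * D2 + 0, 256 * M1 + 256, 256 * M2 + 0, 256 * d1 + 314, 256 * d2 + 314]) ≤ c.2 := by
    intro c hc
    simp only [q4U, List.mem_cons, List.not_mem_nil, or_false] at hc
    rcases hc with rfl | rfl | rfl | rfl | rfl | rfl | rfl | rfl <;>
    · simp only [q4O, unx, sqs, dot]
      push_cast
      linarith
  have hb : Bel C
      [256 * (D1 - M1 + d1), 256 * (D2 - M2 + d2), 256 * (D1 - M1 - d1), 256 * (D2 - M2 - d2),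
        256 * (D1 + M1 - d1), 256 * (D2 + M2 - d2), 256 * (D1 + M1 + d1), 256 * (D2 + M2 + d2)]
      _ :=
    .cons (leCb_b hC _ _) (.cons (leCb_b hC _ _) (.cons (leCb_b hC _ _)
      (.cons (leCb_b hC _ _) .nil)))
  have key := fast_sound q4_ok q4_pack hok hCC h rfl (by decide) hx
    (fun k B h1 h2 hk hm => cutK_sound q4_cd q4_cok h1 (le1024 h2) hk hu hm) hg
    (A0 := [-314, -314, 314, 314, -198, 314, -826, -314]) (A := [256 * (D1 - M1 + d1), 256 * (D2 - M2 + d2), 256 * (D1 - M1 - d1),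
        256 * (D2 - M2 - d2), 256 * (D1 + M1 - d1), 256 * (D2 + M2 - d2),
        256 * (D1 + M1 + d1), 256 * (D2 + M2 + d2)]) rfl
    (by
      simp only [q4PB, Fb]
      norm_num)
    (by
      simp only [q4PB, RF, ax, List.cons.injEq, and_true]
      refine ⟨?_, ?_, ?_, ?_, ?_, ?_, ?_, ?_⟩ <;>
      · push_cast
        ring)
    (by
      simp only [q4PB, EdV, Poly.val, qf, dot, and_true]
      push_cast
      refine ⟨⟨?_, ?_, ?_, ?_⟩, ⟨?_, ?_, ?_, ?_⟩, ⟨?_, ?_, ?_, ?_⟩, ?_, ?_, ?_, ?_⟩ <;> ring) hb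
  simp only [q4PB, Poly.val, qf, dot] at key
  push_cast at key
  unfold InQ sumQ
  linarith

/-- **The second problem.** -/
theorem q9F_sound {C : List (List Aff)} (hC : C ≠ []) (hok : okC C = true) {CC : List (List ℕ)}
    (hCC : CC = packC C) {t : Tree} (h : chk q9FP CC (cutK q9CD) t q9BoxF = true)
    {D1 D2 M1 M2 d1 d2 : ℝ} (hq : QS D1 D2 M1 M2 d1 d2)
    (hM : 1 ≤ M1 ^ 2 + M2 ^ 2) (h0 : 0 ≤ D1) (h1 : 0 ≤ D2) (h2 : 0 ≤ d1) :
    InQ (cbv C) D1 D2 M1 M2 d1 d2 := by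
  obtain ⟨a1, a2, b1, b2, a1', a2', b1', b2', D3, D4, M3, M9, c⟩ := hq
  have hd : d1 ^ 2 + d2 ^ 2 ≤ 5 / 4 := by nlinarith
  obtain ⟨x1, x2⟩ := abs_le_of_sq (x := D1) (b := 1) (by norm_num) (by nlinarith [sq_nonneg D2])
  obtain ⟨-, x4⟩ := abs_le_of_sq (x := D2) (b := 1) (by norm_num) (by nlinarith [sq_nonneg D1])
  obtain ⟨y1, y2⟩ := abs_le_of_sq (x := M1) (b := 3 / 2) (by norm_num)
    (by nlinarith [sq_nonneg M2])
  obtain ⟨y3, y4⟩ := abs_le_of_sq (x := M2) (b := 3 / 2) (by norm_num)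
    (by nlinarith [sq_nonneg M1])
  obtain ⟨-, z2⟩ := abs_le_of_sq (x := d1) (b := 287 / 256) (by norm_num)
    (by nlinarith [sq_nonneg d2])
  obtain ⟨z3, z4⟩ := abs_le_of_sq (x := d2) (b := 287 / 256) (by norm_num)
    (by nlinarith [sq_nonneg d1])
  have hx : MemN q9BoxF [256 * D1 + 0, 256 * D2 + 0, 256 * M1 + 384, 256 * M2 + 384, 256 * d1 + 0, 256 * d2 + 287] := by
    simp only [q9BoxF, MemN]
    push_cast
    refine ⟨?_, ?_, ?_, ?_, ?_, ?_, ?_, ?_, ?_, ?_, ?_, ?_, trivial⟩ <;> linarith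
  have hg : ∀ g ∈ q9PB.cs, 0 ≤ g.val [256 * D1 + 0, 256 * D2 + 0, 256 * M1 + 384, 256 * M2 + 384, 256 * d1 + 0, 256 * d2 + 287] := by
    intro g hg
    simp only [q9PB, List.mem_cons, List.not_mem_nil, or_false] at hg
    rcases hg with rfl | rfl | rfl | rfl | rfl | rfl | rfl | rfl | rfl | rfl | rfl | rfl | rfl | rfl | rfl <;>
    · simp only [Poly.val, qf, dot]
      push_cast
      linarith
  have hu : ∀ c ∈ q9U, sqs c.1 (unx q9O [256 * D1 + 0, 256 * D2 + 0, 256 * M1 + 384, 256 * M2 + 384, 256 * d1 + 0, 256 * d2 + 287]) ≤ c.2 := by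
    intro c hc
    simp only [q9U, List.mem_cons, List.not_mem_nil, or_false] at hc
    rcases hc with rfl | rfl | rfl | rfl | rfl | rfl | rfl | rfl <;>
    · simp only [q9O, unx, sqs, dot]
      push_cast
      linarith
  have hb : Bel C
      [256 * (D1 - M1 + d1), 256 * (D2 - M2 + d2), 256 * (D1 - M1 - d1), 256 * (D2 - M2 - d2),
        256 * (D1 + M1 - d1), 256 * (D2 + M2 - d2), 256 * (D1 + M1 + d1), 256 * (D2 + M2 + d2)]
      _ :=
    .cons (leCb_b hC _ _) (.cons (leCb_b hC _ _) (.cons (leCb_b hC _ _)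
      (.cons (leCb_b hC _ _) .nil)))
  have key := fast_sound q9_ok q9_pack hok hCC h rfl (by decide) hx
    (fun k B h1 h2 hk hm => cutK_sound q9_cd q9_cok h1 (le1024 h2) hk hu hm) hg
    (A0 := [384, 97, 384, 671, -384, -97, -384, -671]) (A := [256 * (D1 - M1 + d1), 256 * (D2 - M2 + d2), 256 * (D1 - M1 - d1),
        256 * (D2 - M2 - d2), 256 * (D1 + M1 - d1), 256 * (D2 + M2 - d2),
        256 * (D1 + M1 + d1), 256 * (D2 + M2 + d2)]) rfl
    (by
      simp only [q9PB, Fb]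
      norm_num)
    (by
      simp only [q9PB, RF, ax, List.cons.injEq, and_true]
      refine ⟨?_, ?_, ?_, ?_, ?_, ?_, ?_, ?_⟩ <;>
      · push_cast
        ring)
    (by
      simp only [q9PB, EdV, Poly.val, qf, dot, and_true]
      push_cast
      refine ⟨⟨?_, ?_, ?_, ?_⟩, ⟨?_, ?_, ?_, ?_⟩, ⟨?_, ?_, ?_, ?_⟩, ?_, ?_, ?_, ?_⟩ <;> ring) hb
  simp only [q9PB, Poly.val, qf, dot] at key
  push_cast at key
  unfold InQ sumQ
  linarith

/-- **The field `quad`.** -/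
theorem quad_of_fast {C : List (List Aff)} (hC : C ≠ []) (hok : okC C = true)
    {CC : List (List ℕ)} (hCC : CC = packC C) {t4 t9 : Tree}
    (h4 : chk q4FP CC (cutK q4CD) t4 q4BoxF = true)
    (h9 : chk q9FP CC (cutK q9CD) t9 q9BoxF = true)
    {A1 A2 B1 B2 d1 d2 : ℝ} (h : QuadV A1 A2 B1 B2 d1 d2) :
    av (cbv C) (A1 + d1) (A2 + d2) + av (cbv C) (B1 - d1) (B2 - d2) +
      av (cbv C) (A1 - d1) (A2 - d2) + av (cbv C) (B1 + d1) (B2 + d2) ≤
      2 * (A1 * B2 - A2 * B1) / (2 * h0) - 1 :=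
  quad_of (fun hq hM h0 h1 => q4F_sound hC hok hCC h4 hq hM h0 h1)
    (fun hq hM h0 h1 h2 => q9F_sound hC hok hCC h9 hq hM h0 h1 h2) h

end Pool.Agent.Strip051.LC.Box
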