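import Pool.Agent.Strip051.LC.Box.FastProbL
import Pool.Agent.Strip051.LC.Box.Quad

/-! # The cells with two long sides and the pairs of unit vectors, from certificates -/

namespace Pool.Agent.Strip051.LC.Box

open Pool.Agent.StripNear Pool.Agent.StripSquare Pool.Agent.Strip051.LC
open Pool.Agent.Strip051.LC.Box.Fast

theorem leCb_av {C : List (List Aff)} (hC : C ≠ []) (u v : List ℤ) (X T : ℝ) (xs : List ℝ)
    (h1 : dot u xs = 256 * X) (h2 : dot v xs = 256 * T) :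
    LeCb C 256 (dot u xs) (dot v xs) (4096 * 256 * av (cbv C) X T) := by
  rw [h1, h2]
  have := leCb_cbv hC (N := 256) (by norm_num) X T
  push_cast at this
  exact this

theorem leCb_avK {C : List (List Aff)} (hC : C ≠ []) (X T : ℝ) :
    LeCb (sc4 C) 256 (1024 * X) (1024 * T) (4096 * 1024 * av (cbv C) X T) := by
  have := leCb_cbv hC (N := 1024) (by norm_num) X T
  push_cast at this
  exact leCb_sc4 this

/-- The lists for the cells with two long sides. -/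
def tCS (C R : List (List Aff)) : List (List (List (List ℕ))) :=
  [[packC (sc4 R), packC (sc4 R), packC (sc4 C)]]

/-- The lists for the pairs of unit vectors. -/
def rCS (U R : List (List Aff)) : List (List (List (List ℕ))) :=
  R.map fun F => [packC (sc4 U), packC (sc4 U), packC (sc4 (ngL F))]

theorem two_h0 : 2 * h0 = √3 := by
  unfold h0
  ring

/-! ### Cells with two long sides -/

/-- The cells with the long sides `s - q` and `s + q`. -/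
structure TS (s1 s2 q1 q2 : ℝ) : Prop where
  p3 : 3 ≤ (s1 - q1) ^ 2 + (s2 - q2) ^ 2
  p4 : (s1 - q1) ^ 2 + (s2 - q2) ^ 2 ≤ 4
  r3 : 3 ≤ (s1 + q1) ^ 2 + (s2 + q2) ^ 2
  r4 : (s1 + q1) ^ 2 + (s2 + q2) ^ 2 ≤ 4
  q3 : 1 / 4 ≤ q1 ^ 2 + q2 ^ 2
  q4 : q1 ^ 2 + q2 ^ 2 ≤ 3 / 4
  c : 3 / 2 ≤ 2 * (s1 * q2 - s2 * q1)
  d3 : 3 / 2 ≤ s1 ^ 2 + s2 ^ 2 - (q1 ^ 2 + q2 ^ 2)
  d4 : s1 ^ 2 + s2 ^ 2 - (q1 ^ 2 + q2 ^ 2) ≤ 7 / 2

theorem TS.neg {s1 s2 q1 q2 : ℝ} (h : TS s1 s2 q1 q2) : TS (-s1) (-s2) (-q1) (-q2) := by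
  obtain ⟨h1, h2, h3, h4, h5, h6, h7, h8, h9⟩ := h
  constructor <;> ring_nf at * <;> linarith

theorem TS.mir {s1 s2 q1 q2 : ℝ} (h : TS s1 s2 q1 q2) : TS (-s1) s2 q1 (-q2) := by
  obtain ⟨h1, h2, h3, h4, h5, h6, h7, h8, h9⟩ := h
  constructor <;> ring_nf at * <;> linarith

/-- The sum of the costs. -/
noncomputable def sumT (rho c : ℝ → ℝ → ℝ) (s1 s2 q1 q2 : ℝ) : ℝ :=
  av rho (s1 - q1) (s2 - q2) + av rho (s1 + q1) (s2 + q2) + av c (2 * q1) (2 * q2)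

theorem sumT_neg (rho c : ℝ → ℝ → ℝ) (s1 s2 q1 q2 : ℝ) :
    sumT rho c (-s1) (-s2) (-q1) (-q2) = sumT rho c s1 s2 q1 q2 := by
  unfold sumT
  rw [show -s1 - -q1 = -(s1 - q1) by ring, show -s2 - -q2 = -(s2 - q2) by ring,
    show -s1 + -q1 = -(s1 + q1) by ring, show -s2 + -q2 = -(s2 + q2) by ring,
    show 2 * -q1 = -(2 * q1) by ring, show 2 * -q2 = -(2 * q2) by ring, av_neg, av_neg, av_neg]

theorem sumT_mir (rho c : ℝ → ℝ → ℝ) (s1 s2 q1 q2 : ℝ) :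
    sumT rho c (-s1) s2 q1 (-q2) = sumT rho c s1 s2 q1 q2 := by
  unfold sumT
  rw [show -s1 - q1 = -(s1 + q1) by ring, show s2 - -q2 = s2 + q2 by ring,
    show -s1 + q1 = -(s1 - q1) by ring, show s2 + -q2 = s2 - q2 by ring,
    show 2 * -q2 = -(2 * q2) by ring, av_negL, av_negL, av_negR]
  ring

theorem t_sound {C R : List (List Aff)} (hC : C ≠ []) (hR : R ≠ []) (oC : okC (sc4 C) = true)
    (oR : okC (sc4 R) = true) {t : Tree}
    (h : chkM tFP (tCS C R) (cutK tCD) t tBoxF = true) {s1 s2 q1 q2 : ℝ} (hq : TS s1 s2 q1 q2)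
    (h0 : 0 ≤ s1) (h1 : 0 ≤ s2) :
    sumT (cbv R) (cbv C) s1 s2 q1 q2 ≤ 2364 / 4096 * (2 * (s1 * q2 - s2 * q1)) - 1 / 2 := by
  obtain ⟨p3, p4, r3, r4, q3, q4, c, d3, d4⟩ := hq
  have hs : s1 ^ 2 + s2 ^ 2 ≤ 4 := by linarith
  obtain ⟨-, x2⟩ := abs_le_of_sq (x := s1) (b := 2) (by norm_num) (by nlinarith [sq_nonneg s2])
  obtain ⟨-, x4⟩ := abs_le_of_sq (x := s2) (b := 2) (by norm_num) (by nlinarith [sq_nonneg s1])
  obtain ⟨y1, y2⟩ := abs_le_of_sq (x := q1) (b := 887 / 1024) (by norm_num)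
    (by nlinarith [sq_nonneg q2])
  obtain ⟨y3, y4⟩ := abs_le_of_sq (x := q2) (b := 887 / 1024) (by norm_num)
    (by nlinarith [sq_nonneg q1])
  have hx : MemN tBoxF [1024 * s1 + 0, 1024 * s2 + 0, 1024 * q1 + 887, 1024 * q2 + 887] := by
    simp only [tBoxF, MemN]
    push_cast
    refine ⟨?_, ?_, ?_, ?_, ?_, ?_, ?_, ?_, trivial⟩ <;> linarith
  have hg : ∀ g ∈ tPB.cs,
      0 ≤ g.val [1024 * s1 + 0, 1024 * s2 + 0, 1024 * q1 + 887, 1024 * q2 + 887] := by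
    intro g hg
    simp only [tPB, List.mem_cons, List.not_mem_nil, or_false] at hg
    rcases hg with rfl | rfl | rfl | rfl | rfl | rfl | rfl | rfl | rfl | rfl <;>
    · simp only [Poly.val, qf, dot]
      push_cast
      linarith
  have hu : ∀ c ∈ tU, sqs c.1
      (unx tO [1024 * s1 + 0, 1024 * s2 + 0, 1024 * q1 + 887, 1024 * q2 + 887]) ≤ c.2 := by
    intro c hc
    simp only [tU, List.mem_cons, List.not_mem_nil, or_false] at hc
    rcases hc with rfl | rfl | rfl <;>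
    · simp only [tO, unx, sqs, dot]
      push_cast
      linarith
  have hb : BelL [sc4 R, sc4 R, sc4 C]
      [1024 * (s1 - q1), 1024 * (s2 - q2), 1024 * (s1 + q1), 1024 * (s2 + q2),
        1024 * (2 * q1), 1024 * (2 * q2)] _ :=
    .cons (leCb_avK hR _ _) (.cons (leCb_avK hR _ _) (.cons (leCb_avK hC _ _) .nil))
  have key := fastL_sound (ν := 1024) (by norm_num) t_ok t_pack (CS := [[sc4 R, sc4 R, sc4 C]])
    (by simp [oC, oR]) rfl h rfl (by decide) hx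
    (fun k B h1 h2 hk hm => cutK_sound t_cd t_cok h1 h2 hk hu hm) hg
    (A0 := [887, 887, -887, -887, -1774, -1774])
    (A := [1024 * (s1 - q1), 1024 * (s2 - q2), 1024 * (s1 + q1), 1024 * (s2 + q2),
        1024 * (2 * q1), 1024 * (2 * q2)]) rfl
    (by
      simp only [tPB, Fb]
      norm_num)
    (by
      simp only [tPB, RF, ax, List.cons.injEq, and_true]
      refine ⟨?_, ?_, ?_, ?_, ?_, ?_⟩ <;>
      · push_cast
        ring)
    (by
      simp only [tPB, EdVL, Poly.val, qf, dot, and_true]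
      push_cast
      refine ⟨⟨?_, ?_, ?_, ?_⟩, ⟨?_, ?_, ?_, ?_⟩, ?_, ?_, ?_, ?_⟩ <;> ring)
    (by
      intro CL hCL
      rw [List.mem_singleton.1 hCL]
      exact hb)
  simp only [tPB, Poly.val, qf, dot] at key
  push_cast at key
  unfold sumT
  linarith

theorem sumT_le {C R : List (List Aff)} (hC : C ≠ []) (hR : R ≠ []) (oC : okC (sc4 C) = true)
    (oR : okC (sc4 R) = true) {t : Tree}
    (h : chkM tFP (tCS C R) (cutK tCD) t tBoxF = true) {s1 s2 q1 q2 : ℝ}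
    (hq : TS s1 s2 q1 q2) :
    sumT (cbv R) (cbv C) s1 s2 q1 q2 ≤ 2364 / 4096 * (2 * (s1 * q2 - s2 * q1)) - 1 / 2 := by
  have step1 : ∀ {s1 s2 q1 q2 : ℝ}, TS s1 s2 q1 q2 → 0 ≤ s2 →
      sumT (cbv R) (cbv C) s1 s2 q1 q2 ≤ 2364 / 4096 * (2 * (s1 * q2 - s2 * q1)) - 1 / 2 := by
    intro s1 s2 q1 q2 hq hs2
    rcases le_total 0 s1 with h1 | h1
    · exact t_sound hC hR oC oR h hq h1 hs2
    · have e := t_sound hC hR oC oR h hq.mir (by linarith) hs2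
      rw [sumT_mir] at e
      linarith
  rcases le_total 0 s2 with h1 | h1
  · exact step1 hq h1
  · have e := step1 hq.neg (by linarith)
    rw [sumT_neg] at e
    linarith

/-- **The field `two`.** -/
theorem two_of_check {C R : List (List Aff)} (hC : C ≠ []) (hR : R ≠ [])
    (oC : okC (sc4 C) = true) (oR : okC (sc4 R) = true) {t : Tree}
    (h : chkM tFP (tCS C R) (cutK tCD) t tBoxF = true) {P1 P2 R1 R2 u1 u2 v1 v2 : ℝ}
    (hT : TwoV P1 P2 R1 R2 u1 u2 v1 v2) :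
    av (cbv R) P1 P2 + av (cbv R) R1 R2 + av (cbv C) (R1 - P1) (R2 - P2) ≤
      (P1 * R2 - P2 * R1) / (2 * h0) - 1 / 2 := by
  have hq : TS ((P1 + R1) / 2) ((P2 + R2) / 2) ((R1 - P1) / 2) ((R2 - P2) / 2) := by
    refine ⟨?_, ?_, ?_, ?_, ?_, ?_, ?_, ?_, ?_⟩
    · nlinarith [hT.p3]
    · nlinarith [hT.p4]
    · nlinarith [hT.r3]
    · nlinarith [hT.r4]
    · nlinarith [hT.s1]
    · nlinarith [hT.s3]
    · nlinarith [hT.cross]
    · nlinarith [hT.dot_ge]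
    · nlinarith [hT.dot_le]
  have e := sumT_le hC hR oC oR h hq
  unfold sumT at e
  have e1 : (P1 + R1) / 2 - (R1 - P1) / 2 = P1 := by ring
  have e2 : (P2 + R2) / 2 - (R2 - P2) / 2 = P2 := by ring
  have e3 : (P1 + R1) / 2 + (R1 - P1) / 2 = R1 := by ring
  have e4 : (P2 + R2) / 2 + (R2 - P2) / 2 = R2 := by ring
  have e5 : 2 * ((P1 + R1) / 2 * ((R2 - P2) / 2) - (P2 + R2) / 2 * ((R1 - P1) / 2)) =
      P1 * R2 - P2 * R1 := by ring
  have e6 : 2 * ((R1 - P1) / 2) = R1 - P1 := by ring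
  have e7 : 2 * ((R2 - P2) / 2) = R2 - P2 := by ring
  rw [e1, e2, e3, e4, e5, e6, e7] at e
  have hw : √3 * (2364 / 4096) ≤ 1 := by
    have h1 : √3 ≤ 4096 / 2364 := by
      rw [Real.sqrt_le_left (by norm_num)]
      norm_num
    calc _ ≤ 4096 / 2364 * (2364 / 4096 : ℝ) := mul_le_mul_of_nonneg_right h1 (by norm_num)
      _ = 1 := by norm_num
  have hw0 : 0 < √3 := by positivity
  have key : 2364 / 4096 * (P1 * R2 - P2 * R1) ≤ (P1 * R2 - P2 * R1) / (2 * h0) := by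
    rw [two_h0, le_div_iff₀ hw0]
    have := mul_le_mul_of_nonneg_right hw (by linarith [hT.cross] : 0 ≤ P1 * R2 - P2 * R1)
    linarith
  linarith

/-! ### Pairs of unit vectors -/

/-- The unit vectors `m + k` and `m - k`. -/
structure RS (m1 m2 k1 k2 : ℝ) : Prop where
  orth : m1 * k1 + m2 * k2 = 0
  one : m1 ^ 2 + m2 ^ 2 + (k1 ^ 2 + k2 ^ 2) = 1
  m3 : 3 / 4 ≤ m1 ^ 2 + m2 ^ 2

theorem RS.neg {m1 m2 k1 k2 : ℝ} (h : RS m1 m2 k1 k2) : RS (-m1) (-m2) (-k1) (-k2) := by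
  obtain ⟨h1, h2, h3⟩ := h
  constructor <;> ring_nf at * <;> linarith

theorem RS.mir {m1 m2 k1 k2 : ℝ} (h : RS m1 m2 k1 k2) : RS (-m1) m2 k1 (-k2) := by
  obtain ⟨h1, h2, h3⟩ := h
  constructor <;> ring_nf at * <;> linarith

theorem RS.swap {m1 m2 k1 k2 : ℝ} (h : RS m1 m2 k1 k2) : RS m1 m2 (-k1) (-k2) := by
  obtain ⟨h1, h2, h3⟩ := h
  constructor <;> ring_nf at * <;> linarith

/-- The sum of the costs. -/
noncomputable def sumR (u : ℝ → ℝ → ℝ) (m1 m2 k1 k2 : ℝ) : ℝ :=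
  av u (m1 + k1) (m2 + k2) + av u (m1 - k1) (m2 - k2)

theorem sumR_neg (u : ℝ → ℝ → ℝ) (m1 m2 k1 k2 : ℝ) :
    sumR u (-m1) (-m2) (-k1) (-k2) = sumR u m1 m2 k1 k2 := by
  unfold sumR
  rw [show -m1 + -k1 = -(m1 + k1) by ring, show -m2 + -k2 = -(m2 + k2) by ring,
    show -m1 - -k1 = -(m1 - k1) by ring, show -m2 - -k2 = -(m2 - k2) by ring, av_neg, av_neg]

theorem sumR_mir (u : ℝ → ℝ → ℝ) (m1 m2 k1 k2 : ℝ) :
    sumR u (-m1) m2 k1 (-k2) = sumR u m1 m2 k1 k2 := by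
  unfold sumR
  rw [show -m1 + k1 = -(m1 - k1) by ring, show m2 + -k2 = m2 - k2 by ring,
    show -m1 - k1 = -(m1 + k1) by ring, show m2 - -k2 = m2 + k2 by ring, av_negL, av_negL]
  ring

theorem sumR_swap (u : ℝ → ℝ → ℝ) (m1 m2 k1 k2 : ℝ) :
    sumR u m1 m2 (-k1) (-k2) = sumR u m1 m2 k1 k2 := by
  unfold sumR
  simp only [sub_neg_eq_add, ← sub_eq_add_neg]
  ring

theorem r_sound {U R : List (List Aff)} (hU : U ≠ []) (hR : ∀ F ∈ R, F ≠ [])
    (oU : okC (sc4 U) = true) (oR : ∀ F ∈ R, okC (sc4 (ngL F)) = true) {t : Tree}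
    (h : chkM rFP (rCS U R) (cutK rCD) t rBoxF = true) {m1 m2 k1 k2 : ℝ} (hq : RS m1 m2 k1 k2)
    (h0 : 0 ≤ m1) (h1 : 0 ≤ m2) (h2 : 0 ≤ m1 * k2 - m2 * k1) :
    sumR (cbv U) m1 m2 k1 k2 + 4730 / 4096 * (m1 * k2 - m2 * k1) - 1 / 2 ≤
      av (cbv R) (2 * m1) (2 * m2) := by
  obtain ⟨mk, one, m3⟩ := hq
  have hm : m1 ^ 2 + m2 ^ 2 ≤ 1 := by nlinarith [sq_nonneg k1, sq_nonneg k2]
  have hk : k1 ^ 2 + k2 ^ 2 ≤ 1 / 4 := by linarith
  obtain ⟨-, x2⟩ := abs_le_of_sq (x := m1) (b := 1) (by norm_num) (by nlinarith [sq_nonneg m2])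
  obtain ⟨-, x4⟩ := abs_le_of_sq (x := m2) (b := 1) (by norm_num) (by nlinarith [sq_nonneg m1])
  obtain ⟨y1, y2⟩ := abs_le_of_sq (x := k1) (b := 1 / 2) (by norm_num)
    (by nlinarith [sq_nonneg k2])
  obtain ⟨y3, y4⟩ := abs_le_of_sq (x := k2) (b := 1 / 2) (by norm_num)
    (by nlinarith [sq_nonneg k1])
  have hx : MemN rBoxF [1024 * m1 + 0, 1024 * m2 + 0, 1024 * k1 + 512, 1024 * k2 + 512] := by
    simp only [rBoxF, MemN]
    push_cast
    refine ⟨?_, ?_, ?_, ?_, ?_, ?_, ?_, ?_, trivial⟩ <;> linarith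
  have hg : ∀ g ∈ rPB.cs,
      0 ≤ g.val [1024 * m1 + 0, 1024 * m2 + 0, 1024 * k1 + 512, 1024 * k2 + 512] := by
    intro g hg
    simp only [rPB, List.mem_cons, List.not_mem_nil, or_false] at hg
    rcases hg with rfl | rfl | rfl | rfl | rfl | rfl | rfl | rfl | rfl | rfl | rfl <;>
    · simp only [Poly.val, qf, dot]
      push_cast
      linarith
  have hu : ∀ c ∈ rU, sqs c.1
      (unx rO [1024 * m1 + 0, 1024 * m2 + 0, 1024 * k1 + 512, 1024 * k2 + 512]) ≤ c.2 := by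
    intro c hc
    simp only [rU, List.mem_cons, List.not_mem_nil, or_false] at hc
    rcases hc with rfl | rfl | rfl | rfl <;>
    · simp only [rO, unx, sqs, dot]
      push_cast
      linarith
  have hb : ∀ CL ∈ R.map fun F => [sc4 U, sc4 U, sc4 (ngL F)], BelL CL
      [1024 * (m1 + k1), 1024 * (m2 + k2), 1024 * (m1 - k1), 1024 * (m2 - k2),
        1024 * (2 * m1), 1024 * (2 * m2)]
      (4096 * 1024 * av (cbv U) (m1 + k1) (m2 + k2) + 32768 * (1024 * (m1 + k1)) +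
        32768 * (1024 * (m2 + k2)) + 8388608 +
        (4096 * 1024 * av (cbv U) (m1 - k1) (m2 - k2) + 32768 * (1024 * (m1 - k1)) +
        32768 * (1024 * (m2 - k2)) + 8388608 +
        (-(4096 * 1024 * av (cbv R) (2 * m1) (2 * m2)) + 32768 * (1024 * (2 * m1)) +
        32768 * (1024 * (2 * m2)) + 8388608 + 0))) := by
    intro CL hCL
    obtain ⟨F, hF, rfl⟩ := List.mem_map.1 hCL
    refine .cons (leCb_avK hU _ _) (.cons (leCb_avK hU _ _) (.cons ?_ .nil))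
    have := leCb_ng hF (hR F hF) (N := 1024) (by norm_num) (2 * m1) (2 * m2)
    push_cast at this
    exact leCb_sc4 this
  have key := fastL_sound (ν := 1024) (by norm_num) r_ok r_pack
    (CS := R.map fun F => [sc4 U, sc4 U, sc4 (ngL F)])
    (by
      intro CL hCL
      obtain ⟨F, hF, rfl⟩ := List.mem_map.1 hCL
      simp [oU, oR F hF])
    (CC := rCS U R) (by simp [rCS, List.map_map, Function.comp_def]) h rfl (by decide) hx
    (fun k B h1 h2 hk hm => cutK_sound r_cd r_cok h1 h2 hk hu hm) hg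
    (A0 := [-512, -512, 512, 512, 0, 0])
    (A := [1024 * (m1 + k1), 1024 * (m2 + k2), 1024 * (m1 - k1), 1024 * (m2 - k2),
        1024 * (2 * m1), 1024 * (2 * m2)]) rfl
    (by
      simp only [rPB, Fb]
      norm_num)
    (by
      simp only [rPB, RF, ax, List.cons.injEq, and_true]
      refine ⟨?_, ?_, ?_, ?_, ?_, ?_⟩ <;>
      · push_cast
        ring)
    (by
      simp only [rPB, EdVL, Poly.val, qf, dot, and_true]
      push_cast
      refine ⟨⟨?_, ?_, ?_, ?_⟩, ⟨?_, ?_, ?_, ?_⟩, ?_, ?_, ?_, ?_⟩ <;> ring)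
    hb
  simp only [rPB, Poly.val, qf, dot] at key
  push_cast at key
  unfold sumR
  linarith

theorem sumR_le {U R : List (List Aff)} (hU : U ≠ []) (hR : ∀ F ∈ R, F ≠ [])
    (oU : okC (sc4 U) = true) (oR : ∀ F ∈ R, okC (sc4 (ngL F)) = true) {t : Tree}
    (h : chkM rFP (rCS U R) (cutK rCD) t rBoxF = true) {m1 m2 k1 k2 : ℝ} (hq : RS m1 m2 k1 k2) :
    sumR (cbv U) m1 m2 k1 k2 + 4730 / 4096 * |m1 * k2 - m2 * k1| - 1 / 2 ≤
      av (cbv R) (2 * m1) (2 * m2) := by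
  have step2 : ∀ {m1 m2 k1 k2 : ℝ}, RS m1 m2 k1 k2 → 0 ≤ m1 → 0 ≤ m2 →
      sumR (cbv U) m1 m2 k1 k2 + 4730 / 4096 * |m1 * k2 - m2 * k1| - 1 / 2 ≤
        av (cbv R) (2 * m1) (2 * m2) := by
    intro m1 m2 k1 k2 hq h1 h2
    rcases le_total 0 (m1 * k2 - m2 * k1) with h3 | h3
    · rw [abs_of_nonneg h3]
      exact r_sound hU hR oU oR h hq h1 h2 h3
    · have e := r_sound hU hR oU oR h hq.swap h1 h2 (by linarith)
      rw [sumR_swap] at e
      rw [abs_of_nonpos h3]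
      linarith
  have step1 : ∀ {m1 m2 k1 k2 : ℝ}, RS m1 m2 k1 k2 → 0 ≤ m2 →
      sumR (cbv U) m1 m2 k1 k2 + 4730 / 4096 * |m1 * k2 - m2 * k1| - 1 / 2 ≤
        av (cbv R) (2 * m1) (2 * m2) := by
    intro m1 m2 k1 k2 hq h2
    rcases le_total 0 m1 with h1 | h1
    · exact step2 hq h1 h2
    · have e := step2 hq.mir (by linarith) h2
      rw [sumR_mir, show -m1 * -k2 - m2 * k1 = m1 * k2 - m2 * k1 by ring,
        show 2 * -m1 = -(2 * m1) by ring, av_negL] at e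
      exact e
  rcases le_total 0 m2 with h1 | h1
  · exact step1 hq h1
  · have e := step1 hq.neg (by linarith)
    rw [sumR_neg, show -m1 * -k2 - -m2 * -k1 = m1 * k2 - m2 * k1 by ring,
      show 2 * -m1 = -(2 * m1) by ring, show 2 * -m2 = -(2 * m2) by ring, av_neg] at e
    exact e

/-- **The field `rhoU`.** -/
theorem rhoU_of_check {U R : List (List Aff)} (hU : U ≠ []) (hR : ∀ F ∈ R, F ≠ [])
    (oU : okC (sc4 U) = true) (oR : ∀ F ∈ R, okC (sc4 (ngL F)) = true) {t : Tree}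
    (h : chkM rFP (rCS U R) (cutK rCD) t rBoxF = true) {u1 u2 v1 v2 : ℝ} (hu : u1 ^ 2 + u2 ^ 2 = 1)
    (hv : v1 ^ 2 + v2 ^ 2 = 1) (h3 : 3 ≤ (u1 + v1) ^ 2 + (u2 + v2) ^ 2) :
    av (cbv U) u1 u2 + av (cbv U) v1 v2 + |u1 * v2 - u2 * v1| / (2 * h0) - 1 / 2 ≤
      av (cbv R) (u1 + v1) (u2 + v2) := by
  have hq : RS ((u1 + v1) / 2) ((u2 + v2) / 2) ((u1 - v1) / 2) ((u2 - v2) / 2) := by
    refine ⟨?_, ?_, ?_⟩
    · linear_combination (hu - hv) / 4
    · linear_combination (hu + hv) / 2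
    · linarith
  have e := sumR_le hU hR oU oR h hq
  unfold sumR at e
  have e1 : (u1 + v1) / 2 + (u1 - v1) / 2 = u1 := by ring
  have e2 : (u2 + v2) / 2 + (u2 - v2) / 2 = u2 := by ring
  have e3 : (u1 + v1) / 2 - (u1 - v1) / 2 = v1 := by ring
  have e4 : (u2 + v2) / 2 - (u2 - v2) / 2 = v2 := by ring
  have e5 : |(u1 + v1) / 2 * ((u2 - v2) / 2) - (u2 + v2) / 2 * ((u1 - v1) / 2)| =
      |u1 * v2 - u2 * v1| / 2 := by
    rw [show (u1 + v1) / 2 * ((u2 - v2) / 2) - (u2 + v2) / 2 * ((u1 - v1) / 2) =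
      -((u1 * v2 - u2 * v1) / 2) by ring, abs_neg, abs_div, abs_two]
  have e6 : 2 * ((u1 + v1) / 2) = u1 + v1 := by ring
  have e7 : 2 * ((u2 + v2) / 2) = u2 + v2 := by ring
  rw [e1, e2, e3, e4, e5, e6, e7] at e
  have hw : 1 ≤ 2365 / 4096 * √3 := by
    have h1 : (4096 : ℝ) / 2365 ≤ √3 := by
      rw [Real.le_sqrt (by norm_num) (by norm_num)]
      norm_num
    calc (1 : ℝ) = 2365 / 4096 * (4096 / 2365) := by norm_num
      _ ≤ _ := mul_le_mul_of_nonneg_left h1 (by norm_num)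
  have hw0 : 0 < √3 := by positivity
  have key : |u1 * v2 - u2 * v1| / (2 * h0) ≤ 2365 / 4096 * |u1 * v2 - u2 * v1| := by
    rw [two_h0, div_le_iff₀ hw0]
    have := mul_le_mul_of_nonneg_left hw (abs_nonneg (u1 * v2 - u2 * v1))
    linarith
  linarith

/-- The field `rho0`. -/
theorem rho0_of {R : List (List Aff)} (h : [⟨0, 0, 0⟩] ∈ R) (X T : ℝ) : 0 ≤ cbv R X T := by
  refine le_trans ?_ (le_cbv h X T)
  simp [mnv, affv]

end Pool.Agent.Strip051.LC.Box
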